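import Pool.Agent.L7h10.RQ.Defs

/-!
# Enlarging the set of places
-/

set_option autoImplicit false
set_option linter.all false

namespace Pool.Agent.L7h10.RQ
open NumberField Module IntermediateField
open Pool.Agent.K4H33.SK (Qbar GQ Fixes IsZeta IsTorsionOrder AbelianRoot LimitFormula fixes_iff
  mem_of_fixed Fixes.mul Fixes.inv Fixes.mono Fixes.conj Fixes.conj' quad_normal quad exists_lift
  exists_conj fixes_sup agree_iff agree_sup comm_adjoin normal_mem cnt_prime cnt_modulus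
  hasSum_shift comm_of_root abelianRoot_div isCoprime_prime_iff)
open Pool.Agent.K4H33.SK.Stmt (Sub Ideals nrm Cop prd principal Above IsFrob IsArtin cnt cntAll
  StarkImQuad PrimesOver)

lemma real_modulus {ι : Qbar →+* ℂ} {F H : Sub} [NumberField F]
    {𝔤 𝔤' : Ideals F} {art : Ideals F → GQ}
    (h : ∀ 𝔟 : Ideals F, IsCoprime 𝔟 𝔤 ↔ IsCoprime 𝔟 𝔤') (hS : StarkReal0 ι F H 𝔤 art) :
    StarkReal0 ι F H 𝔤' art := by
  obtain ⟨Z, ε, h1, h2, h3, h4, h5⟩ := hS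
  refine ⟨Z, ε, h1, h2, h3, ?_, h5⟩
  intro σ hσ
  have h6 : cnt F H 𝔤' art σ = cnt F H 𝔤 art σ := by
    funext n
    exact (cnt_modulus art h σ n).symm
  rw [h6]
  exact h4 σ hσ

lemma real_prime {ι : Qbar →+* ℂ} {F H : Sub} [NumberField F] {𝔪 𝔤 P : Ideals F}
    {art : Ideals F → GQ} (hart : IsArtin F H 𝔪 art) (hFH : F ≤ H)
    (hc : ∀ 𝔟 : Ideals F, IsCoprime 𝔟 𝔤 → IsCoprime 𝔟 𝔪) (hP : P.IsPrime) (hP0 : P ≠ ⊥)
    (hPg : IsCoprime P 𝔤) (hS : StarkReal0 ι F H 𝔤 art) : StarkReal0 ι F H (𝔤 * P) art := by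
  obtain ⟨Z, ε, h1, h2, h3, h4, h5, h6⟩ := hS
  have hart' := hart.down
  have hε0 : ε ≠ 0 := by
    rintro rfl
    have h7 := (h4 1 (fun _ _ => rfl)).2.2.2
    rw [map_zero, map_zero] at h7
    exact Complex.exp_ne_zero _ h7.symm
  have hρ : Fixes F (art P)⁻¹ := Fixes.inv (hart'.fix P (hc P hPg))
  set ρ : GQ := (art P)⁻¹ with hρdef
  have hρ0 : ρ ε ≠ 0 := by simpa using hε0
  have hρH : ρ ε ∈ H := by
    apply mem_of_fixed
    intro σ hσ
    rw [comm_of_root (by norm_num : 0 < 2) h6 (hσ.mono hFH) hρ, hσ ε h1]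
  have hPn : Ideal.absNorm P ≠ 0 := by
    rw [Ne, Ideal.absNorm_eq_zero_iff]
    exact hP0
  have hPn' : (Ideal.absNorm P : ℂ) ≠ 0 := Nat.cast_ne_zero.2 hPn
  have hd : Differentiable ℂ (fun s : ℂ => (Ideal.absNorm P : ℂ) ^ (-s)) :=
    (differentiable_id.neg).const_cpow (Or.inl hPn')
  refine ⟨fun σ s => Z σ s - (Ideal.absNorm P : ℂ) ^ (-s) * Z (ρ * σ) s, ε / ρ ε,
    H.div_mem h1 hρH, ?_, ?_, ?_, ?_, abelianRoot_div (by norm_num) hε0 h6 hρ⟩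
  · rw [div_eq_mul_inv, ← map_inv₀]
    exact h2.mul (h3.map (ρ : Qbar →+* Qbar).toIntAlgHom)
  · rw [inv_div, div_eq_mul_inv]
    exact (h2.map (ρ : Qbar →+* Qbar).toIntAlgHom).mul h3
  · intro σ hσ
    have e1 := h4 σ hσ
    have e2 := h4 (ρ * σ) (hρ.mul hσ)
    have hn : ({1}ᶜ : Set ℂ) ∈ nhds (0 : ℂ) := isOpen_compl_singleton.mem_nhds (by simp)
    have d1 := (e1.1.1.differentiableAt hn).hasDerivAt
    have d2 := (e2.1.1.differentiableAt hn).hasDerivAt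
    have d3 := (hd 0).hasDerivAt
    have h5' := (d1.sub (d3.mul d2)).deriv
    have h6' : deriv (fun s => Z σ s - (Ideal.absNorm P : ℂ) ^ (-s) * Z (ρ * σ) s) 0 =
        deriv (Z σ) 0 - deriv (Z (ρ * σ)) 0 := by
      refine Eq.trans h5' ?_
      rw [e2.2.1, mul_zero, zero_add, neg_zero, Complex.cpow_zero, one_mul]
    refine ⟨⟨?_, ?_⟩, ?_, ?_, ?_⟩
    · exact e1.1.1.sub (hd.differentiableOn.mul e2.1.1)
    · intro s hs
      have h3 := (e1.1.2 s hs).sub (hasSum_shift hPn (e2.1.2 s hs))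
      refine (LSeriesHasSum_congr s _ (fun {n} _ => ?_)).1 h3
      have h7 := cnt_prime (L := H) hart' le_rfl hc hP hP0 hPg σ n
      rw [Pi.sub_apply]
      have h8 : (cnt F H 𝔤 art σ n : ℂ) = (cnt F H (𝔤 * P) art σ n : ℂ) +
          ((if Ideal.absNorm P ∣ n then cnt F H 𝔤 art ((art P)⁻¹ * σ) (n / Ideal.absNorm P)
            else 0 : ℕ) : ℂ) := by
        rw [← Nat.cast_add]
        exact congrArg _ h7
      rw [h8]
      push_cast
      split_ifs <;> ring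
    · simp only
      rw [e1.2.1, e2.2.1]
      ring
    · rw [h6', Complex.sub_im, e1.2.2.1, e2.2.2.1, sub_zero]
    · rw [h6', map_div₀, map_div₀, comm_of_root (by norm_num : 0 < 2) h6 hσ hρ]
      have e3 : ι (ρ (σ ε)) = ι ((ρ * σ) ε) := rfl
      rw [e3, e1.2.2.2, e2.2.2.2, ← Complex.exp_sub]
      congr 1
      ring
  · intro w hw
    have h8 : ‖(w.comp (ρ : Qbar →+* Qbar)) ε‖ = 1 := by
      refine h5 _ ?_
      obtain ⟨x, hx, hx2⟩ := hw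
      refine ⟨x, hx, ?_⟩
      have h9 : (w.comp (ρ : Qbar →+* Qbar)) x = w x := congrArg w (hρ x hx)
      rw [h9]
      exact hx2
    have h9 : (w.comp (ρ : Qbar →+* Qbar)) ε = w (ρ ε) := rfl
    rw [h9] at h8
    rw [map_div₀, norm_div, h5 w hw, h8, div_one]

lemma real_mul {ι : Qbar →+* ℂ} {F H : Sub} [NumberField F] {𝔪 : Ideals F}
    {art : Ideals F → GQ} (hart : IsArtin F H 𝔪 art) (hFH : F ≤ H)
    (hS : StarkReal0 ι F H 𝔪 art) (𝔟 : Ideals F) :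
    𝔟 ≠ 0 → StarkReal0 ι F H (𝔪 * 𝔟) art := by
  induction 𝔟 using UniqueFactorizationMonoid.induction_on_prime with
  | h₁ => exact fun h => absurd rfl h
  | h₂ 𝔟 hu =>
    intro _
    have h1 : 𝔟 = 1 := by
      rw [Ideal.isUnit_iff] at hu
      rw [hu, Ideal.one_eq_top]
    rw [h1, mul_one]
    exact hS
  | h₃ 𝔟 P h0 hp ih =>
    intro _
    have ih := ih h0
    have hP : P.IsPrime := Ideal.isPrime_of_prime hp
    have hP0 : P ≠ ⊥ := hp.ne_zero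
    have e : 𝔪 * (P * 𝔟) = 𝔪 * 𝔟 * P := by rw [mul_comm P, mul_assoc]
    rw [e]
    by_cases hPg : IsCoprime P (𝔪 * 𝔟)
    · exact real_prime hart hFH (fun 𝔠 h => (IsCoprime.mul_right_iff.1 h).1) hP hP0 hPg ih
    · refine real_modulus (fun 𝔠 => ?_) ih
      rw [IsCoprime.mul_right_iff (x := 𝔠) (y := 𝔪 * 𝔟) (z := P)]
      refine ⟨fun h => ⟨h, ?_⟩, fun h => h.1⟩
      rw [isCoprime_comm, isCoprime_prime_iff hP hP0, not_not] at hPg
      rw [Ideal.isCoprime_iff_exists] at h ⊢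
      obtain ⟨i, hi, j, hj, hij⟩ := h
      exact ⟨i, hi, j, hPg hj, hij⟩

theorem s_add : S_ADD := by
  intro ι F H _ 𝔪 𝔣 art hFH hart hS h𝔣0 h𝔣
  have h2 := real_mul hart hFH hS 𝔣 h𝔣0
  refine real_modulus (fun 𝔟 => ?_) h2
  rw [IsCoprime.mul_right_iff]
  refine ⟨fun h => h.2, fun h => ⟨?_, h⟩⟩
  rw [Ideal.isCoprime_iff_sup_eq]
  by_contra hne
  obtain ⟨P, hP, hle⟩ := Ideal.exists_le_maximal _ hne
  apply hP.ne_top
  rw [Ideal.eq_top_iff_one]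
  obtain ⟨i, hi, j, hj, hij⟩ := Ideal.isCoprime_iff_exists.1 h
  rw [← hij]
  exact P.add_mem (hle ((le_sup_left : 𝔟 ≤ 𝔟 ⊔ _) hi))
    (h𝔣 P hP.isPrime ((le_sup_right : 𝔪 ≤ 𝔟 ⊔ 𝔪).trans hle) hj)

end Pool.Agent.L7h10.RQ
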