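import Pool.Agent.L7h10.RQ.Fr

/-!
# Existence and uniqueness of Artin symbols
-/

set_option autoImplicit false
set_option linter.all false

namespace Pool.Agent.L7h10.RQ
open NumberField Module IntermediateField IsDedekindDomain UniqueFactorizationMonoid
open Pool.Agent.K4H33.SK (Qbar GQ Fixes IsZeta IsTorsionOrder AbelianRoot LimitFormula fixes_iff
  mem_of_fixed Fixes.mul Fixes.inv Fixes.mono Fixes.one Fixes.conj Fixes.conj' quad_normal quad
  exists_lift exists_conj fixes_sup agree_iff agree_sup comm_adjoin normal_mem fixes_adjoin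
  isCoprime_prime_iff)
open Pool.Agent.K4H33.SK.Stmt (Sub Ideals nrm Cop prd principal Above IsFrob IsArtin cnt cntAll
  StarkImQuad PrimesOver)

/-- products of automorphisms in different orders agree on an abelian extension -/
lemma perm_agree {F M : Sub} (hM : IsAbelian F M) {l l' : List GQ} (h : l.Perm l')
    (hl : ∀ g ∈ l, Fixes F g) : ∀ x ∈ M, l.prod x = l'.prod x := by
  have hfix : ∀ l : List GQ, (∀ g ∈ l, Fixes F g) → Fixes F l.prod := by
    intro l
    induction l with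
    | nil => intro _; exact Fixes.one F
    | cons a l ih =>
      intro h
      rw [List.prod_cons]
      exact (h a (List.mem_cons_self)).mul (ih fun g hg => h g (List.mem_cons_of_mem _ hg))
  induction h with
  | nil => intro x _; rfl
  | cons a h ih =>
    intro x hx
    rw [List.prod_cons, List.prod_cons, AlgEquiv.mul_apply, AlgEquiv.mul_apply,
      ih (fun g hg => hl g (List.mem_cons_of_mem _ hg)) x hx]
  | swap a b l =>
    intro x hx
    have ha : Fixes F a := hl a (by simp)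
    have hb : Fixes F b := hl b (by simp)
    have hlf : Fixes F l.prod := hfix l fun g hg => hl g (by simp [hg])
    rw [List.prod_cons, List.prod_cons, List.prod_cons, List.prod_cons, AlgEquiv.mul_apply,
      AlgEquiv.mul_apply, AlgEquiv.mul_apply, AlgEquiv.mul_apply]
    exact hM.comm b a hb ha _ (hM.normal _ hlf x hx)
  | trans h1 h2 ih1 ih2 =>
    intro x hx
    rw [ih1 hl x hx, ih2 (fun g hg => hl g (h1.mem_iff.2 hg)) x hx]

lemma not_bot_of_cop {F : Sub} [NumberField F] {𝔪 𝔟 : Ideals F} (h𝔪 : 𝔪 ≠ ⊤)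
    (h : Cop F 𝔟 𝔪) : 𝔟 ≠ ⊥ := by
  rintro rfl
  apply h𝔪
  have h1 : IsCoprime (0 : Ideals F) 𝔪 := h
  rw [isCoprime_zero_left] at h1
  exact Ideal.isUnit_iff.1 h1

theorem s_art : S_ART := by
  classical
  intro F M _ 𝔪 hM h𝔪
  -- Frobenius elements
  have hfr : ∀ P : Ideals F, ∃ g : GQ, Fixes F g ∧ (P.IsPrime → P ≠ ⊥ →
      ∀ 𝔔 : Ideal (𝓞 Qbar), Above F P 𝔔 → IsFrob M 𝔔 (nrm F P) g) := by
    intro P
    by_cases hP : P.IsPrime ∧ P ≠ ⊥
    · obtain ⟨hP, hP0⟩ := hP
      obtain ⟨𝔓, h𝔓⟩ := exists_above P hP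
      obtain ⟨g, hg, hg2⟩ := exists_frob hP hP0 h𝔓
      refine ⟨g, hg, fun _ _ 𝔔 h𝔔 => ?_⟩
      rw [isFrob_iff]
      intro x hx
      obtain ⟨h, hh, hh2⟩ := exists_trans h𝔓 h𝔔
      have h1 := hg2 (h⁻¹ • x)
      have h2 := (hh2 _).1 h1
      rw [smul_sub, smul_pow', smul_inv_smul] at h2
      have h3 : h • g • h⁻¹ • x = g • x := by
        apply RingOfIntegers.ext
        rw [coe_smul, coe_smul, coe_smul, coe_smul, hM.comm g h⁻¹ hg hh.inv _ hx,
          ← AlgEquiv.mul_apply, mul_inv_cancel, AlgEquiv.one_apply]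
      rwa [h3] at h2
    · exact ⟨1, Fixes.one F, fun h1 h2 => absurd ⟨h1, h2⟩ hP⟩
  choose g hg1 hg2 using hfr
  set art : Ideals F → GQ := fun 𝔟 => ((normalizedFactors 𝔟).toList.map g).prod with hart
  refine ⟨art, ?_, ?_, ?_⟩
  · intro 𝔟 _
    have : ∀ l : List (Ideals F), Fixes F (l.map g).prod := by
      intro l
      induction l with
      | nil => exact Fixes.one F
      | cons a l ih =>
        rw [List.map_cons, List.prod_cons]
        exact (hg1 a).mul ih
    exact this _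
  · intro 𝔟 𝔠 h𝔟 h𝔠 x hx
    have h1 := not_bot_of_cop h𝔪 h𝔟
    have h2 := not_bot_of_cop h𝔪 h𝔠
    have h3 : (normalizedFactors (𝔟 * 𝔠)).toList.Perm
        ((normalizedFactors 𝔟).toList ++ (normalizedFactors 𝔠).toList) := by
      rw [← Multiset.coe_eq_coe, Multiset.coe_toList, ← Multiset.coe_add, Multiset.coe_toList,
        Multiset.coe_toList]
      exact normalizedFactors_mul h1 h2
    have h4 := perm_agree hM (h3.map g) (by
      intro s hs
      rw [List.mem_map] at hs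
      obtain ⟨P, -, rfl⟩ := hs
      exact hg1 P) x hx
    rw [List.map_append, List.prod_append] at h4
    exact h4
  · intro P hP hc 𝔓 h𝔓
    have hP0 := not_bot_of_cop h𝔪 hc
    have h1 : normalizedFactors P = {P} := by
      have hp : Prime P := Ideal.prime_of_isPrime hP0 hP
      rw [normalizedFactors_irreducible hp.irreducible, normalize_eq]
    have h2 : art P = g P := by
      simp only [hart, h1, Multiset.toList_singleton, List.map_cons, List.map_nil,
        List.prod_singleton]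
    rw [h2]
    exact hg2 P hP hP0 𝔓 h𝔓

/-- Two automorphisms which act in the same way modulo `𝔓` agree if `M` is unramified at `𝔓`. -/
lemma agree_of {M : Sub} [NumberField M] {𝔓 : Ideal (𝓞 Qbar)} (h𝔓 : 𝔓.IsMaximal) {a b : GQ}
    (hunr : ∀ i : GQ, Inertia 𝔓 i → (∀ x ∈ M, i x = (b⁻¹ * a) x) → Fixes M i)
    (hb : ∀ x : 𝓞 Qbar, (x : Qbar) ∈ M → b⁻¹ • (a • x - b • x) ∈ 𝔓) :
    ∀ x ∈ M, a x = b x := by
  obtain ⟨i, hi, hi2⟩ := exists_inertia (M := M) h𝔓 (σ := b⁻¹ * a) (fun x hx => by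
    have h1 := hb x hx
    rwa [smul_sub, inv_smul_smul, ← mul_smul] at h1)
  intro x hx
  have h1 := hunr i hi hi2 x hx
  rw [hi2 x hx, AlgEquiv.mul_apply, AlgEquiv.aut_inv, AlgEquiv.symm_apply_eq] at h1
  exact h1

theorem s_uni' (F M : Sub) [NumberField F] (𝔪 𝔪' : Ideals F) (hM : IsAbelian F M)
    (hu : Unramified F M 𝔪) (h𝔪 : 𝔪 ≠ ⊤) (h𝔪' : 𝔪' ≠ ⊤)
    (hcc : ∀ 𝔟 : Ideals F, Cop F 𝔟 𝔪' → Cop F 𝔟 𝔪) (art art' : Ideals F → GQ)
    (hart : IsArtin F M 𝔪 art) (hart' : IsArtin F M 𝔪' art') (𝔟 : Ideals F) :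
    Cop F 𝔟 𝔪' → ∀ x ∈ M, art 𝔟 x = art' 𝔟 x := by
  haveI := hM.fin
  haveI : NumberField M := ⟨⟩
  have hprime : ∀ P : Ideals F, P.IsPrime → Cop F P 𝔪' → ∀ x ∈ M, art P x = art' P x := by
    intro P hP hc
    have hP0 := not_bot_of_cop h𝔪' hc
    obtain ⟨𝔓, h𝔓⟩ := exists_above P hP
    have hmax := above_isMaximal hP0 h𝔓
    have f1 := isFrob_iff.1 (hart.frob P hP (hcc P hc) 𝔓 h𝔓)
    have f2 := isFrob_iff.1 (hart'.frob P hP hc 𝔓 h𝔓)
    have hfix := hart'.fix P hc
    have hfix1 := hart.fix P (hcc P hc)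
    refine agree_of hmax (a := art P) (b := art' P) ?_ ?_
    · intro i hi hi2
      refine hu 𝔓 h𝔓.1 ?_ i ?_ hi
      · intro Q hQ
        have : Q = P := hQ.2.over.trans h𝔓.2.over.symm
        rw [this]
        exact hcc P hc
      · intro x hx
        rw [hi2 x (hM.le hx)]
        exact (hfix.inv.mul hfix1) x hx
    · intro x hx
      set u : 𝓞 Qbar := (art' P)⁻¹ • (art P • x - art' P • x) with hu'
      have huM : (u : Qbar) ∈ M := by
        rw [hu', coe_smul]
        refine hM.normal _ hfix.inv _ ?_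
        exact M.sub_mem (hM.normal _ hfix1 _ hx) (hM.normal _ hfix _ hx)
      have h1 : art' P • u = art P • x - art' P • x := by rw [hu', smul_inv_smul]
      have h2 : art P • x - art' P • x ∈ 𝔓 := by
        have h3 := 𝔓.sub_mem (f1 x hx) (f2 x hx)
        rwa [sub_sub_sub_cancel_right] at h3
      have h3 := f2 u huM
      rw [h1] at h3
      have h4 := 𝔓.sub_mem h2 h3
      rw [sub_sub_cancel] at h4
      exact hmax.isPrime.mem_of_pow_mem _ h4
  induction 𝔟 using UniqueFactorizationMonoid.induction_on_prime with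
  | h₁ =>
    intro hc
    exact absurd rfl (not_bot_of_cop h𝔪' hc)
  | h₂ 𝔟 hu =>
    intro hc x hx
    have h1 : 𝔟 = 1 := by
      rw [Ideal.isUnit_iff] at hu
      rw [hu, Ideal.one_eq_top]
    subst h1
    have h2 := hart.mul 1 1 (hcc 1 hc) (hcc 1 hc) x hx
    have h3 := hart'.mul 1 1 hc hc x hx
    have h4 : prd F 1 1 = (1 : Ideals F) := mul_one _
    rw [h4] at h2 h3
    rw [← (art 1).injective h2, ← (art' 1).injective h3]
  | h₃ 𝔟 P h0 hp ih =>
    intro hc x hx
    have hc' : Cop F P 𝔪' ∧ Cop F 𝔟 𝔪' := by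
      have h1 : IsCoprime (P * 𝔟) 𝔪' := hc
      rw [IsCoprime.mul_left_iff] at h1
      exact h1
    have e1 := hart.mul P 𝔟 (hcc P hc'.1) (hcc 𝔟 hc'.2) x hx
    have e2 := hart'.mul P 𝔟 hc'.1 hc'.2 x hx
    have e3 : art (P * 𝔟) x = art P (art 𝔟 x) := e1
    have e4 : art' (P * 𝔟) x = art' P (art' 𝔟 x) := e2
    rw [e3, e4, ih hc'.2 x hx]
    exact hprime P (Ideal.isPrime_of_prime hp) hc'.1 _ (hM.normal _ (hart'.fix 𝔟 hc'.2) x hx)

end Pool.Agent.L7h10.RQ
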