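import Pool.Agent.L7h10.RQ.Odd

/-!
# Construction of the imaginary quadratic field
-/

set_option autoImplicit false
set_option linter.all false

namespace Pool.Agent.L7h10.RQ
open NumberField Module IntermediateField
open Pool.Agent.K4H33.SK (Qbar GQ Fixes IsZeta IsTorsionOrder AbelianRoot LimitFormula fixes_iff
  mem_of_fixed Fixes.mul Fixes.inv Fixes.mono Fixes.conj Fixes.conj' quad_normal quad exists_lift
  exists_conj fixes_sup agree_iff agree_sup comm_adjoin normal_mem fixes_adjoin)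
open Pool.Agent.K4H33.SK.Stmt (Sub Ideals nrm Cop prd principal Above IsFrob IsArtin cnt cntAll
  StarkImQuad PrimesOver)

lemma exists_not_fixes {F : Sub} (hF : finrank ℚ F = 2) : ∃ τ : GQ, ¬ Fixes F τ := by
  by_contra h
  push Not at h
  have h1 : F ≤ ⊥ := by
    intro x hx
    exact mem_of_fixed ⊥ fun σ _ => h σ x hx
  have h2 : F = ⊥ := le_bot_iff.1 h1
  subst h2
  have h3 : finrank ℚ (⊥ : Sub) = 1 := IntermediateField.finrank_bot
  rw [h3] at hF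
  norm_num at hF

/-- the situation before the construction of `k` -/
structure Pre (ι : Qbar →+* ℂ) (F H : Sub) (ρ τ : GQ) : Prop where
  conj : ∀ x, ι (ρ x) = (starRingEnd ℂ) (ι x)
  quadF : finrank ℚ F = 2
  ab : IsAbelian F H
  real : ∀ x ∈ H, (ι x).im = 0
  τ_F : ¬ Fixes F τ

namespace Pre

variable {ι : Qbar →+* ℂ} {F H : Sub} {ρ τ : GQ}

/-- the normal closure -/
noncomputable def LL (H : Sub) (τ : GQ) : Sub := H ⊔ H.map (τ : Qbar →ₐ[ℚ] Qbar)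

lemma mem_map' {x : Qbar} : x ∈ H.map (τ : Qbar →ₐ[ℚ] Qbar) ↔ ∃ y ∈ H, τ y = x := by
  rw [IntermediateField.mem_map]
  rfl

lemma ρ_H (D : Pre ι F H ρ τ) : Fixes H ρ := by
  intro x hx
  apply ι.injective
  rw [D.conj]
  exact Complex.conj_eq_iff_im.2 (D.real x hx)

lemma rr (D : Pre ι F H ρ τ) : ρ * ρ = 1 := by
  ext x
  apply ι.injective
  rw [AlgEquiv.mul_apply, D.conj, D.conj, Complex.conj_conj, AlgEquiv.one_apply]

lemma ρ_F (D : Pre ι F H ρ τ) : Fixes F ρ := D.ρ_H.mono D.ab.le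

lemma c_F (D : Pre ι F H ρ τ) : Fixes F (τ⁻¹ * ρ * τ) :=
  D.ρ_F.conj' (quad_normal D.quadF) τ

lemma mem_or (D : Pre ι F H ρ τ) (g : GQ) {y : Qbar} (hy : y ∈ H) :
    g y ∈ H ∨ g y ∈ H.map (τ : Qbar →ₐ[ℚ] Qbar) := by
  by_cases hg : Fixes F g
  · exact Or.inl (D.ab.normal g hg y hy)
  · right
    rw [mem_map']
    refine ⟨(τ⁻¹ * g) y, D.ab.normal _ (quad D.quadF (Data.inv_F D.τ_F) hg) y hy, ?_⟩
    rw [← AlgEquiv.mul_apply, mul_inv_cancel_left]

lemma fixes_LL {s : GQ} : Fixes (LL H τ) s ↔ Fixes H s ∧ ∀ y ∈ H, s (τ y) = τ y := by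
  unfold LL
  rw [fixes_sup]
  refine and_congr_right fun _ => ?_
  constructor
  · intro h y hy
    exact h _ (mem_map'.2 ⟨y, hy, rfl⟩)
  · intro h x hx
    obtain ⟨y, hy, rfl⟩ := mem_map'.1 hx
    exact h y hy

lemma τ_mem {y : Qbar} (hy : y ∈ H) : τ y ∈ LL H τ :=
  (le_sup_right : H.map (τ : Qbar →ₐ[ℚ] Qbar) ≤ LL H τ) (mem_map'.2 ⟨y, hy, rfl⟩)

lemma H_L : H ≤ LL H τ := le_sup_left

lemma normL (D : Pre ι F H ρ τ) : ∀ g : GQ, ∀ x ∈ LL H τ, g x ∈ LL H τ := by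
  intro g x hx
  apply mem_of_fixed
  intro s hs
  have h1 : Fixes (LL H τ) (g⁻¹ * s * g) := by
    have h0 : ∀ h : GQ, ∀ y ∈ H, s (h y) = h y := by
      intro h y hy
      rcases D.mem_or h hy with h1 | h1
      · exact hs _ (H_L h1)
      · obtain ⟨y', hy', he⟩ := mem_map'.1 h1
        rw [← he]
        exact (fixes_LL.1 hs).2 y' hy'
    rw [fixes_LL]
    constructor
    · intro y hy
      rw [AlgEquiv.mul_apply, AlgEquiv.mul_apply, h0 g y hy, ← AlgEquiv.mul_apply,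
        inv_mul_cancel, AlgEquiv.one_apply]
    · intro y hy
      have h2 := h0 (g * τ) y hy
      rw [AlgEquiv.mul_apply] at h2
      rw [AlgEquiv.mul_apply, AlgEquiv.mul_apply, h2, ← AlgEquiv.mul_apply,
        inv_mul_cancel, AlgEquiv.one_apply]
  have h2 := h1 x hx
  rw [AlgEquiv.mul_apply, AlgEquiv.mul_apply, AlgEquiv.aut_inv, AlgEquiv.symm_apply_eq] at h2
  exact h2

lemma finL (D : Pre ι F H ρ τ) : FiniteDimensional ℚ (LL H τ) := by
  haveI := D.ab.fin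
  haveI : FiniteDimensional ℚ (H.map (τ : Qbar →ₐ[ℚ] Qbar)) :=
    (IntermediateField.intermediateFieldMap (τ : Qbar ≃ₐ[ℚ] Qbar) H).toLinearEquiv.finiteDimensional
  exact IntermediateField.finiteDimensional_sup _ _

lemma abF (D : Pre ι F H ρ τ) : ∀ σ σ' : GQ, Fixes F σ → Fixes F σ' → ∀ x ∈ LL H τ,
    σ (σ' x) = σ' (σ x) := by
  intro σ σ' h h'
  have h1 : ∀ x ∈ LL H τ, (σ * σ') x = (σ' * σ) x := by
    refine agree_sup (fun x hx => D.ab.comm σ σ' h h' x hx) (fun x hx => ?_)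
    obtain ⟨y, hy, rfl⟩ := mem_map'.1 hx
    have n := quad_normal D.quadF
    have h2 := D.ab.comm _ _ (h.conj' n τ) (h'.conj' n τ) y hy
    have h3 := congrArg τ h2
    simp only [← AlgEquiv.mul_apply] at h3 ⊢
    have e1 : τ * (τ⁻¹ * σ * τ * (τ⁻¹ * σ' * τ)) = σ * σ' * τ := by group
    have e2 : τ * (τ⁻¹ * σ' * τ * (τ⁻¹ * σ * τ)) = σ' * σ * τ := by group
    rw [e1, e2] at h3
    exact h3
  exact h1

lemma real_of (D : Pre ι F H ρ τ) {x : Qbar} (hx : x ∈ H) (hc : (τ⁻¹ * ρ * τ) x = x)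
    (w : Qbar →+* ℂ) : (w x).im = 0 := by
  obtain ⟨h, hh⟩ := exists_lift ι w
  rw [hh]
  by_cases hF : Fixes F h
  · exact D.real _ (D.ab.normal h hF x hx)
  · have h1 : Fixes F (τ⁻¹ * h) := quad D.quadF (Data.inv_F D.τ_F) hF
    apply Complex.conj_eq_iff_im.1
    rw [← D.conj]
    congr 1
    have h2 := D.ab.comm (τ⁻¹ * ρ * τ) (τ⁻¹ * h) D.c_F h1 x hx
    rw [hc] at h2
    have h3 := congrArg τ h2
    simp only [← AlgEquiv.mul_apply] at h3 ⊢
    have e1 : τ * (τ⁻¹ * ρ * τ * (τ⁻¹ * h)) = ρ * h := by group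
    have e2 : τ * (τ⁻¹ * h) = h := by group
    rw [e1, e2] at h3
    exact h3

/-- an automorphism which is trivial on the totally real part is trivial or the second complex
conjugation -/
lemma one_or_c (D : Pre ι F H ρ τ) {e : GQ} (he : ∀ x ∈ H, (τ⁻¹ * ρ * τ) x = x → e x = x) :
    (∀ x ∈ H, e x = x) ∨ (∀ x ∈ H, e x = (τ⁻¹ * ρ * τ) x) := by
  set c := τ⁻¹ * ρ * τ with hc
  have hcc : ∀ x, c (c x) = x := by
    intro x
    rw [← AlgEquiv.mul_apply]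
    have : c * c = 1 := by
      rw [hc]
      calc τ⁻¹ * ρ * τ * (τ⁻¹ * ρ * τ) = τ⁻¹ * (ρ * ρ) * τ := by group
        _ = 1 := by rw [D.rr]; group
    rw [this, AlgEquiv.one_apply]
  have hcH : ∀ x ∈ H, c x ∈ H := D.ab.normal c D.c_F
  have h1 : ∀ x ∈ H, e x = x ∨ e x = c x := by
    intro x hx
    have e1 : e (x + c x) = x + c x :=
      he _ (H.add_mem hx (hcH x hx)) (by rw [map_add, hcc, add_comm])
    have e2 : e (x * c x) = x * c x :=
      he _ (H.mul_mem hx (hcH x hx)) (by rw [map_mul, hcc, mul_comm])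
    have e3 : (e x - x) * (e x - c x) = 0 := by
      have e4 : e (x * x - (x + c x) * x + x * c x) = 0 := by
        rw [show x * x - (x + c x) * x + x * c x = 0 by ring, map_zero]
      rw [map_add, map_sub, map_mul, map_mul, e1, e2] at e4
      rw [← e4]
      ring
    rcases mul_eq_zero.1 e3 with h | h
    · exact Or.inl (sub_eq_zero.1 h)
    · exact Or.inr (sub_eq_zero.1 h)
  by_contra hcon
  push Not at hcon
  obtain ⟨⟨x, hx, hx'⟩, ⟨y, hy, hy'⟩⟩ := hcon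
  have hx2 : e x = c x := (h1 x hx).resolve_left hx'
  have hy2 : e y = y := (h1 y hy).resolve_right hy'
  rcases h1 (x + y) (H.add_mem hx hy) with h | h
  · rw [map_add, hy2] at h
    exact hx' (add_right_cancel h)
  · rw [map_add, map_add, hx2] at h
    exact hy' (add_left_cancel h)

/-! ### The group `V` -/

section V

variable [Normal ℚ (LL H τ)]

lemma comm' (D : Pre ι F H ρ τ) {σ σ' : GQ} (h : Fixes F σ)
    (h' : Fixes F σ') : res (LL H τ) σ * res (LL H τ) σ' = res (LL H τ) σ' * res (LL H τ) σ := by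
  rw [← map_mul, ← map_mul, res_eq_iff]
  exact D.abF σ σ' h h'

lemma ττ (D : Pre ι F H ρ τ) : Fixes F (τ * τ) := quad D.quadF D.τ_F D.τ_F

/-- `ρ c` -/
noncomputable def zz' (ρ τ : GQ) : GQ := ρ * (τ⁻¹ * ρ * τ)

lemma z_F' (D : Pre ι F H ρ τ) : Fixes F (zz' ρ τ) := D.ρ_F.mul D.c_F

/-- `c` is trivial on the conjugate field -/
lemma c_conj (D : Pre ι F H ρ τ) {y : Qbar} (hy : y ∈ H) : (τ⁻¹ * ρ * τ) (τ y) = τ y := by
  have h1 : (τ * τ) y ∈ H := D.ab.normal _ D.ττ y hy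
  have h2 : ρ (τ (τ y)) = τ (τ y) := D.ρ_H _ h1
  rw [AlgEquiv.mul_apply, AlgEquiv.mul_apply, h2, AlgEquiv.aut_inv, AlgEquiv.symm_apply_eq]

/-- `τ c τ⁻¹ = ρ`, and `τ ρ τ⁻¹ = c` on `L` -/
lemma conj_ρ (D : Pre ι F H ρ τ) :
    res (LL H τ) τ * res (LL H τ) ρ * (res (LL H τ) τ)⁻¹ = res (LL H τ) (τ⁻¹ * ρ * τ) := by
  have h1 := D.comm' D.ττ D.ρ_F
  rw [map_mul] at h1
  rw [map_mul, map_mul, map_inv]
  calc res (LL H τ) τ * res (LL H τ) ρ * (res (LL H τ) τ)⁻¹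
      = (res (LL H τ) τ)⁻¹ * (res (LL H τ) τ * res (LL H τ) τ * res (LL H τ) ρ) *
          (res (LL H τ) τ)⁻¹ := by group
    _ = _ := by rw [h1]; group

/-- the commutators with `τ` -/
lemma e_cases (D : Pre ι F H ρ τ) {f : ℕ} {ζ : Qbar} (hf : 2 ≤ f) (hζ : IsPrimitiveRoot ζ f)
    (hplus : ∀ x ∈ H, (∀ w : Qbar →+* ℂ, (w x).im = 0) → x ∈ ℚ⟮ζ⟯) {σ : GQ} (hσ : Fixes F σ) :
    res (LL H τ) τ * res (LL H τ) σ = res (LL H τ) σ * res (LL H τ) τ ∨
    res (LL H τ) τ * res (LL H τ) σ = res (LL H τ) (zz' ρ τ) * res (LL H τ) σ * res (LL H τ) τ := by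
  haveI : NeZero f := ⟨by omega⟩
  set e : GQ := τ * σ * τ⁻¹ * σ⁻¹ with he
  have heF : Fixes F e := (hσ.conj (quad_normal D.quadF) τ).mul hσ.inv
  have heζ : Fixes ℚ⟮ζ⟯ e := by
    apply fixes_adjoin
    have h1 : hζ.autToPow ℚ e = hζ.autToPow ℚ 1 := by
      rw [he, map_mul, map_mul, map_mul, map_inv, map_inv, map_one]
      rw [mul_comm (hζ.autToPow ℚ τ), mul_inv_cancel_right, mul_inv_cancel]
    have h2 := hζ.autToPow_spec ℚ e
    have h3 := hζ.autToPow_spec ℚ 1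
    rw [h1, h3] at h2
    exact h2.symm
  have hcase := D.one_or_c (e := e) (fun x hx hcx =>
    heζ x (hplus x hx (fun w => D.real_of hx hcx w)))
  have hrese : res (LL H τ) e = res (LL H τ) τ * res (LL H τ) σ * (res (LL H τ) τ)⁻¹ *
      (res (LL H τ) σ)⁻¹ := by
    rw [he, map_mul, map_mul, map_mul, map_inv, map_inv]
  have hE3 : res (LL H τ) (e * τ) = res (LL H τ) (τ * e⁻¹) := by
    have h1 := D.comm' D.ττ hσ.inv
    rw [map_mul, map_inv] at h1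
    rw [map_mul (res (LL H τ)) e τ, map_mul (res (LL H τ)) τ e⁻¹, map_inv, hrese]
    have h2 : (res (LL H τ) τ)⁻¹ * (res (LL H τ) σ)⁻¹ * res (LL H τ) τ =
        res (LL H τ) τ * (res (LL H τ) σ)⁻¹ * (res (LL H τ) τ)⁻¹ := by
      calc (res (LL H τ) τ)⁻¹ * (res (LL H τ) σ)⁻¹ * res (LL H τ) τ
          = (res (LL H τ) τ)⁻¹ * ((res (LL H τ) σ)⁻¹ * (res (LL H τ) τ * res (LL H τ) τ)) *
            (res (LL H τ) τ)⁻¹ := by group
        _ = _ := by rw [← h1]; group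
    calc res (LL H τ) τ * res (LL H τ) σ * (res (LL H τ) τ)⁻¹ * (res (LL H τ) σ)⁻¹ *
          res (LL H τ) τ
        = res (LL H τ) τ * res (LL H τ) σ * ((res (LL H τ) τ)⁻¹ * (res (LL H τ) σ)⁻¹ *
          res (LL H τ) τ) := by group
      _ = _ := by rw [h2]; group
  have hE3' : ∀ y ∈ H, e (τ y) = τ (e⁻¹ y) := fun y hy => res_eq_iff.1 hE3 y (H_L hy)
  rcases hcase with h | h
  · left
    have h1 : Fixes (LL H τ) e := by
      rw [fixes_LL]
      refine ⟨h, fun y hy => ?_⟩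
      rw [hE3' y hy]
      congr 1
      rw [AlgEquiv.aut_inv, AlgEquiv.symm_apply_eq]
      exact (h y hy).symm
    have h2 := res_eq_one_iff.2 h1
    rw [hrese, mul_inv_eq_one, mul_inv_eq_iff_eq_mul] at h2
    exact h2
  · right
    have h1 : res (LL H τ) e = res (LL H τ) (zz' ρ τ) := by
      rw [res_eq_iff]
      unfold LL
      refine agree_sup (fun y hy => ?_) (fun x hx => ?_)
      · have h3 : zz' ρ τ y = ρ ((τ⁻¹ * ρ * τ) y) := rfl
        rw [h y hy, h3, D.ρ_H _ (D.ab.normal _ D.c_F y hy)]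
      · obtain ⟨y, hy, rfl⟩ := mem_map'.1 hx
        have h3 : zz' ρ τ (τ y) = ρ ((τ⁻¹ * ρ * τ) (τ y)) := rfl
        have h4 : e⁻¹ y = (τ⁻¹ * ρ * τ) y := by
          rw [AlgEquiv.aut_inv, AlgEquiv.symm_apply_eq, h _ (D.ab.normal _ D.c_F y hy)]
          have h5 : (τ⁻¹ * ρ * τ) * (τ⁻¹ * ρ * τ) = 1 := by
            calc τ⁻¹ * ρ * τ * (τ⁻¹ * ρ * τ) = τ⁻¹ * (ρ * ρ) * τ := by group
              _ = 1 := by rw [D.rr]; group
          rw [← AlgEquiv.mul_apply, h5, AlgEquiv.one_apply]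
        rw [h3, D.c_conj hy, hE3' y hy, h4]
        rw [← AlgEquiv.mul_apply, ← AlgEquiv.mul_apply]
        congr 1
        group
    rw [← h1, hrese]
    group

/-- `z` commutes with `τ` on `L` -/
lemma z_τ (D : Pre ι F H ρ τ) :
    res (LL H τ) τ * res (LL H τ) (zz' ρ τ) = res (LL H τ) (zz' ρ τ) * res (LL H τ) τ := by
  have h1 := D.conj_ρ
  have h2 := D.comm' D.ρ_F D.c_F
  have h3 : res (LL H τ) (zz' ρ τ) = res (LL H τ) ρ * res (LL H τ) (τ⁻¹ * ρ * τ) := map_mul _ _ _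
  have h4 : res (LL H τ) τ * res (LL H τ) (τ⁻¹ * ρ * τ) = res (LL H τ) ρ * res (LL H τ) τ := by
    rw [← map_mul, ← map_mul]
    congr 1
    group
  rw [h3]
  calc res (LL H τ) τ * (res (LL H τ) ρ * res (LL H τ) (τ⁻¹ * ρ * τ))
      = (res (LL H τ) τ * res (LL H τ) ρ * (res (LL H τ) τ)⁻¹) *
          (res (LL H τ) τ * res (LL H τ) (τ⁻¹ * ρ * τ)) := by group
    _ = res (LL H τ) (τ⁻¹ * ρ * τ) * (res (LL H τ) ρ * res (LL H τ) τ) := by rw [h1, h4]
    _ = _ := by rw [← mul_assoc, ← h2]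

lemma resrr (D : Pre ι F H ρ τ) : res (LL H τ) ρ * res (LL H τ) ρ = 1 := by
  rw [← map_mul, D.rr, map_one]

lemma rescc (D : Pre ι F H ρ τ) :
    res (LL H τ) (τ⁻¹ * ρ * τ) * res (LL H τ) (τ⁻¹ * ρ * τ) = 1 := by
  rw [← map_mul]
  have h5 : (τ⁻¹ * ρ * τ) * (τ⁻¹ * ρ * τ) = 1 := by
    calc τ⁻¹ * ρ * τ * (τ⁻¹ * ρ * τ) = τ⁻¹ * (ρ * ρ) * τ := by group
      _ = 1 := by rw [D.rr]; group
  rw [h5, map_one]

/-- the centralizer of `τ` -/
noncomputable def V (H : Sub) (τ : GQ) [Normal ℚ (LL H τ)] : Subgroup GQ :=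
  (Subgroup.centralizer {res (LL H τ) τ}).comap (res (LL H τ))

lemma mem_V {σ : GQ} : σ ∈ V H τ ↔
    res (LL H τ) τ * res (LL H τ) σ = res (LL H τ) σ * res (LL H τ) τ := by
  unfold V
  rw [Subgroup.mem_comap, Subgroup.mem_centralizer_iff]
  constructor
  · intro h
    exact h _ (Set.mem_singleton _)
  · intro h g hg
    rw [Set.mem_singleton_iff.1 hg]
    exact h

lemma τ_V : τ ∈ V H τ := mem_V.2 rfl

/-- the main dichotomy -/
lemma V_or (D : Pre ι F H ρ τ) {f : ℕ} {ζ : Qbar} (hf : 2 ≤ f) (hζ : IsPrimitiveRoot ζ f)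
    (hplus : ∀ x ∈ H, (∀ w : Qbar →+* ℂ, (w x).im = 0) → x ∈ ℚ⟮ζ⟯) (σ : GQ) :
    σ ∈ V H τ ∨ σ * ρ ∈ V H τ := by
  have main : ∀ σ : GQ, Fixes F σ → σ ∈ V H τ ∨ σ * ρ ∈ V H τ := by
    intro σ hσ
    rcases D.e_cases hf hζ hplus hσ with h | h
    · exact Or.inl (mem_V.2 h)
    · right
      rw [mem_V, map_mul]
      have h1 := D.conj_ρ
      have h2 : res (LL H τ) (zz' ρ τ) = res (LL H τ) ρ * res (LL H τ) (τ⁻¹ * ρ * τ) :=
        map_mul _ _ _
      have h3 := D.comm' hσ D.ρ_F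
      have h4 := D.comm' hσ D.c_F
      calc res (LL H τ) τ * (res (LL H τ) σ * res (LL H τ) ρ)
          = (res (LL H τ) τ * res (LL H τ) σ) * res (LL H τ) ρ := by group
        _ = (res (LL H τ) (zz' ρ τ) * res (LL H τ) σ * res (LL H τ) τ) * res (LL H τ) ρ := by
            rw [h]
        _ = res (LL H τ) ρ * res (LL H τ) (τ⁻¹ * ρ * τ) * res (LL H τ) σ *
            (res (LL H τ) τ * res (LL H τ) ρ * (res (LL H τ) τ)⁻¹) * res (LL H τ) τ := by
            rw [h2]; group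
        _ = res (LL H τ) ρ * (res (LL H τ) (τ⁻¹ * ρ * τ) * (res (LL H τ) σ *
            res (LL H τ) (τ⁻¹ * ρ * τ))) * res (LL H τ) τ := by
            rw [h1]; group
        _ = res (LL H τ) ρ * ((res (LL H τ) (τ⁻¹ * ρ * τ) * res (LL H τ) (τ⁻¹ * ρ * τ)) *
            res (LL H τ) σ) * res (LL H τ) τ := by rw [h4]; group
        _ = _ := by rw [D.rescc, one_mul, ← h3]
  by_cases hσ : Fixes F σ
  · exact main σ hσ
  · have h1 : Fixes F (τ⁻¹ * σ) := quad D.quadF (Data.inv_F D.τ_F) hσ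
    rcases main _ h1 with h | h
    · left
      have := (V H τ).mul_mem τ_V h
      rwa [mul_inv_cancel_left] at this
    · right
      have := (V H τ).mul_mem τ_V h
      rwa [mul_assoc, mul_inv_cancel_left] at this

lemma z_H (D : Pre ι F H ρ τ) (hcx : ∃ x ∈ H, ∃ w : Qbar →+* ℂ, (w x).im ≠ 0) :
    ¬ Fixes H (zz' ρ τ) := by
  intro h
  obtain ⟨x, hx, w, hw⟩ := hcx
  apply hw
  refine D.real_of hx ?_ w
  have h1 : zz' ρ τ x = ρ ((τ⁻¹ * ρ * τ) x) := rfl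
  have h2 := h x hx
  rw [h1, D.ρ_H _ (D.ab.normal _ D.c_F x hx)] at h2
  exact h2

lemma ρ_V (D : Pre ι F H ρ τ) (hcx : ∃ x ∈ H, ∃ w : Qbar →+* ℂ, (w x).im ≠ 0) :
    ρ ∉ V H τ := by
  intro h
  rw [mem_V] at h
  apply D.z_H hcx
  have h1 := D.conj_ρ
  rw [h, mul_inv_cancel_right] at h1
  have h2 : res (LL H τ) (zz' ρ τ) = res (LL H τ) ρ * res (LL H τ) (τ⁻¹ * ρ * τ) := map_mul _ _ _
  rw [← h1, D.resrr] at h2
  exact (res_eq_one_iff.1 h2).mono H_L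

lemma V_ab (D : Pre ι F H ρ τ) {s s' : GQ} (h : s ∈ V H τ) (h' : s' ∈ V H τ) :
    res (LL H τ) s * res (LL H τ) s' = res (LL H τ) s' * res (LL H τ) s := by
  have main : ∀ s s' : GQ, s ∈ V H τ → s' ∈ V H τ → Fixes F s →
      res (LL H τ) s * res (LL H τ) s' = res (LL H τ) s' * res (LL H τ) s := by
    intro s s' h h' hs
    by_cases hs' : Fixes F s'
    · exact D.comm' hs hs'
    · have h1 : Fixes F (τ⁻¹ * s') := quad D.quadF (Data.inv_F D.τ_F) hs'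
      have h2 := D.comm' hs h1
      have h3 := mem_V.1 h
      have h4 : res (LL H τ) s' = res (LL H τ) τ * res (LL H τ) (τ⁻¹ * s') := by
        rw [← map_mul, mul_inv_cancel_left]
      rw [h4, ← mul_assoc, ← h3, mul_assoc, h2, mul_assoc]
  by_cases hs : Fixes F s
  · exact main s s' h h' hs
  · have h1 : Fixes F (τ⁻¹ * s) := quad D.quadF (Data.inv_F D.τ_F) hs
    have hm : τ⁻¹ * s ∈ V H τ := (V H τ).mul_mem ((V H τ).inv_mem τ_V) h
    have h2 := main (τ⁻¹ * s) s' hm h' h1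
    have h3 := mem_V.1 h'
    have h4 : res (LL H τ) s = res (LL H τ) τ * res (LL H τ) (τ⁻¹ * s) := by
      rw [← map_mul, mul_inv_cancel_left]
    rw [h4, mul_assoc, h2, ← mul_assoc, h3, mul_assoc]

lemma LL_le_V : (LL H τ).fixingSubgroup ≤ V H τ := by
  intro σ hσ
  have h1 := res_eq_one_iff.2 (fixes_iff.2 hσ)
  rw [mem_V, h1, mul_one, one_mul]

end V

end Pre

end Pool.Agent.L7h10.RQ
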