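import Pool.Agent.L7h10.RQ.DataA

/-!
# Construction of the imaginary quadratic field, second part
-/

set_option autoImplicit false
set_option linter.all false

namespace Pool.Agent.L7h10.RQ
open NumberField Module IntermediateField
open Pool.Agent.K4H33.SK (Qbar GQ Fixes IsZeta IsTorsionOrder AbelianRoot LimitFormula fixes_iff
  mem_of_fixed Fixes.mul Fixes.inv Fixes.mono Fixes.conj Fixes.conj' quad_normal quad exists_lift
  exists_conj fixes_sup agree_iff agree_sup comm_adjoin normal_mem fixes_adjoin)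
open Pool.Agent.K4H33.SK.Stmt (Sub Ideals nrm Cop prd principal Above IsFrob IsArtin cnt cntAll
  StarkImQuad PrimesOver)

/-- a closed subgroup of index two is the fixing subgroup of a quadratic field -/
lemma exists_field (V : Subgroup GQ) (L : Sub) [FiniteDimensional ℚ L]
    (hL : L.fixingSubgroup ≤ V) (ρ : GQ) (hρ : ρ ∉ V) (h : ∀ σ : GQ, σ ∈ V ∨ σ * ρ ∈ V) :
    ∃ k : Sub, finrank ℚ k = 2 ∧ ∀ σ : GQ, Fixes k σ ↔ σ ∈ V := by
  haveI i1 : IsGalois ℚ Qbar := ⟨⟩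
  have hopen : IsOpen (V : Set GQ) := Subgroup.isOpen_mono hL L.fixingSubgroup_isOpen
  have hfix : (IntermediateField.fixedField V).fixingSubgroup = V :=
    InfiniteGalois.fixingSubgroup_fixedField ⟨V, Subgroup.isClosed_of_isOpen V hopen⟩
  refine ⟨IntermediateField.fixedField V, ?_, fun σ => ?_⟩
  · have h1 := IntermediateField.finrank_eq_fixingSubgroup_index Qbar
        (IntermediateField.fixedField V : Sub)
    rw [hfix] at h1
    have h2 : V.index = 2 := by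
      rw [Subgroup.index_eq_two_iff]
      refine ⟨ρ, fun σ => ?_⟩
      rcases h σ with hσ | hσ
      · refine Or.inr ⟨hσ, fun h' => ?_⟩
        apply hρ
        have := V.mul_mem (V.inv_mem hσ) h'
        rwa [inv_mul_cancel_left] at this
      · refine Or.inl ⟨hσ, fun h' => ?_⟩
        apply hρ
        have := V.mul_mem (V.inv_mem h') hσ
        rwa [inv_mul_cancel_left] at this
    rw [h2] at h1
    exact h1
  · rw [fixes_iff, hfix]

/-- the inertia group of a conjugate prime -/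
lemma inertia_conj {𝔓 : Ideal (𝓞 Qbar)} (h𝔓 : 𝔓.IsPrime) {σ τ : GQ} (hσ : Inertia 𝔓 σ) :
    ∃ 𝔔 : Ideal (𝓞 Qbar), 𝔔.IsPrime ∧ (∀ x y : 𝓞 Qbar, (y : Qbar) = τ (x : Qbar) →
      (x ∈ 𝔔 ↔ y ∈ 𝔓)) ∧ Inertia 𝔔 (τ⁻¹ * σ * τ) := by
  set T : 𝓞 Qbar →+* 𝓞 Qbar := RingOfIntegers.mapRingHom (τ : Qbar →+* Qbar) with hT
  have hTx : ∀ x : 𝓞 Qbar, ((T x : 𝓞 Qbar) : Qbar) = τ (x : Qbar) := fun x => rfl
  refine ⟨𝔓.comap T, Ideal.comap_isPrime _ _, ?_, ?_⟩
  · intro x y hxy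
    rw [Ideal.mem_comap]
    have : T x = y := RingOfIntegers.ext (by rw [hTx, hxy])
    rw [this]
  · intro x y hxy
    rw [Ideal.mem_comap, map_sub]
    apply hσ
    rw [hTx, hTx, hxy, ← AlgEquiv.mul_apply, ← AlgEquiv.mul_apply]
    congr 1
    group

theorem s_data : S_DATA := by
  intro ι F H _ hF hab hreal hcx f ζ hf hζ hplus hur
  obtain ⟨ρ, hρ⟩ := exists_conj ι
  obtain ⟨τ, hτ⟩ := exists_not_fixes hF
  have D : Pre ι F H ρ τ := ⟨hρ, hF, hab, hreal, hτ⟩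
  haveI : Normal ℚ (Pre.LL H τ) := normal_of_map D.normL
  haveI : FiniteDimensional ℚ (Pre.LL H τ) := D.finL
  obtain ⟨k, hk, hkV⟩ := exists_field (Pre.V H τ) (Pre.LL H τ) Pre.LL_le_V ρ (D.ρ_V hcx)
    (D.V_or hf hζ hplus)
  refine ⟨k, Pre.LL H τ, ρ, τ, Pre.zz' ρ τ, ?_, ?_⟩
  · refine ⟨hρ, hF, hk, hab.le, Pre.H_L, ?_, D.finL, D.normL, D.ρ_H, ?_, ?_, hτ, D.abF, ?_, rfl,
      D.z_H hcx, ?_⟩
    · intro x hx
      apply mem_of_fixed
      intro σ hσ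
      exact (hkV σ).2 (Pre.LL_le_V (fixes_iff.1 hσ)) x hx
    · rw [hkV]
      exact D.ρ_V hcx
    · rw [hkV]
      exact Pre.τ_V
    · intro σ σ' h h'
      have h1 := D.V_ab ((hkV σ).1 h) ((hkV σ').1 h')
      rw [← map_mul, ← map_mul, res_eq_iff] at h1
      exact h1
    · intro σ hσk hσH
      have h1 := Pre.mem_V.1 ((hkV σ).1 hσk)
      rw [← map_mul, ← map_mul, res_eq_iff] at h1
      rw [Pre.fixes_LL]
      refine ⟨hσH, fun y hy => ?_⟩
      have h2 := h1 y (Pre.H_L hy)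
      rw [AlgEquiv.mul_apply, AlgEquiv.mul_apply, hσH y hy] at h2
      exact h2.symm
  · intro 𝔓 h𝔓 hf𝔓 σ hσ
    rw [Pre.fixes_LL]
    refine ⟨hur 𝔓 h𝔓 hf𝔓 σ hσ, ?_⟩
    obtain ⟨𝔔, h1, h2, h3⟩ := inertia_conj (τ := τ) h𝔓 hσ
    have h4 : (f : 𝓞 Qbar) ∉ 𝔔 := by
      rw [h2 (f : 𝓞 Qbar) (f : 𝓞 Qbar)]
      · exact hf𝔓
      · have e : ((f : 𝓞 Qbar) : Qbar) = (f : Qbar) := map_natCast (algebraMap (𝓞 Qbar) Qbar) f
        rw [e, map_natCast]
    have h5 := hur 𝔔 h1 h4 _ h3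
    intro y hy
    have h6 := h5 y hy
    rw [AlgEquiv.mul_apply, AlgEquiv.mul_apply, AlgEquiv.aut_inv, AlgEquiv.symm_apply_eq] at h6
    exact h6

end Pool.Agent.L7h10.RQ
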