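import Pool.Agent.K4H33.SK.Stmt

/-!
# Stark units over real quadratic fields: definitions

`Qbar` is a fixed algebraic closure of `ℚ`, all fields are subfields of `Qbar`, and Galois groups
are described by the automorphisms `GQ` of `Qbar`.
-/

set_option autoImplicit false

namespace Pool.Agent.L7h10.RQ
open NumberField Module IntermediateField
open Pool.Agent.K4H33.SK (Qbar GQ Fixes IsZeta IsTorsionOrder AbelianRoot LimitFormula)
open Pool.Agent.K4H33.SK.Stmt (Sub Ideals nrm Cop prd principal Above IsFrob IsArtin cnt cntAll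
  StarkImQuad PrimesOver)

/-- `M` is a finite abelian extension of `F`. -/
structure IsAbelian (F M : Sub) : Prop where
  le : F ≤ M
  fin : FiniteDimensional ℚ M
  normal : ∀ σ : GQ, Fixes F σ → ∀ x ∈ M, σ x ∈ M
  comm : ∀ σ τ : GQ, Fixes F σ → Fixes F τ → ∀ x ∈ M, σ (τ x) = τ (σ x)

/-- `σ` belongs to the inertia group of the prime `𝔓` of the ring of all algebraic integers. -/
def Inertia (𝔓 : Ideal (𝓞 Qbar)) (σ : GQ) : Prop :=
  ∀ x y : 𝓞 Qbar, (y : Qbar) = σ (x : Qbar) → y - x ∈ 𝔓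

/-- The extension `M/F` is unramified at all primes which do not divide `𝔪`. -/
def Unramified (F M : Sub) [NumberField F] (𝔪 : Ideals F) : Prop :=
  ∀ 𝔓 : Ideal (𝓞 Qbar), 𝔓.IsPrime → (∀ 𝔭 : Ideals F, Above F 𝔭 𝔓 → Cop F 𝔭 𝔪) →
    ∀ σ : GQ, Fixes F σ → Inertia 𝔓 σ → Fixes M σ

/-- The field `M` is unramified over `ℚ` at all primes which do not divide `f`. -/
def UnramifiedQ (M : Sub) (f : ℕ) : Prop :=
  ∀ 𝔓 : Ideal (𝓞 Qbar), 𝔓.IsPrime → (f : 𝓞 Qbar) ∉ 𝔓 → ∀ σ : GQ, Inertia 𝔓 σ → Fixes M σ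

/-- **Stark's theorem** (the rank one abelian Stark conjecture over imaginary quadratic fields):
let `k` be an imaginary quadratic field, `L/k` a finite abelian extension which is unramified
outside an ideal `𝔪` different from `0` and `1`, and let `W` be the number of roots of unity of
`L`.  Then there is a Stark unit for `L/k` and the set of the primes dividing `𝔪` and the complex
place. -/
def StarkTheorem (ι : Qbar →+* ℂ) : Prop :=
  ∀ (k L : Sub) [NumberField k] (𝔪 : Ideals k) (art : Ideals k → GQ) (W : ℕ),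
    finrank ℚ k = 2 → (∃ x ∈ k, (ι x).im ≠ 0) → IsAbelian k L → Unramified k L 𝔪 →
    𝔪 ≠ ⊥ → 𝔪 ≠ ⊤ → IsArtin k L 𝔪 art → IsTorsionOrder L W → StarkImQuad ι k L 𝔪 art W

/-- **The Stark–Tate conjecture** for an abelian extension `H` of a real quadratic field `F`, real
above the real place of `F` given by `ι`, and the set of places of `F` consisting of the two real
places and the primes dividing `𝔣`.  Here `σ` runs through the automorphisms fixing `F`, and `Z σ`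
is the (continuation of the) partial zeta function of the class of `σ` in `Gal(H/F)`. -/
def StarkReal (ι : Qbar →+* ℂ) (F H : Sub) [NumberField F] (𝔣 : Ideals F)
    (art : Ideals F → GQ) : Prop :=
  ∃ (Z : GQ → ℂ → ℂ) (ε : Qbar), ε ∈ H ∧ IsIntegral ℤ ε ∧ IsIntegral ℤ ε⁻¹ ∧
    (∀ σ : GQ, Fixes F σ → IsZeta (cnt F H 𝔣 art σ) (Z σ) ∧ (deriv (Z σ) 0).im = 0 ∧
      ι (σ ε) = Complex.exp (-2 * deriv (Z σ) 0)) ∧
    (∀ w : Qbar →+* ℂ, (∃ x ∈ F, w x ≠ ι x) → ‖w ε‖ = 1) ∧ AbelianRoot F 2 ε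

/-! ### Internal data -/

/-- The Galois theoretic situation: `F` is real quadratic, `k` imaginary quadratic, `H/F` is
abelian, real for `ι` but not totally real, `L` is normal over `ℚ`, and abelian over `F` and over
`k`; `ρ` is the complex conjugation given by `ι`. -/
structure Data (ι : Qbar →+* ℂ) (F H k L : Sub) (ρ τ z : GQ) : Prop where
  conj : ∀ x, ι (ρ x) = (starRingEnd ℂ) (ι x)
  quadF : finrank ℚ F = 2
  quadk : finrank ℚ k = 2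
  F_H : F ≤ H
  H_L : H ≤ L
  k_L : k ≤ L
  finL : FiniteDimensional ℚ L
  normL : ∀ g : GQ, ∀ x ∈ L, g x ∈ L
  ρ_H : Fixes H ρ
  ρ_k : ¬ Fixes k ρ
  τ_k : Fixes k τ
  τ_F : ¬ Fixes F τ
  abF : ∀ σ σ' : GQ, Fixes F σ → Fixes F σ' → ∀ x ∈ L, σ (σ' x) = σ' (σ x)
  abk : ∀ σ σ' : GQ, Fixes k σ → Fixes k σ' → ∀ x ∈ L, σ (σ' x) = σ' (σ x)
  z_def : z = ρ * (τ⁻¹ * ρ * τ)
  z_H : ¬ Fixes H z
  A_H : ∀ σ : GQ, Fixes k σ → Fixes H σ → Fixes L σ

/-! ### Parts -/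

/-- Construction of the imaginary quadratic field `k`. -/
def S_DATA : Prop :=
  ∀ (ι : Qbar →+* ℂ) (F H : Sub) [NumberField F], finrank ℚ F = 2 → IsAbelian F H →
    (∀ x ∈ H, (ι x).im = 0) → (∃ x ∈ H, ∃ w : Qbar →+* ℂ, (w x).im ≠ 0) →
    ∀ (f : ℕ) (ζ : Qbar), 2 ≤ f → IsPrimitiveRoot ζ f →
    (∀ x ∈ H, (∀ w : Qbar →+* ℂ, (w x).im = 0) → x ∈ ℚ⟮ζ⟯) → UnramifiedQ H f →
    ∃ (k L : Sub) (ρ τ z : GQ), Data ι F H k L ρ τ z ∧ UnramifiedQ L f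

/-- Existence of Artin symbols. -/
def S_ART : Prop :=
  ∀ (F M : Sub) [NumberField F] (𝔪 : Ideals F), IsAbelian F M → 𝔪 ≠ ⊤ →
    ∃ art : Ideals F → GQ, IsArtin F M 𝔪 art

/-- Uniqueness of Artin symbols. -/
def S_UNI : Prop :=
  ∀ (F M : Sub) [NumberField F] (𝔪 𝔪' : Ideals F), Unramified F M 𝔪 → 𝔪 ≠ ⊤ → 𝔪' ≠ ⊤ →
    (∀ 𝔟 : Ideals F, Cop F 𝔟 𝔪' → Cop F 𝔟 𝔪) →
    ∀ art art' : Ideals F → GQ, IsArtin F M 𝔪 art → IsArtin F M 𝔪' art' →
    ∀ 𝔟 : Ideals F, Cop F 𝔟 𝔪' → ∀ x ∈ M, art 𝔟 x = art' 𝔟 x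

/-- Primes of a quadratic field `E` and Frobenius elements: for a rational prime `ℓ` not dividing
`f` there is an automorphism `g` (a Frobenius element), such that for the extensions `M/E` below
either `g` fixes `E` and there are two primes of `E` above `ℓ`, of norm `ℓ`, with Artin symbols `g`
and `τ g τ⁻¹`, or `g` does not fix `E` and there is only one, of norm `ℓ²`, with Artin symbol
`g²`. -/
def S_LOC : Prop :=
  ∀ (f ℓ : ℕ), ℓ.Prime → ¬ ℓ ∣ f → 2 ≤ f → ∃ g : GQ, ∀ (E M : Sub) [NumberField E] (τ : GQ)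
    (art : Ideals E → GQ), finrank ℚ E = 2 → ¬ Fixes E τ → E ≤ M → FiniteDimensional ℚ M →
    UnramifiedQ M f → IsArtin E M (principal E f) art →
    (Fixes E g ∧ ∃ P P' : Ideals E, P.IsPrime ∧ P'.IsPrime ∧ P ≠ P' ∧ nrm E P = ℓ ∧
        nrm E P' = ℓ ∧ (∀ x ∈ M, art P x = g x) ∧ (∀ x ∈ M, art P' x = (τ * g * τ⁻¹) x) ∧
        ∀ Q : Ideals E, Q.IsPrime → (ℓ : 𝓞 E) ∈ Q → Q = P ∨ Q = P') ∨
    (¬ Fixes E g ∧ ∃ P : Ideals E, P.IsPrime ∧ nrm E P = ℓ ^ 2 ∧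
        (∀ x ∈ M, art P x = (g * g) x) ∧ ∀ Q : Ideals E, Q.IsPrime → (ℓ : 𝓞 E) ∈ Q → Q = P)

/-- The even part: the partial zeta functions of a totally real field `M`, which contains `F` and
is contained in a cyclotomic field, have a double zero at `0`. -/
def S_EVEN : Prop :=
  ∀ (F M : Sub) [NumberField F] (f : ℕ) (ζ : Qbar) (art : Ideals F → GQ), 2 ≤ f →
    IsPrimitiveRoot ζ f → finrank ℚ F = 2 → F ≤ M → M ≤ ℚ⟮ζ⟯ →
    (∀ x ∈ M, ∀ w : Qbar →+* ℂ, (w x).im = 0) → IsArtin F ℚ⟮ζ⟯ (principal F f) art →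
    ∀ σ : GQ, Fixes F σ →
      ∃ Z : ℂ → ℂ, IsZeta (cnt F M (principal F f) art σ) Z ∧ Z 0 = 0 ∧ deriv Z 0 = 0

/-- The odd part: comparison of the partial zeta functions of `H/F` and of `L/k`. -/
def S_ODD : Prop :=
  ∀ (ι : Qbar →+* ℂ) (F H k L : Sub) (ρ τ z : GQ) [NumberField F] [NumberField k] (f : ℕ)
    (artF : Ideals F → GQ) (artk : Ideals k → GQ), Data ι F H k L ρ τ z → 2 ≤ f →
    UnramifiedQ L f → IsArtin F H (principal F f) artF → IsArtin k L (principal k f) artk →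
    (∀ σ : GQ, Fixes F σ → Fixes k σ → ∀ n : ℕ,
      (cnt F H (principal F f) artF σ n : ℤ) - cnt F H (principal F f) artF (z * σ) n =
      (cnt k L (principal k f) artk σ n : ℤ) - cnt k L (principal k f) artk (z * σ) n) ∧
    (∀ σ : GQ, ¬ Fixes F σ → Fixes k σ → ∀ n : ℕ,
      cnt k L (principal k f) artk σ n = cnt k L (principal k f) artk (z * σ) n)

/-- The Stark–Tate conjecture, together with the vanishing of the partial zeta functions. -/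
def StarkReal0 (ι : Qbar →+* ℂ) (F H : Sub) [NumberField F] (𝔣 : Ideals F)
    (art : Ideals F → GQ) : Prop :=
  ∃ (Z : GQ → ℂ → ℂ) (ε : Qbar), ε ∈ H ∧ IsIntegral ℤ ε ∧ IsIntegral ℤ ε⁻¹ ∧
    (∀ σ : GQ, Fixes F σ → IsZeta (cnt F H 𝔣 art σ) (Z σ) ∧ Z σ 0 = 0 ∧ (deriv (Z σ) 0).im = 0 ∧
      ι (σ ε) = Complex.exp (-2 * deriv (Z σ) 0)) ∧
    (∀ w : Qbar →+* ℂ, (∃ x ∈ F, w x ≠ ι x) → ‖w ε‖ = 1) ∧ AbelianRoot F 2 ε

/-- Enlarging the set of places (as `starkCubic_mul`, `starkCubic_modulus` in `SK/Final.lean`). -/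
def S_ADD : Prop :=
  ∀ (ι : Qbar →+* ℂ) (F H : Sub) [NumberField F] (𝔪 𝔣 : Ideals F) (art : Ideals F → GQ),
    F ≤ H → IsArtin F H 𝔪 art → StarkReal0 ι F H 𝔪 art → 𝔣 ≠ ⊥ →
    (∀ P : Ideals F, P.IsPrime → 𝔪 ≤ P → 𝔣 ≤ P) → StarkReal0 ι F H 𝔣 art

/-- The unit: from a Stark unit for `L/k` to one for `H/F`. -/
def S_UNIT : Prop :=
  ∀ (ι : Qbar →+* ℂ) (F H k L : Sub) (ρ τ z : GQ) (W : ℕ) (C : GQ → ℕ → ℕ) (Z : GQ → ℂ → ℂ)
    (ε : Qbar), Data ι F H k L ρ τ z → 0 < W → ε ∈ L → ε ≠ 0 → LimitFormula ι k W C Z ε →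
    (∀ σ : GQ, Fixes k σ → IsIntegral ℤ (σ ε / ε)) → AbelianRoot k W ε →
    (∀ σ : GQ, ¬ Fixes F σ → Fixes k σ → deriv (Z σ) 0 = deriv (Z (z * σ)) 0) →
    (∀ σ σ' : GQ, Fixes k σ → Fixes k σ' → (∀ x ∈ L, σ x = σ' x) →
      deriv (Z σ) 0 = deriv (Z σ') 0) →
    ∃ η : Qbar, η ∈ H ∧ η ≠ 0 ∧ IsIntegral ℤ η ∧ IsIntegral ℤ η⁻¹ ∧
      (∀ σ : GQ, Fixes F σ → Fixes k σ →
        (deriv (Z σ) 0 - deriv (Z (z * σ)) 0).im = 0 ∧
        ι (σ η) = Complex.exp (-(deriv (Z σ) 0 - deriv (Z (z * σ)) 0))) ∧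
      (∀ w : Qbar →+* ℂ, (∃ x ∈ F, w x ≠ ι x) → ‖w η‖ = 1) ∧ AbelianRoot F 2 η

end Pool.Agent.L7h10.RQ
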