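import Pool.Agent.L7h10.RQ.Loc
import Pool.Agent.L7h10.RQ.DataB

/-!
# The even part
-/

set_option autoImplicit false
set_option linter.all false

namespace Pool.Agent.L7h10.RQ
open NumberField Module IntermediateField IsDedekindDomain
open Pool.Agent.K4H33.SK (Qbar GQ Fixes IsZeta IsTorsionOrder AbelianRoot LimitFormula fixes_iff
  mem_of_fixed Fixes.mul Fixes.inv Fixes.mono Fixes.one Fixes.conj Fixes.conj' quad_normal quad
  exists_lift exists_conj fixes_sup agree_iff agree_sup comm_adjoin normal_mem fixes_adjoin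
  isCoprime_prime_iff coprime_norm QQ qq pp qq_eq_iff pp_surj aut_eq aut_conj ind ind_unit ind_not
  zq zq_diff zq_hasSum zq_zero theta theta_neg cnt_sup mem_of_roots cnt_congr qq_apply)
open Pool.Agent.K4H33.SK.Stmt (Sub Ideals nrm Cop prd principal Above IsFrob IsArtin cnt cntAll
  StarkImQuad PrimesOver)

/-! ### sums over divisors -/

section div

variable (X : ℕ → ℤ)

/-- the divisor sum -/
def Rr (n : ℕ) : ℤ := ∑ d ∈ n.divisors, X d

lemma Rr_one (h : X 1 = 1) : Rr X 1 = 1 := by simp [Rr, h]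

lemma Rr_rec {ℓ : ℕ} (hℓ : ℓ.Prime) (hX : ∀ d, X (ℓ * d) = X ℓ * X d) {n : ℕ} (hn0 : n ≠ 0)
    (hn : ℓ ∣ n) : Rr X n = Rr X (n / ℓ) + X ℓ * Rr X (n / ℓ) -
      if ℓ ∣ n / ℓ then X ℓ * Rr X (n / ℓ / ℓ) else 0 := by
  classical
  -- the sum over the divisors divisible by `ℓ`
  have h1 : ∀ m : ℕ, m ≠ 0 → ∑ d ∈ (ℓ * m).divisors with ℓ ∣ d, X d = X ℓ * Rr X m := by
    intro m hm
    rw [Rr, Finset.mul_sum]
    symm
    refine Finset.sum_bij (fun d _ => ℓ * d) ?_ ?_ ?_ ?_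
    · intro d hd
      rw [Nat.mem_divisors] at hd
      rw [Finset.mem_filter, Nat.mem_divisors]
      exact ⟨⟨Nat.mul_dvd_mul_left ℓ hd.1, mul_ne_zero hℓ.ne_zero hm⟩, dvd_mul_right _ _⟩
    · intro a _ b _ h
      exact Nat.eq_of_mul_eq_mul_left hℓ.pos h
    · intro d hd
      rw [Finset.mem_filter, Nat.mem_divisors] at hd
      obtain ⟨e, rfl⟩ := hd.2
      refine ⟨e, ?_, rfl⟩
      rw [Nat.mem_divisors]
      exact ⟨Nat.dvd_of_mul_dvd_mul_left hℓ.pos hd.1.1, hm⟩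
    · intro d _
      exact (hX d).symm
  -- the sum over the divisors prime to `ℓ`
  have h2 : ∀ m : ℕ, m ≠ 0 → ∑ d ∈ (ℓ * m).divisors with ¬ ℓ ∣ d, X d =
      ∑ d ∈ m.divisors with ¬ ℓ ∣ d, X d := by
    intro m hm
    refine Finset.sum_congr ?_ fun _ _ => rfl
    ext d
    rw [Finset.mem_filter, Finset.mem_filter, Nat.mem_divisors, Nat.mem_divisors]
    constructor
    · rintro ⟨⟨h3, -⟩, h4⟩
      refine ⟨⟨?_, hm⟩, h4⟩
      exact ((Nat.Prime.coprime_iff_not_dvd hℓ).2 h4).symm.dvd_of_dvd_mul_left h3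
    · rintro ⟨⟨h3, -⟩, h4⟩
      exact ⟨⟨h3.mul_left ℓ, mul_ne_zero hℓ.ne_zero hm⟩, h4⟩
  have h3 : ∀ m : ℕ, Rr X m = ∑ d ∈ m.divisors with ℓ ∣ d, X d +
      ∑ d ∈ m.divisors with ¬ ℓ ∣ d, X d := fun m =>
    (Finset.sum_filter_add_sum_filter_not _ _ _).symm
  obtain ⟨m, rfl⟩ := hn
  have hm0 : m ≠ 0 := by
    rintro rfl
    exact hn0 (mul_zero _)
  rw [Nat.mul_div_cancel_left _ hℓ.pos, h3 (ℓ * m), h1 m hm0, h2 m hm0]
  have h4 := h3 m
  split_ifs with h
  · obtain ⟨r, rfl⟩ := h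
    have hr0 : r ≠ 0 := by
      rintro rfl
      exact hm0 (mul_zero _)
    rw [Nat.mul_div_cancel_left _ hℓ.pos]
    rw [h1 r hr0] at h4
    linarith
  · have h5 : ∑ d ∈ m.divisors with ℓ ∣ d, X d = 0 := by
      apply Finset.sum_eq_zero
      intro d hd
      rw [Finset.mem_filter, Nat.mem_divisors] at hd
      exact absurd (hd.2.trans hd.1.1) h
    rw [h5] at h4
    linarith

end div

/-! ### the cyclotomic field -/

lemma unramified_cyc {f : ℕ} {ζ : Qbar} (hf : 2 ≤ f) (hζ : IsPrimitiveRoot ζ f) :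
    UnramifiedQ ℚ⟮ζ⟯ f := by
  intro 𝔓 h𝔓 hf𝔓 σ hσ
  haveI : NeZero f := ⟨by omega⟩
  apply fixes_adjoin
  by_contra hne
  apply hf𝔓
  have hint : IsIntegral ℤ ζ := hζ.isIntegral (by omega)
  let w : 𝓞 Qbar := ⟨ζ, hint⟩
  have hw : w ^ f = 1 := RingOfIntegers.ext hζ.pow_eq_one
  have h1 := inertia_iff.1 hσ w
  refine mem_of_roots (by omega) (y := σ • w) (z := w) ?_ hw ?_ h1
  · rw [← smul_pow', hw, smul_one]
  · intro h
    exact hne (congrArg (fun t : 𝓞 Qbar => (t : Qbar)) h)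

lemma frob_zeta {f ℓ : ℕ} {ζ : Qbar} (hf : 2 ≤ f) (hζ : IsPrimitiveRoot ζ f) (hℓ : ℓ.Prime)
    (hℓf : ¬ ℓ ∣ f) {𝔓 : Ideal (𝓞 Qbar)} {g : GQ} (h𝔓 : 𝔓.IsPrime) (hl : (ℓ : 𝓞 Qbar) ∈ 𝔓)
    (hg : ∀ x : 𝓞 Qbar, g • x - x ^ ℓ ∈ 𝔓) : g ζ = ζ ^ ℓ := by
  by_contra hne
  have hint : IsIntegral ℤ ζ := hζ.isIntegral (by omega)
  let w : 𝓞 Qbar := ⟨ζ, hint⟩
  have hw : w ^ f = 1 := RingOfIntegers.ext hζ.pow_eq_one
  have h2 : (f : 𝓞 Qbar) ∈ 𝔓 := by
    refine mem_of_roots (by omega) (y := g • w) (z := w ^ ℓ) ?_ ?_ ?_ (hg w)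
    · rw [← smul_pow', hw, smul_one]
    · rw [← pow_mul, mul_comm, pow_mul, hw, one_pow]
    · intro h
      exact hne (congrArg (fun t : 𝓞 Qbar => (t : Qbar)) h)
  apply h𝔓.ne_top
  rw [Ideal.eq_top_iff_one]
  have h3 : IsCoprime (ℓ : ℤ) (f : ℤ) :=
    Nat.isCoprime_iff_coprime.2 ((Nat.Prime.coprime_iff_not_dvd hℓ).2 hℓf)
  obtain ⟨u, v, huv⟩ := h3
  have h4 : (u : 𝓞 Qbar) * (ℓ : 𝓞 Qbar) + (v : 𝓞 Qbar) * (f : 𝓞 Qbar) = 1 := by
    exact_mod_cast congrArg (Int.cast : ℤ → 𝓞 Qbar) huv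
  rw [← h4]
  exact 𝔓.add_mem (𝔓.mul_mem_left _ hl) (𝔓.mul_mem_left _ h2)

lemma artin_restrict {F M M' : Sub} [NumberField F] {𝔪 : Ideals F} {art : Ideals F → GQ}
    (h : IsArtin F M' 𝔪 art) (hM : M ≤ M') : IsArtin F M 𝔪 art :=
  ⟨h.fix, fun 𝔟 𝔠 h1 h2 x hx => h.mul 𝔟 𝔠 h1 h2 x (hM hx),
    fun 𝔭 h1 h2 𝔓 h3 x y hx hxy => h.frob 𝔭 h1 h2 𝔓 h3 x y (hM hx) hxy⟩

section main

variable {F M : Sub} {f : ℕ} [NeZero f] {ζ : Qbar} (hζ : IsPrimitiveRoot ζ f)

/-- the character of `F` on the Galois group of `M` -/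
noncomputable def YF (M F : Sub) : Subgroup (QQ hζ M) := F.fixingSubgroup.map (qq hζ M)

lemma mem_YF (hFM : F ≤ M) (hM : M ≤ ℚ⟮ζ⟯) {g : GQ} : qq hζ M g ∈ YF hζ M F ↔ Fixes F g := by
  constructor
  · rintro ⟨g', hg', h⟩
    have h1 := (qq_eq_iff hζ hM).1 h
    intro x hx
    rw [← h1 x (hFM hx)]
    exact fixes_iff.2 hg' x hx
  · intro h
    exact ⟨g, fixes_iff.1 h, rfl⟩

open Classical in
/-- the quadratic character -/
noncomputable def chi (M F : Sub) (x : QQ hζ M) : ℤ := if x ∈ YF hζ M F then 1 else -1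

/-- surjectivity: every class is the class of an automorphism -/
lemma qq_surj (x : QQ hζ M) : ∃ g : GQ, qq hζ M g = x := by
  obtain ⟨u, rfl⟩ := pp_surj hζ x
  -- an automorphism raising `ζ` to the power `u`
  have h1 : IsPrimitiveRoot (ζ ^ (u : ZMod f).val) f := by
    exact hζ.pow_of_coprime _ (ZMod.val_coe_unit_coprime u)
  have h2 : minpoly ℚ ζ = minpoly ℚ (ζ ^ (u : ZMod f).val) := by
    have hpos : 0 < f := Nat.pos_of_ne_zero (NeZero.ne f)
    rw [← Polynomial.cyclotomic_eq_minpoly_rat hζ hpos,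
      ← Polynomial.cyclotomic_eq_minpoly_rat h1 hpos]
  have h3 : IsConjRoot ℚ ζ (ζ ^ (u : ZMod f).val) := h2
  obtain ⟨g, hg⟩ := isConjRoot_iff_exists_algEquiv.1 h3.symm
  refine ⟨g, ?_⟩
  rw [qq_apply]
  congr 1
  exact aut_eq hζ (ZMod.natCast_zmod_val _) hg

lemma chi_mul (hF : finrank ℚ F = 2) (hFM : F ≤ M) (hM : M ≤ ℚ⟮ζ⟯) (x y : QQ hζ M) :
    chi hζ M F (x * y) = chi hζ M F x * chi hζ M F y := by
  classical
  obtain ⟨g, rfl⟩ := qq_surj hζ x
  obtain ⟨h, rfl⟩ := qq_surj hζ y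
  have key : ∀ s : GQ, chi hζ M F (qq hζ M s) = if Fixes F s then 1 else -1 := by
    intro s
    unfold chi
    by_cases hs : Fixes F s
    · rw [if_pos ((mem_YF hζ hFM hM).2 hs), if_pos hs]
    · rw [if_neg (fun h' => hs ((mem_YF hζ hFM hM).1 h')), if_neg hs]
  have hgh : qq hζ M g * qq hζ M h = qq hζ M (g * h) := (map_mul _ _ _).symm
  rw [hgh, key, key, key]
  by_cases h1 : Fixes F g
  · by_cases h2 : Fixes F h
    · rw [if_pos h1, if_pos h2, if_pos (h1.mul h2)]; ring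
    · rw [if_pos h1, if_neg h2, if_neg]
      · ring
      · intro h3
        apply h2
        have := h1.inv.mul h3
        rwa [inv_mul_cancel_left] at this
  · by_cases h2 : Fixes F h
    · rw [if_neg h1, if_pos h2, if_neg]
      · ring
      · intro h3
        apply h1
        have := h3.mul h2.inv
        rwa [mul_inv_cancel_right] at this
    · rw [if_neg h1, if_neg h2, if_pos (quad hF h1 h2)]; ring

open Classical in
/-- the character as an arithmetic function -/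
noncomputable def XX (M F : Sub) (n : ℕ) : ℤ :=
  if h : n.Coprime f then chi hζ M F (pp hζ M (ZMod.unitOfCoprime n h)) else 0

lemma XX_of {n : ℕ} (h : n.Coprime f) :
    XX hζ M F n = chi hζ M F (pp hζ M (ZMod.unitOfCoprime n h)) := by
  unfold XX
  rw [dif_pos h]

lemma XX_not {n : ℕ} (h : ¬ n.Coprime f) : XX hζ M F n = 0 := by
  unfold XX
  rw [dif_neg h]

lemma XX_one (hFM : F ≤ M) (hM : M ≤ ℚ⟮ζ⟯) : XX hζ M F 1 = 1 := by
  rw [XX_of hζ (Nat.coprime_one_left f)]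
  have h1 : ZMod.unitOfCoprime 1 (Nat.coprime_one_left f) = 1 := by
    ext
    rw [ZMod.coe_unitOfCoprime, Nat.cast_one, Units.val_one]
  rw [h1, map_one]
  unfold chi
  rw [if_pos (YF hζ M F).one_mem]

lemma XX_mul (hF : finrank ℚ F = 2) (hFM : F ≤ M) (hM : M ≤ ℚ⟮ζ⟯) (a b : ℕ) :
    XX hζ M F (a * b) = XX hζ M F a * XX hζ M F b := by
  by_cases ha : a.Coprime f
  · by_cases hb : b.Coprime f
    · have hab : (a * b).Coprime f := Nat.Coprime.mul_left ha hb
      rw [XX_of hζ ha, XX_of hζ hb, XX_of hζ hab, ← chi_mul hζ hF hFM hM, ← map_mul]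
      congr 2
      ext
      rw [ZMod.coe_unitOfCoprime, Units.val_mul, ZMod.coe_unitOfCoprime, ZMod.coe_unitOfCoprime,
        Nat.cast_mul]
    · rw [XX_not hζ hb, mul_zero, XX_not hζ]
      intro h
      exact hb (Nat.Coprime.coprime_mul_left h)
  · rw [XX_not hζ ha, zero_mul, XX_not hζ]
    intro h
    exact ha (Nat.Coprime.coprime_mul_right h)

/-- the sum over the classes -/
lemma sum_ind_chi (x : QQ hζ M) [Fintype (QQ hζ M)] (hF : finrank ℚ F = 2) (hFM : F ≤ M)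
    (hM : M ≤ ℚ⟮ζ⟯) (d e : ℕ) :
    ∑ y : QQ hζ M, ((chi hζ M F y : ℤ) : ℂ) * (ind (pp hζ M) y (d : ZMod f) *
      ind (pp hζ M) (x * y⁻¹) (e : ZMod f)) =
    ind (pp hζ M) x ((e * d : ℕ) : ZMod f) * (XX hζ M F d : ℂ) := by
  classical
  by_cases hd : d.Coprime f
  · have hu : ((ZMod.unitOfCoprime d hd : (ZMod f)ˣ) : ZMod f) = d := ZMod.coe_unitOfCoprime d hd
    set u := ZMod.unitOfCoprime d hd with hudef
    rw [Finset.sum_eq_single (pp hζ M u)]
    · rw [← hu, ind_unit, if_pos rfl, one_mul, XX_of hζ hd, ← hudef, mul_comm]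
      congr 1
      by_cases he : e.Coprime f
      · have hv : ((ZMod.unitOfCoprime e he : (ZMod f)ˣ) : ZMod f) = e :=
          ZMod.coe_unitOfCoprime e he
        set v := ZMod.unitOfCoprime e he with hvdef
        have h2 : ((e * d : ℕ) : ZMod f) = ((v * u : (ZMod f)ˣ) : ZMod f) := by
          rw [Nat.cast_mul, ← hu, ← hv, Units.val_mul]
        rw [h2, ← hv, ind_unit, ind_unit, map_mul]
        simp only [← eq_mul_inv_iff_mul_eq]
      · rw [ind_not, ind_not]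
        · rw [ZMod.isUnit_iff_coprime]
          intro h
          exact he (Nat.Coprime.coprime_mul_right h)
        · rwa [ZMod.isUnit_iff_coprime]
    · intro y _ hy
      rw [← hu, ind_unit, if_neg (fun h => hy h.symm), zero_mul, mul_zero]
    · intro h
      exact absurd (Finset.mem_univ _) h
  · rw [XX_not hζ hd, Int.cast_zero, mul_zero]
    apply Finset.sum_eq_zero
    intro y _
    rw [ind_not, zero_mul, mul_zero]
    rwa [ZMod.isUnit_iff_coprime]

end main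

/-! ### the number of ideals of `F` -/

lemma card_eq {F M : Sub} [NumberField F] {f : ℕ} [NeZero f] {ζ : Qbar}
    (hζ : IsPrimitiveRoot ζ f) (hf : 2 ≤ f) (hF : finrank ℚ F = 2) (hFM : F ≤ M)
    (hM : M ≤ ℚ⟮ζ⟯) {art : Ideals F → GQ} (hart : IsArtin F ℚ⟮ζ⟯ (principal F f) art) :
    ∀ n : ℕ, n.Coprime f → (cnt F F (principal F f) art 1 n : ℤ) = Rr (XX hζ M F) n := by
  classical
  obtain ⟨τ, hτ⟩ := exists_not_fixes hF
  have hur := unramified_cyc hf hζ
  have hartF : IsArtin F F (principal F f) art := artin_restrict hart (hFM.trans hM)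
  intro n
  induction n using Nat.strong_induction_on with
  | _ n ih =>
    intro hn
    rcases Nat.lt_or_ge n 2 with hn2 | hn2
    · have hn0 : n ≠ 0 := by
        rintro rfl
        rw [Nat.coprime_zero_left] at hn
        omega
      have hn1 : n = 1 := by omega
      subst hn1
      rw [cnt_at_one hartF, if_pos (Fixes.one F), Rr_one _ (XX_one hζ hFM hM)]
      rfl
    · set ℓ := n.minFac with hℓdef
      have hℓ : ℓ.Prime := Nat.minFac_prime (by omega)
      have hℓn : ℓ ∣ n := Nat.minFac_dvd n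
      have hm : n / ℓ < n := Nat.div_lt_self (by omega) hℓ.one_lt
      have hm' : n / ℓ / ℓ < n := lt_of_le_of_lt (Nat.div_le_self _ _) hm
      have hcℓ : ℓ.Coprime f := Nat.Coprime.coprime_dvd_left hℓn hn
      have hℓf : ¬ ℓ ∣ f := (Nat.Prime.coprime_iff_not_dvd hℓ).1 hcℓ
      have hcm : (n / ℓ).Coprime f := Nat.Coprime.coprime_dvd_left (Nat.div_dvd_of_dvd hℓn) hn
      obtain ⟨𝔓, g, h𝔓, hl, hg⟩ := exists_frob_rat hℓ
      have hgζ := frob_zeta hf hζ hℓ hℓf h𝔓.isPrime hl hg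
      have hloc := loc_main hℓ hℓf h𝔓 hl hg F F τ art hF hτ le_rfl inferInstance
        (fun 𝔓 h1 h2 σ h3 => (hur 𝔓 h1 h2 σ h3).mono (hFM.trans hM)) hartF
      have hX := Rr_rec (XX hζ M F) hℓ (fun d => XX_mul hζ hF hFM hM ℓ d)
        (show n ≠ 0 by omega) hℓn
      have hXℓ : XX hζ M F ℓ = if Fixes F g then 1 else -1 := by
        rw [XX_of hζ hcℓ]
        unfold chi
        have h1 : pp hζ M (ZMod.unitOfCoprime ℓ hcℓ) = qq hζ M g := by
          rw [qq_apply, aut_eq hζ (ZMod.coe_unitOfCoprime ℓ hcℓ).symm hgζ]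
        rw [h1]
        simp only [mem_YF hζ hFM hM]
      have h1F : ∀ (s : GQ) (m : ℕ), Fixes F s → cnt F F (principal F f) art s m =
          cnt F F (principal F f) art 1 m := by
        intro s m hs
        exact cnt_congr F F _ art (fun x hx => by rw [hs x hx]; rfl) m
      have hmF : ∀ σ : GQ, Fixes F σ → ∀ x ∈ F, σ x ∈ F := by
        intro σ hσ x hx
        rw [hσ x hx]
        exact hx
      have hgg : Fixes F (g * g) := by
        by_cases h : Fixes F g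
        · exact h.mul h
        · exact quad hF h h
      have hr := rec_g hartF hℓ hℓf hmF (g := g) (y := τ * g * τ⁻¹)
        (fun h => h.conj (quad_normal hF) τ) hgg hloc (Fixes.one F) hℓn
      by_cases hgF : Fixes F g
      · have hy : Fixes F (τ * g * τ⁻¹) := hgF.conj (quad_normal hF) τ
        have e := hr.1 hgF
        rw [h1F _ _ (hgF.inv.mul (Fixes.one F)), h1F _ _ (hy.inv.mul (Fixes.one F)),
          h1F _ _ (hgF.inv.mul (hy.inv.mul (Fixes.one F)))] at e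
        rw [hXℓ, if_pos hgF] at hX
        rw [e, hX, ih _ hm hcm]
        split_ifs with h
        · rw [ih _ hm' (Nat.Coprime.coprime_dvd_left (Nat.div_dvd_of_dvd h) hcm)]
          ring
        · ring
      · have e := hr.2 hgF
        rw [h1F _ _ (hgg.inv.mul (Fixes.one F))] at e
        rw [hXℓ, if_neg hgF] at hX
        rw [e, hX]
        split_ifs with h
        · rw [ih _ hm' (Nat.Coprime.coprime_dvd_left (Nat.div_dvd_of_dvd h) hcm)]
          ring
        · ring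

theorem s_even : S_EVEN := by
  classical
  intro F M _ f ζ art hf hζ hF hFM hM hreal hart σ hσ
  haveI : NeZero f := ⟨by omega⟩
  haveI : Fintype (QQ hζ M) := Fintype.ofFinite _
  have hart' := hart.down
  have hζM : ζ ∈ ℚ⟮ζ⟯ := mem_adjoin_simple_self ℚ ζ
  -- complex conjugation is trivial on `M`
  have hone : pp hζ M (-1) = 1 := by
    obtain ⟨ι⟩ : Nonempty (Qbar →+* ℂ) := by
      haveI : Algebra.IsAlgebraic ℚ Qbar := inferInstance
      exact ⟨(IsAlgClosed.lift (R := ℚ) (S := Qbar) (M := ℂ)).toRingHom⟩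
    obtain ⟨c, hc⟩ := exists_conj ι
    have h1 : qq hζ M c = pp hζ M (-1) := by rw [qq_apply, aut_conj hζ hc]
    rw [← h1, ← map_one (qq hζ M), qq_eq_iff hζ hM]
    intro x hx
    apply ι.injective
    rw [hc]
    exact Complex.conj_eq_iff_im.2 (hreal x hx ι)
  have htheta : ∀ x, theta (pp hζ M) x = 0 := by
    intro x
    have h1 := theta_neg (pp hζ M) hf x
    have h2 : (pp hζ M) (-1) * x = x := by
      rw [hone]; exact one_mul x
    rw [h2] at h1
    linarith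
  have hz0 : ∀ x, zq (pp hζ M) x 0 = 0 := by
    intro x
    rw [zq_zero _ hf, htheta, Rat.cast_zero]
  set x₀ : QQ hζ M := qq hζ M σ with hx₀
  refine ⟨fun s => ∑ y : QQ hζ M, ((chi hζ M F y : ℤ) : ℂ) *
    (zq (pp hζ M) y s * zq (pp hζ M) (x₀ * y⁻¹) s), ⟨?_, ?_⟩, ?_, ?_⟩
  · refine DifferentiableOn.fun_sum fun y _ => ?_
    refine DifferentiableOn.const_mul ?_ _
    exact DifferentiableOn.mul (fun s hs => (zq_diff _ _ hs).differentiableWithinAt)
      (fun s hs => (zq_diff _ _ hs).differentiableWithinAt)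
  · intro s hs
    have h3 : ∀ y ∈ (Finset.univ : Finset (QQ hζ M)), LSeriesHasSum
        (((chi hζ M F y : ℤ) : ℂ) • (LSeries.convolution
        (fun n : ℕ => ind (pp hζ M) y (n : ZMod f))
        (fun n : ℕ => ind (pp hζ M) (x₀ * y⁻¹) (n : ZMod f)))) s
        (((chi hζ M F y : ℤ) : ℂ) * (zq (pp hζ M) y s * zq (pp hζ M) (x₀ * y⁻¹) s)) :=
      fun y _ => ((zq_hasSum _ _ hs).convolution (zq_hasSum _ _ hs)).smul _
    have h4 := LSeriesHasSum.sum h3
    refine (LSeriesHasSum_congr s _ (fun {n} hn0 => ?_)).1 h4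
    rw [Finset.sum_apply]
    have h5 : (cnt F M (principal F f) art σ n : ℂ) =
        ind (pp hζ M) x₀ n * cnt F F (principal F f) art σ n := by
      have h6 := cnt_sup hart' hf hζ hζM le_rfl hM F σ n
      rw [sup_eq_right.2 hFM] at h6
      exact h6
    rw [h5]
    have h1F : cnt F F (principal F f) art σ n = cnt F F (principal F f) art 1 n :=
      cnt_congr F F _ art (fun x hx => by rw [hσ x hx]; rfl) n
    rw [h1F]
    have h7 : ∀ y : QQ hζ M, (((chi hζ M F y : ℤ) : ℂ) • (LSeries.convolution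
        (fun n : ℕ => ind (pp hζ M) y (n : ZMod f))
        (fun n : ℕ => ind (pp hζ M) (x₀ * y⁻¹) (n : ZMod f)))) n =
        ∑ i ∈ n.divisorsAntidiagonal, ((chi hζ M F y : ℤ) : ℂ) *
          (ind (pp hζ M) y (i.1 : ZMod f) * ind (pp hζ M) (x₀ * y⁻¹) (i.2 : ZMod f)) := by
      intro y
      rw [Pi.smul_apply, LSeries.convolution_def, smul_eq_mul, Finset.mul_sum]
    rw [Finset.sum_congr rfl fun y _ => h7 y, Finset.sum_comm,
      Finset.sum_congr rfl fun i _ => sum_ind_chi hζ x₀ hF hFM hM i.1 i.2]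
    have h8 : ∀ i ∈ n.divisorsAntidiagonal,
        ind (pp hζ M) x₀ ((i.2 * i.1 : ℕ) : ZMod f) * (XX hζ M F i.1 : ℂ) =
        ind (pp hζ M) x₀ (n : ZMod f) * (XX hζ M F i.1 : ℂ) := by
      intro i hi
      rw [Nat.mem_divisorsAntidiagonal] at hi
      rw [mul_comm i.2, hi.1]
    rw [Finset.sum_congr rfl h8, ← Finset.mul_sum]
    by_cases hn : n.Coprime f
    · congr 1
      have h9 := card_eq hζ hf hF hFM hM hart n hn
      have h10 : ((cnt F F (principal F f) art 1 n : ℤ) : ℂ) = ((Rr (XX hζ M F) n : ℤ) : ℂ) := by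
        rw [h9]
      rw [Int.cast_natCast] at h10
      rw [h10, Rr, Int.cast_sum]
      rw [Nat.sum_divisorsAntidiagonal (f := fun d _ => (XX hζ M F d : ℂ))]
    · rw [ind_not, zero_mul, zero_mul]
      rwa [ZMod.isUnit_iff_coprime]
  · apply Finset.sum_eq_zero
    intro y _
    rw [hz0, zero_mul, mul_zero]
  · have d3 : ∀ y : QQ hζ M, DifferentiableAt ℂ (zq (pp hζ M) y) 0 := fun y => zq_diff _ _ (by simp)
    have h5 : HasDerivAt (fun s => ∑ y : QQ hζ M, ((chi hζ M F y : ℤ) : ℂ) *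
        (zq (pp hζ M) y s * zq (pp hζ M) (x₀ * y⁻¹) s)) (∑ y : QQ hζ M,
        ((chi hζ M F y : ℤ) : ℂ) * (deriv (zq (pp hζ M) y) 0 * zq (pp hζ M) (x₀ * y⁻¹) 0 +
          zq (pp hζ M) y 0 * deriv (zq (pp hζ M) (x₀ * y⁻¹)) 0)) 0 := by
      refine HasDerivAt.fun_sum fun y _ => ?_
      exact ((d3 y).hasDerivAt.mul (d3 (x₀ * y⁻¹)).hasDerivAt).const_mul _
    rw [h5.deriv]
    apply Finset.sum_eq_zero
    intro y _
    rw [hz0, hz0, mul_zero, zero_mul, add_zero, mul_zero]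

end Pool.Agent.L7h10.RQ
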