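import Pool.Agent.L7h10.RQ.Grp
import Pool.Agent.N890.FG.CNJ
import Pool.Agent.R416.STG6a
import Pool.Agent.K4H40.ST.Count

/-!
# Frobenius elements, inertia groups, transitivity
-/

set_option autoImplicit false
set_option linter.all false

namespace Pool.Agent.L7h10.RQ
open NumberField Module IntermediateField IsDedekindDomain
open Pool.Agent.K4H33.SK (Qbar GQ Fixes IsZeta IsTorsionOrder AbelianRoot LimitFormula fixes_iff
  mem_of_fixed Fixes.mul Fixes.inv Fixes.mono Fixes.conj Fixes.conj' quad_normal quad exists_lift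
  exists_conj fixes_sup agree_iff agree_sup comm_adjoin normal_mem fixes_adjoin)
open Pool.Agent.K4H33.SK.Stmt (Sub Ideals nrm Cop prd principal Above IsFrob IsArtin cnt cntAll
  StarkImQuad PrimesOver)

/-- the action of `GQ` on the ring of all algebraic integers -/
lemma coe_smul (σ : GQ) (x : 𝓞 Qbar) : ((σ • x : 𝓞 Qbar) : Qbar) = σ (x : Qbar) := rfl

lemma inertia_iff {𝔓 : Ideal (𝓞 Qbar)} {σ : GQ} :
    Inertia 𝔓 σ ↔ ∀ x : 𝓞 Qbar, σ • x - x ∈ 𝔓 := by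
  constructor
  · intro h x
    exact h x _ rfl
  · intro h x y hxy
    have : y = σ • x := RingOfIntegers.ext hxy
    rw [this]
    exact h x

lemma isFrob_iff {M : Sub} {𝔓 : Ideal (𝓞 Qbar)} {n : ℕ} {σ : GQ} :
    IsFrob M 𝔓 n σ ↔ ∀ x : 𝓞 Qbar, (x : Qbar) ∈ M → σ • x - x ^ n ∈ 𝔓 := by
  constructor
  · intro h x hx
    exact h x _ hx rfl
  · intro h x y hx hxy
    have : y = σ • x := RingOfIntegers.ext hxy
    show y - x ^ n ∈ 𝔓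
    rw [this]
    exact h x hx

section field

variable (F : Sub)

lemma acl : IsAlgClosure F Qbar := by
  haveI : Algebra.IsAlgebraic F Qbar := Algebra.IsAlgebraic.tower_top (K := ℚ) F
  exact ⟨inferInstance, inferInstance⟩

/-- elements of the Galois group over `F` -/
noncomputable def toGQ (g : Qbar ≃ₐ[F] Qbar) : GQ := g.restrictScalars ℚ

variable {F}

lemma toGQ_fixes (g : Qbar ≃ₐ[F] Qbar) : Fixes F (toGQ F g) := fun x hx => g.commutes ⟨x, hx⟩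

lemma toGQ_smul (g : Qbar ≃ₐ[F] Qbar) (x : 𝓞 Qbar) : toGQ F g • x = g • x := rfl

lemma mem_comap_iff {F : Sub} (𝔓 : Ideal (𝓞 Qbar)) (x : 𝓞 F) :
    x ∈ 𝔓.comap (algebraMap (𝓞 F) (𝓞 Qbar)) ↔ algebraMap (𝓞 F) (𝓞 Qbar) x ∈ 𝔓 := Iff.rfl

lemma coe_algMap {F : Sub} (x : 𝓞 F) :
    ((algebraMap (𝓞 F) (𝓞 Qbar) x : 𝓞 Qbar) : Qbar) = ((x : F) : Qbar) := rfl

lemma exists_int {F : Sub} {x : 𝓞 Qbar} (hx : (x : Qbar) ∈ F) :
    ∃ y : 𝓞 F, algebraMap (𝓞 F) (𝓞 Qbar) y = x := by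
  have h1 : IsIntegral ℤ (x : Qbar) := x.isIntegral_coe
  have h2 : IsIntegral ℤ (⟨(x : Qbar), hx⟩ : F) :=
    (isIntegral_algebraMap_iff (algebraMap F Qbar).injective).1 h1
  exact ⟨⟨⟨(x : Qbar), hx⟩, h2⟩, RingOfIntegers.ext rfl⟩

end field

/-! ### primes -/

lemma isMaximal_of {𝔓 : Ideal (𝓞 Qbar)} (h : 𝔓.IsPrime) {n : ℕ} (hn : n ≠ 0)
    (hn𝔓 : (n : 𝓞 Qbar) ∈ 𝔓) : 𝔓.IsMaximal := by
  haveI : (𝔓.comap (algebraMap ℤ (𝓞 Qbar))).IsMaximal := by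
    have hp : (𝔓.comap (algebraMap ℤ (𝓞 Qbar))).IsPrime := Ideal.comap_isPrime _ _
    refine hp.isMaximal ?_
    intro h0
    have h1 : (n : ℤ) ∈ 𝔓.comap (algebraMap ℤ (𝓞 Qbar)) := by
      rw [Ideal.mem_comap, map_natCast]
      exact hn𝔓
    rw [h0, Ideal.mem_bot] at h1
    exact hn (by exact_mod_cast h1)
  haveI : Algebra.IsIntegral ℤ (𝓞 Qbar) := ⟨fun x => RingOfIntegers.isIntegral x⟩
  exact Ideal.isMaximal_of_isIntegral_of_isMaximal_comap (R := ℤ) 𝔓 inferInstance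

lemma norm_mem {F : Sub} [NumberField F] {P : Ideals F} {𝔓 : Ideal (𝓞 Qbar)}
    (h : Above F P 𝔓) : ((nrm F P : ℕ) : 𝓞 Qbar) ∈ 𝔓 := by
  have h1 : ((Ideal.absNorm P : ℕ) : 𝓞 F) ∈ P := Ideal.absNorm_mem P
  have h2 := h.2
  have h3 : algebraMap (𝓞 F) (𝓞 Qbar) ((Ideal.absNorm P : ℕ) : 𝓞 F) ∈ 𝔓 := by
    rw [Ideal.mem_of_liesOver 𝔓 P] at h1
    exact h1
  rw [map_natCast] at h3
  exact h3

lemma above_isMaximal {F : Sub} [NumberField F] {P : Ideals F} (hP : P ≠ ⊥)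
    {𝔓 : Ideal (𝓞 Qbar)} (h : Above F P 𝔓) : 𝔓.IsMaximal := by
  refine isMaximal_of h.1 (n := Ideal.absNorm P) ?_ (norm_mem h)
  rw [Ne, Ideal.absNorm_eq_zero_iff]
  exact hP

lemma exists_above {F : Sub} [NumberField F] (P : Ideals F) (hP : P.IsPrime) :
    ∃ 𝔓 : Ideal (𝓞 Qbar), Above F P 𝔓 := by
  haveI : Algebra.IsAlgebraic F Qbar := Algebra.IsAlgebraic.tower_top (K := ℚ) F
  haveI : Algebra.IsIntegral (𝓞 F) (𝓞 Qbar) := inferInstance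
  obtain ⟨⟨𝔓, h𝔓, hl⟩⟩ := Ideal.nonempty_primesOver (S := 𝓞 Qbar) P
  exact ⟨𝔓, h𝔓, hl⟩

/-- **Existence of Frobenius elements.** -/
lemma exists_frob {F : Sub} [NumberField F] {P : Ideals F} (hP : P.IsPrime) (hP0 : P ≠ ⊥)
    {𝔓 : Ideal (𝓞 Qbar)} (h : Above F P 𝔓) :
    ∃ g : GQ, Fixes F g ∧ ∀ x : 𝓞 Qbar, g • x - x ^ nrm F P ∈ 𝔓 := by
  haveI := acl F
  haveI : 𝔓.IsMaximal := above_isMaximal hP0 h
  obtain ⟨σ, hσ⟩ := Pool.Agent.K4H40.ST.Frob.task_frob (F := F) (Ω := Qbar)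
    (⟨P, hP, hP0⟩ : HeightOneSpectrum (𝓞 F)) 𝔓 h.2.over.symm
  exact ⟨toGQ F σ, toGQ_fixes σ, fun x => hσ x⟩

/-- **Transitivity.** -/
lemma exists_trans {F : Sub} [NumberField F] {P : Ideals F} {𝔓 𝔔 : Ideal (𝓞 Qbar)}
    (h : Above F P 𝔓) (h' : Above F P 𝔔) :
    ∃ g : GQ, Fixes F g ∧ ∀ x : 𝓞 Qbar, x ∈ 𝔓 ↔ g • x ∈ 𝔔 := by
  haveI := acl F
  haveI := h.1
  haveI := h'.1
  obtain ⟨g, hg⟩ := Pool.Agent.K4H40.ST.Count.exists_conj (F := F) (Ω := Qbar) 𝔓 𝔔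
    (h.2.over.symm.trans h'.2.over)
  exact ⟨toGQ F g, toGQ_fixes g, hg⟩

/-- **Lifting to the inertia group.** -/
lemma exists_inertia {M : Sub} [NumberField M] {𝔓 : Ideal (𝓞 Qbar)} (h𝔓 : 𝔓.IsMaximal) {σ : GQ}
    (hσ : ∀ x : 𝓞 Qbar, (x : Qbar) ∈ M → σ • x - x ∈ 𝔓) :
    ∃ i : GQ, Inertia 𝔓 i ∧ ∀ x ∈ M, i x = σ x := by
  haveI := acl M
  haveI := Pool.Agent.K4H40.ST.Frob.isGal (F := M) (Ω := Qbar)
  haveI := Pool.Agent.K4H40.ST.Frob.inst_comm (F := M) (Ω := Qbar)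
  haveI := Pool.Agent.K4H40.ST.Frob.inst_inv (F := M) (Ω := Qbar)
  letI : TopologicalSpace (𝓞 Qbar) := ⊥
  haveI : DiscreteTopology (𝓞 Qbar) := ⟨rfl⟩
  haveI : ContinuousSMul (Gal(Qbar/M)) (𝓞 Qbar) := by
    rw [continuousSMul_iff_stabilizer_isOpen]
    intro x
    have := stabilizer_isOpen_of_isIntegral (K := M) (L := Qbar) (x : Qbar)
    convert this using 1
    ext σ
    simp only [SetLike.mem_coe, MulAction.mem_stabilizer_iff]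
    constructor
    · intro h
      exact congrArg (fun y : 𝓞 Qbar => (y : Qbar)) h
    · intro h
      exact RingOfIntegers.ext h
  letI : Field (𝓞 Qbar ⧸ 𝔓) := Ideal.Quotient.field 𝔓
  set π : 𝓞 Qbar →+* 𝓞 Qbar ⧸ 𝔓 := Ideal.Quotient.mk 𝔓 with hπdef
  have hπ : Function.Surjective π := Ideal.Quotient.mk_surjective
  set π' : 𝓞 Qbar →+* 𝓞 Qbar ⧸ 𝔓 := π.comp (MulSemiringAction.toRingHom GQ (𝓞 Qbar) σ) with hπ'def
  have hπ'a : ∀ x, π' x = π (σ • x) := fun x => rfl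
  have hπ' : Function.Surjective π' := by
    intro y
    obtain ⟨x, rfl⟩ := hπ y
    refine ⟨σ⁻¹ • x, ?_⟩
    rw [hπ'a, smul_inv_smul]
  obtain ⟨g, hg⟩ := Pool.Agent.N890.FG.CNJ.conj_abs (A := 𝓞 M) (B := 𝓞 Qbar)
    (G := Gal(Qbar/M)) π π' hπ hπ' (RingEquiv.refl _) (fun a => by
      rw [hπ'a]
      symm
      exact Ideal.Quotient.eq.2 (hσ _ (a : M).2))
  refine ⟨σ * toGQ M g, ?_, ?_⟩
  · rw [inertia_iff]
    intro x
    rw [← Ideal.Quotient.eq]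
    have h1 := hg x
    rw [hπ'a] at h1
    rw [mul_smul]
    exact h1
  · intro x hx
    rw [AlgEquiv.mul_apply, toGQ_fixes g x hx]

/-! ### Frobenius over the rationals -/

lemma int_of (x : 𝓞 Qbar) : (x : Qbar) ∈ integralClosure ℤ Qbar := x.isIntegral_coe

/-- the inclusion -/
noncomputable def toInt : 𝓞 Qbar →+* integralClosure ℤ Qbar where
  toFun x := ⟨x, int_of x⟩
  map_one' := rfl
  map_mul' _ _ := rfl
  map_zero' := rfl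
  map_add' _ _ := rfl

lemma exists_frob_rat {ℓ : ℕ} (hℓ : ℓ.Prime) : ∃ (𝔓 : Ideal (𝓞 Qbar)) (g : GQ), 𝔓.IsMaximal ∧
    (ℓ : 𝓞 Qbar) ∈ 𝔓 ∧ ∀ x : 𝓞 Qbar, g • x - x ^ ℓ ∈ 𝔓 := by
  haveI := Fact.mk hℓ
  obtain ⟨k, _, _, π, σ, h⟩ := Pool.Agent.R416.STG6.frob_lift ℓ
  set π' : 𝓞 Qbar →+* k := π.comp toInt with hπ'
  have h1 : (ℓ : 𝓞 Qbar) ∈ RingHom.ker π' := by
    rw [RingHom.mem_ker, map_natCast]
    exact CharP.cast_eq_zero k ℓ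
  refine ⟨RingHom.ker π', σ, ?_, h1, ?_⟩
  · exact isMaximal_of (RingHom.ker_isPrime π') hℓ.ne_zero h1
  · intro x
    rw [RingHom.mem_ker, map_sub, map_pow, sub_eq_zero]
    exact h (toInt x) (toInt (σ • x)) rfl

end Pool.Agent.L7h10.RQ
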