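import Pool.Agent.L7h10.RQ.Defs

/-!
# Group theory of the situation `Data`
-/

set_option autoImplicit false
set_option linter.all false

namespace Pool.Agent.L7h10.RQ
open NumberField Module IntermediateField
open Pool.Agent.K4H33.SK (Qbar GQ Fixes IsZeta IsTorsionOrder AbelianRoot LimitFormula fixes_iff
  mem_of_fixed Fixes.mul Fixes.inv Fixes.mono Fixes.conj Fixes.conj' quad_normal quad exists_lift
  exists_conj fixes_sup agree_iff)
open Pool.Agent.K4H33.SK.Stmt (Sub Ideals nrm Cop prd principal Above IsFrob IsArtin cnt cntAll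
  StarkImQuad PrimesOver)

lemma normal_of_map {L : Sub} (h : ∀ g : GQ, ∀ x ∈ L, g x ∈ L) : Normal ℚ L := by
  have h1 : @Normal ℚ L _ _ (IntermediateField.algebra' L) := by
    rw [IntermediateField.normal_iff_forall_map_le']
    intro σ x hx
    rw [IntermediateField.mem_map] at hx
    obtain ⟨y, hy, rfl⟩ := hx
    exact h σ y hy
  have e : (IntermediateField.algebra' L : Algebra ℚ L) = DivisionRing.toRatAlgebra :=
    Subsingleton.elim _ _
  exact e ▸ h1

/-- The restriction to a normal field. -/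
noncomputable def res (L : Sub) [Normal ℚ L] : GQ →* (L ≃ₐ[ℚ] L) := AlgEquiv.restrictNormalHom L

lemma res_apply (L : Sub) [Normal ℚ L] (g : GQ) (x : L) : ((res L g x : L) : Qbar) = g x :=
  AlgEquiv.restrictNormal_commutes g L x

lemma res_eq_iff {L : Sub} [Normal ℚ L] {g g' : GQ} :
    res L g = res L g' ↔ ∀ x ∈ L, g x = g' x := by
  constructor
  · intro h x hx
    have h1 := res_apply L g ⟨x, hx⟩
    rw [h, res_apply] at h1
    exact h1.symm
  · intro h
    ext x
    rw [res_apply, res_apply]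
    exact h x x.2

lemma res_eq_one_iff {L : Sub} [Normal ℚ L] {g : GQ} : res L g = 1 ↔ Fixes L g := by
  rw [← map_one (res L), res_eq_iff]
  rfl

namespace Data

variable {ι : Qbar →+* ℂ} {F H k L : Sub} {ρ τ z : GQ}

lemma rr (D : Data ι F H k L ρ τ z) : ρ * ρ = 1 := by
  ext x
  apply ι.injective
  rw [AlgEquiv.mul_apply, D.conj, D.conj, Complex.conj_conj, AlgEquiv.one_apply]

lemma F_L (D : Data ι F H k L ρ τ z) : F ≤ L := D.F_H.trans D.H_L

lemma normal (D : Data ι F H k L ρ τ z) : Normal ℚ L := normal_of_map D.normL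

lemma ρ_F (D : Data ι F H k L ρ τ z) : Fixes F ρ := D.ρ_H.mono D.F_H

lemma c_F (D : Data ι F H k L ρ τ z) : Fixes F (τ⁻¹ * ρ * τ) :=
  D.ρ_F.conj' (quad_normal D.quadF) τ

lemma c_k (D : Data ι F H k L ρ τ z) : ¬ Fixes k (τ⁻¹ * ρ * τ) := by
  intro h
  apply D.ρ_k
  have h1 := h.conj (quad_normal D.quadk) τ
  have h2 : τ * (τ⁻¹ * ρ * τ) * τ⁻¹ = ρ := by group
  rwa [h2] at h1

lemma z_F (D : Data ι F H k L ρ τ z) : Fixes F z := by
  rw [D.z_def]
  exact D.ρ_F.mul D.c_F

lemma z_k (D : Data ι F H k L ρ τ z) : Fixes k z := by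
  rw [D.z_def]
  exact quad D.quadk D.ρ_k D.c_k

lemma commF (D : Data ι F H k L ρ τ z) [Normal ℚ L] {σ σ' : GQ} (h : Fixes F σ)
    (h' : Fixes F σ') : res L σ * res L σ' = res L σ' * res L σ := by
  rw [← map_mul, ← map_mul, res_eq_iff]
  exact D.abF σ σ' h h'

lemma commk (D : Data ι F H k L ρ τ z) [Normal ℚ L] {σ σ' : GQ} (h : Fixes k σ)
    (h' : Fixes k σ') : res L σ * res L σ' = res L σ' * res L σ := by
  rw [← map_mul, ← map_mul, res_eq_iff]
  exact D.abk σ σ' h h'

lemma resrr (D : Data ι F H k L ρ τ z) [Normal ℚ L] : res L ρ * res L ρ = 1 := by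
  rw [← map_mul, D.rr, map_one]

lemma res_c (D : Data ι F H k L ρ τ z) [Normal ℚ L] :
    res L (τ⁻¹ * ρ * τ) * res L (τ⁻¹ * ρ * τ) = 1 := by
  rw [← map_mul]
  have : τ⁻¹ * ρ * τ * (τ⁻¹ * ρ * τ) = τ⁻¹ * (ρ * ρ) * τ := by group
  rw [this, D.rr]
  simp

lemma zz (D : Data ι F H k L ρ τ z) [Normal ℚ L] : res L z * res L z = 1 := by
  have h1 : res L z = res L ρ * res L (τ⁻¹ * ρ * τ) := by rw [← map_mul, ← D.z_def]
  have h2 := D.commF D.ρ_F D.c_F
  rw [h1]
  calc res L ρ * res L (τ⁻¹ * ρ * τ) * (res L ρ * res L (τ⁻¹ * ρ * τ))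
      = res L ρ * (res L (τ⁻¹ * ρ * τ) * res L ρ) * res L (τ⁻¹ * ρ * τ) := by group
    _ = (res L ρ * res L ρ) * (res L (τ⁻¹ * ρ * τ) * res L (τ⁻¹ * ρ * τ)) := by
        rw [← h2]; group
    _ = 1 := by rw [D.resrr, D.res_c, one_mul]

lemma z_comm (D : Data ι F H k L ρ τ z) [Normal ℚ L] (g : GQ) :
    res L g * res L z = res L z * res L g := by
  by_cases hg : Fixes k g
  · exact D.commk hg D.z_k
  · have h1 : Fixes k (g * ρ) := quad D.quadk hg D.ρ_k
    have h2 := D.commk h1 D.z_k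
    have h3 := D.commF D.ρ_F D.z_F
    have h4 : res L g = res L (g * ρ) * res L ρ := by
      rw [← map_mul, mul_assoc, D.rr, mul_one]
    rw [h4, mul_assoc, h3, ← mul_assoc, h2, mul_assoc]

/-- `τ ρ τ⁻¹ = z ρ` on `L`. -/
lemma conj_ρ (D : Data ι F H k L ρ τ z) [Normal ℚ L] :
    res L τ * res L ρ * (res L τ)⁻¹ = res L z * res L ρ := by
  have h1 : res L z = res L ρ * ((res L τ)⁻¹ * res L ρ * res L τ) := by
    rw [← map_inv, ← map_mul, ← map_mul, ← map_mul, ← D.z_def]
  have h2 : (res L τ)⁻¹ * res L ρ * res L τ = res L ρ * res L z := by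
    rw [h1, ← mul_assoc (res L ρ), D.resrr, one_mul]
  have h3 : res L ρ * res L τ = res L τ * res L ρ * res L z := by
    calc res L ρ * res L τ = res L τ * ((res L τ)⁻¹ * res L ρ * res L τ) := by group
      _ = res L τ * res L ρ * res L z := by rw [h2, mul_assoc]
  have h5 : res L τ * res L ρ * res L z = res L z * (res L τ * res L ρ) := by
    rw [← map_mul, D.z_comm]
  have h4 : res L τ * res L ρ = res L z * (res L ρ * res L τ) := by
    rw [h3, h5, ← mul_assoc, D.zz, one_mul]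
  rw [h4]
  group

/-- conjugation by `τ` of elements fixing `F` but not `k` -/
lemma conj_τ (D : Data ι F H k L ρ τ z) [Normal ℚ L] {g : GQ} (hF : Fixes F g)
    (hk : ¬ Fixes k g) : res L (τ * g * τ⁻¹) = res L (z * g) := by
  have h1 : Fixes k (g * ρ) := quad D.quadk hk D.ρ_k
  have h2 := D.commk D.τ_k h1
  have h4 : res L g = res L (g * ρ) * res L ρ := by
    rw [← map_mul, mul_assoc, D.rr, mul_one]
  have h5 := D.conj_ρ
  rw [map_mul, map_mul, map_mul, map_inv, h4]
  calc res L τ * (res L (g * ρ) * res L ρ) * (res L τ)⁻¹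
      = (res L τ * res L (g * ρ)) * res L ρ * (res L τ)⁻¹ := by group
    _ = res L (g * ρ) * (res L τ * res L ρ * (res L τ)⁻¹) := by rw [h2]; group
    _ = res L (g * ρ) * (res L z * res L ρ) := by rw [h5]
    _ = (res L (g * ρ) * res L z) * res L ρ := by group
    _ = res L z * (res L (g * ρ) * res L ρ) := by rw [D.z_comm]; group

/-- conjugation by `τ` of elements fixing `F` and `k` -/
lemma conj_τ' (D : Data ι F H k L ρ τ z) [Normal ℚ L] {g : GQ} (hk : Fixes k g) :
    res L (τ * g * τ⁻¹) = res L g := by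
  have h2 := D.commk D.τ_k hk
  rw [map_mul, map_mul, h2, map_inv]
  group

/-- conjugation by `ρ` of elements fixing `F` -/
lemma conj_ρ' (D : Data ι F H k L ρ τ z) [Normal ℚ L] {g : GQ} (hF : Fixes F g) :
    res L (ρ * g * ρ⁻¹) = res L g := by
  have h2 := D.commF D.ρ_F hF
  rw [map_mul, map_mul, h2, map_inv]
  group

/-- conjugation by `ρ` of elements fixing `k` but not `F` -/
lemma conj_ρ'' (D : Data ι F H k L ρ τ z) [Normal ℚ L] {g : GQ} (hk : Fixes k g)
    (hF : ¬ Fixes F g) : res L (ρ * g * ρ⁻¹) = res L (z * g) := by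
  have hτ : Fixes F (g * τ⁻¹) := by
    refine quad D.quadF hF ?_
    intro h
    exact D.τ_F (by simpa using h.inv)
  have h2 := D.commF D.ρ_F hτ
  have h4 : res L g = res L (g * τ⁻¹) * res L τ := by
    rw [← map_mul]; congr 1; group
  have h5 := D.conj_ρ
  have h6 : res L ρ * res L τ * (res L ρ)⁻¹ = res L z * res L τ := by
    have h7 : res L τ * res L ρ = res L z * res L ρ * res L τ := by
      rw [← h5]; group
    have h8 : res L z * (res L τ * res L ρ) = res L ρ * res L τ := by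
      rw [h7, ← mul_assoc, ← mul_assoc, D.zz, one_mul]
    rw [← h8]
    group
  rw [map_mul, map_mul, map_mul, map_inv, h4]
  calc res L ρ * (res L (g * τ⁻¹) * res L τ) * (res L ρ)⁻¹
      = (res L ρ * res L (g * τ⁻¹)) * res L τ * (res L ρ)⁻¹ := by group
    _ = res L (g * τ⁻¹) * (res L ρ * res L τ * (res L ρ)⁻¹) := by rw [h2]; group
    _ = res L (g * τ⁻¹) * (res L z * res L τ) := by rw [h6]
    _ = (res L (g * τ⁻¹) * res L z) * res L τ := by group
    _ = res L z * (res L (g * τ⁻¹) * res L τ) := by rw [D.z_comm]; group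

lemma inv_F {g : GQ} (h : ¬ Fixes F g) : ¬ Fixes F g⁻¹ := fun h' => h (by simpa using h'.inv)

end Data

end Pool.Agent.L7h10.RQ
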