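import Pool.Agent.L7h10.RQ.Art

/-!
# Primes of quadratic fields and Frobenius elements
-/

set_option autoImplicit false
set_option linter.all false

namespace Pool.Agent.L7h10.RQ
open NumberField Module IntermediateField IsDedekindDomain
open Pool.Agent.K4H33.SK (Qbar GQ Fixes IsZeta IsTorsionOrder AbelianRoot LimitFormula fixes_iff
  mem_of_fixed Fixes.mul Fixes.inv Fixes.mono Fixes.one Fixes.conj Fixes.conj' quad_normal quad
  exists_lift exists_conj fixes_sup agree_iff agree_sup comm_adjoin normal_mem fixes_adjoin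
  isCoprime_prime_iff coprime_norm)
open Pool.Agent.K4H33.SK.Stmt (Sub Ideals nrm Cop prd principal Above IsFrob IsArtin cnt cntAll
  StarkImQuad PrimesOver)

/-- transitivity over the rationals -/
lemma trans_rat {ℓ : ℕ} (hℓ : ℓ.Prime) {𝔓 𝔔 : Ideal (𝓞 Qbar)} (h : 𝔓.IsPrime) (h' : 𝔔.IsPrime)
    (hl : (ℓ : 𝓞 Qbar) ∈ 𝔓) (hl' : (ℓ : 𝓞 Qbar) ∈ 𝔔) :
    ∃ g : GQ, ∀ x : 𝓞 Qbar, x ∈ 𝔓 ↔ g • x ∈ 𝔔 := by
  haveI : Algebra.IsInvariant ℤ (𝓞 Qbar) GQ := Pool.Agent.R416.STG6.isInv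
  letI : TopologicalSpace (𝓞 Qbar) := ⊥
  haveI : DiscreteTopology (𝓞 Qbar) := ⟨rfl⟩
  haveI : ContinuousSMul GQ (𝓞 Qbar) := by
    rw [continuousSMul_iff_stabilizer_isOpen]
    intro x
    have h1 := stabilizer_isOpen_of_isIntegral (K := ℚ) (x : Qbar)
    convert h1 using 2
    ext g
    rw [MulAction.mem_stabilizer_iff, MulAction.mem_stabilizer_iff]
    constructor
    · intro h
      exact congrArg (fun z : 𝓞 Qbar => (z : Qbar)) h
    · intro h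
      exact RingOfIntegers.ext h
  have key : ∀ 𝔓 : Ideal (𝓞 Qbar), 𝔓.IsPrime → (ℓ : 𝓞 Qbar) ∈ 𝔓 →
      𝔓.under ℤ = Ideal.span {(ℓ : ℤ)} := by
    intro 𝔓 h𝔓 hl
    have hm : (Ideal.span {(ℓ : ℤ)}).IsMaximal := by
      have hp : (Ideal.span {(ℓ : ℤ)}).IsPrime := by
        rw [Ideal.span_singleton_prime (by exact_mod_cast hℓ.ne_zero)]
        exact Nat.prime_iff_prime_int.1 hℓ
      refine hp.isMaximal ?_
      rw [Ne, Ideal.span_singleton_eq_bot]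
      exact_mod_cast hℓ.ne_zero
    symm
    refine hm.eq_of_le ?_ ?_
    · exact (Ideal.comap_isPrime (algebraMap ℤ (𝓞 Qbar)) 𝔓).ne_top
    · rw [Ideal.span_singleton_le_iff_mem]
      show algebraMap ℤ (𝓞 Qbar) (ℓ : ℤ) ∈ 𝔓
      rw [map_natCast]
      exact hl
  obtain ⟨g, hg⟩ := Algebra.IsInvariant.exists_smul_of_under_eq_of_profinite (A := ℤ)
    (B := 𝓞 Qbar) (G := GQ) 𝔓 𝔔 ((key 𝔓 h hl).trans (key 𝔔 h' hl').symm)
  open scoped Pointwise in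
  refine ⟨g, fun x => ?_⟩
  rw [hg, Ideal.smul_mem_pointwise_smul_iff]

section

variable {E : Sub} [NumberField E] {ℓ : ℕ} {𝔓 : Ideal (𝓞 Qbar)} {g : GQ}

/-- the prime of `E` below `𝔓` -/
noncomputable def below (E : Sub) (𝔓 : Ideal (𝓞 Qbar)) : Ideals E :=
  𝔓.comap (algebraMap (𝓞 E) (𝓞 Qbar))

lemma below_prime (h : 𝔓.IsPrime) : (below E 𝔓).IsPrime := Ideal.comap_isPrime _ _

lemma above_below (h : 𝔓.IsPrime) : Above E (below E 𝔓) 𝔓 := ⟨h, ⟨rfl⟩⟩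

lemma mem_below {x : 𝓞 E} : x ∈ below E 𝔓 ↔ algebraMap (𝓞 E) (𝓞 Qbar) x ∈ 𝔓 := Iff.rfl

lemma below_ne_bot (hℓ : ℓ.Prime) (hl : (ℓ : 𝓞 Qbar) ∈ 𝔓) : below E 𝔓 ≠ ⊥ := by
  intro h
  have h1 : (ℓ : 𝓞 E) ∈ below E 𝔓 := by
    rw [mem_below, map_natCast]
    exact hl
  rw [h, Ideal.mem_bot] at h1
  exact hℓ.ne_zero (by exact_mod_cast h1)

/-- the norm is a power of `ℓ` -/
lemma norm_pow (hℓ : ℓ.Prime) (h : 𝔓.IsPrime) (hl : (ℓ : 𝓞 Qbar) ∈ 𝔓) :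
    ∃ n : ℕ, 0 < n ∧ nrm E (below E 𝔓) = ℓ ^ n := by
  haveI hp := below_prime (E := E) h
  have h0 := below_ne_bot (E := E) hℓ hl
  haveI : (below E 𝔓).IsMaximal := hp.isMaximal h0
  letI := Ideal.Quotient.field (below E 𝔓)
  haveI : Finite (𝓞 E ⧸ below E 𝔓) := Ideal.finiteQuotientOfFreeOfNeBot _ h0
  haveI : Fintype (𝓞 E ⧸ below E 𝔓) := Fintype.ofFinite _
  haveI := Fact.mk hℓ
  haveI : CharP (𝓞 E ⧸ below E 𝔓) ℓ := by
    apply (CharP.charP_iff_prime_eq_zero hℓ).mpr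
    have h1 : (ℓ : 𝓞 E) ∈ below E 𝔓 := by
      rw [mem_below, map_natCast]
      exact hl
    have h2 := Ideal.Quotient.eq_zero_iff_mem.2 h1
    rwa [map_natCast] at h2
  obtain ⟨n, -, hn⟩ := FiniteField.card (𝓞 E ⧸ below E 𝔓) ℓ
  refine ⟨n, n.pos, ?_⟩
  show Ideal.absNorm (below E 𝔓) = _
  rw [Ideal.absNorm_apply, Submodule.cardQuot_apply, ← hn]
  exact Nat.card_eq_fintype_card

/-- a bound for the norm -/
lemma norm_le (h : 𝔓.IsPrime) (hℓ : ℓ.Prime) (hl : (ℓ : 𝓞 Qbar) ∈ 𝔓) {N : ℕ} (hN : 1 < N)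
    (hx : ∀ x : 𝓞 Qbar, (x : Qbar) ∈ E → x - x ^ N ∈ 𝔓) : nrm E (below E 𝔓) ≤ N := by
  classical
  haveI hp := below_prime (E := E) h
  have h0 := below_ne_bot (E := E) hℓ hl
  haveI : (below E 𝔓).IsMaximal := hp.isMaximal h0
  letI := Ideal.Quotient.field (below E 𝔓)
  haveI : Finite (𝓞 E ⧸ below E 𝔓) := Ideal.finiteQuotientOfFreeOfNeBot _ h0
  haveI : Fintype (𝓞 E ⧸ below E 𝔓) := Fintype.ofFinite _
  have h1 : ∀ y : 𝓞 E ⧸ below E 𝔓, y ^ N = y := by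
    intro y
    obtain ⟨x, rfl⟩ := Ideal.Quotient.mk_surjective y
    rw [← map_pow, eq_comm, Ideal.Quotient.eq, mem_below, map_sub, map_pow]
    exact hx _ (x : E).2
  have h2 : nrm E (below E 𝔓) = Fintype.card (𝓞 E ⧸ below E 𝔓) := by
    show Ideal.absNorm (below E 𝔓) = _
    rw [Ideal.absNorm_apply, Submodule.cardQuot_apply]
    exact Nat.card_eq_fintype_card
  rw [h2]
  open Polynomial in
  set p : (𝓞 E ⧸ below E 𝔓)[X] := X ^ N - X with hpdef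
  have hp0 : p ≠ 0 := FiniteField.X_pow_card_sub_X_ne_zero _ hN
  have hdeg : p.natDegree = N := FiniteField.X_pow_card_sub_X_natDegree_eq _ hN
  have h3 : (Finset.univ : Finset (𝓞 E ⧸ below E 𝔓)) ⊆ p.roots.toFinset := by
    intro y _
    rw [Multiset.mem_toFinset, Polynomial.mem_roots hp0, Polynomial.IsRoot.def, hpdef,
      Polynomial.eval_sub, Polynomial.eval_pow, Polynomial.eval_X, h1 y, sub_self]
  calc Fintype.card (𝓞 E ⧸ below E 𝔓) = (Finset.univ : Finset (𝓞 E ⧸ below E 𝔓)).card := rfl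
    _ ≤ p.roots.toFinset.card := Finset.card_le_card h3
    _ ≤ Multiset.card p.roots := Multiset.toFinset_card_le _
    _ ≤ p.natDegree := Polynomial.card_roots' p
    _ = N := hdeg

lemma smul_eq_of_fixes {E : Sub} {g : GQ} (hg : Fixes E g) {x : 𝓞 Qbar} (hx : (x : Qbar) ∈ E) :
    g • x = x := RingOfIntegers.ext (hg _ hx)

/-- if every element of `E` is fixed by the `ℓ`-power map modulo `𝔓`, the norm is `ℓ` -/
lemma norm_eq (hℓ : ℓ.Prime) (h : 𝔓.IsPrime) (hl : (ℓ : 𝓞 Qbar) ∈ 𝔓)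
    (hx : ∀ x : 𝓞 Qbar, (x : Qbar) ∈ E → x - x ^ ℓ ∈ 𝔓) : nrm E (below E 𝔓) = ℓ := by
  obtain ⟨n, hn, hn2⟩ := norm_pow (E := E) hℓ h hl
  have h1 := norm_le (E := E) h hℓ hl hℓ.one_lt hx
  rw [hn2] at h1
  have h2 : n ≤ 1 := by
    have h3 : ℓ ^ n ≤ ℓ ^ 1 := by rwa [pow_one]
    exact (Nat.pow_le_pow_iff_right hℓ.one_lt).1 h3
  have h3 : n = 1 := by omega
  rw [hn2, h3, pow_one]

/-- the stabilizer property of Frobenius elements -/
lemma frob_stab (h : 𝔓.IsPrime) (hℓ : ℓ.Prime) (hg : ∀ x : 𝓞 Qbar, g • x - x ^ ℓ ∈ 𝔓)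
    (x : 𝓞 Qbar) : x ∈ 𝔓 ↔ g • x ∈ 𝔓 := by
  constructor
  · intro hx
    have h1 := 𝔓.add_mem (hg x) (𝔓.pow_mem_of_mem hx ℓ hℓ.pos)
    rwa [sub_add_cancel] at h1
  · intro hx
    have h1 := 𝔓.sub_mem hx (hg x)
    rw [sub_sub_cancel] at h1
    exact h.mem_of_pow_mem _ h1

/-- iterated Frobenius -/
lemma frob_sq (hg : ∀ x : 𝓞 Qbar, g • x - x ^ ℓ ∈ 𝔓) (x : 𝓞 Qbar) :
    (g * g) • x - x ^ (ℓ ^ 2) ∈ 𝔓 := by
  have h1 := hg (g • x)
  have h2 := hg x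
  rw [← Ideal.Quotient.eq] at h1 h2 ⊢
  rw [mul_smul, h1, map_pow, h2, map_pow, map_pow, ← pow_mul, pow_two]

end

/-- Artin symbols are given by Frobenius elements -/
lemma art_eq {E M : Sub} [NumberField E] [NumberField M] {f ℓ : ℕ} {𝔓 : Ideal (𝓞 Qbar)} {b : GQ}
    {art : Ideals E → GQ} (hart : IsArtin E M (principal E f) art) (hu : UnramifiedQ M f)
    (hℓ : ℓ.Prime) (hℓf : ¬ ℓ ∣ f) (h : 𝔓.IsMaximal) (hl : (ℓ : 𝓞 Qbar) ∈ 𝔓) {a : ℕ}
    (hN : nrm E (below E 𝔓) = ℓ ^ a) (hb : ∀ x : 𝓞 Qbar, b • x - x ^ (ℓ ^ a) ∈ 𝔓)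
    (hstab : ∀ x : 𝓞 Qbar, x ∈ 𝔓 ↔ b • x ∈ 𝔓) : ∀ x ∈ M, art (below E 𝔓) x = b x := by
  have hf𝔓 : (f : 𝓞 Qbar) ∉ 𝔓 := by
    intro h1
    apply h.isPrime.ne_top
    rw [Ideal.eq_top_iff_one]
    have h2 : IsCoprime (ℓ : ℤ) (f : ℤ) :=
      Nat.isCoprime_iff_coprime.2 ((Nat.Prime.coprime_iff_not_dvd hℓ).2 hℓf)
    obtain ⟨u, v, huv⟩ := h2
    have h3 : (u : 𝓞 Qbar) * (ℓ : 𝓞 Qbar) + (v : 𝓞 Qbar) * (f : 𝓞 Qbar) = 1 := by
      exact_mod_cast congrArg (Int.cast : ℤ → 𝓞 Qbar) huv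
    rw [← h3]
    exact 𝔓.add_mem (𝔓.mul_mem_left _ hl) (𝔓.mul_mem_left _ h1)
  have hc : Cop E (below E 𝔓) (principal E f) := by
    show IsCoprime (below E 𝔓) (Ideal.span {(f : 𝓞 E)})
    rw [coprime_norm]
    have h1 : Ideal.absNorm (below E 𝔓) = ℓ ^ a := hN
    rw [h1]
    exact Nat.Coprime.pow_left _ ((Nat.Prime.coprime_iff_not_dvd hℓ).2 hℓf)
  have f1 := isFrob_iff.1 (hart.frob _ (below_prime h.isPrime) hc 𝔓 (above_below h.isPrime))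
  refine agree_of h (fun i hi _ => hu 𝔓 h.isPrime hf𝔓 i hi) ?_
  intro x hx
  rw [hstab, smul_inv_smul]
  have h1 := f1 x hx
  rw [hN] at h1
  have h3 := 𝔓.sub_mem h1 (hb x)
  rwa [sub_sub_sub_cancel_right] at h3

theorem loc_main {f ℓ : ℕ} (hℓ : ℓ.Prime) (hℓf : ¬ ℓ ∣ f) {𝔓 : Ideal (𝓞 Qbar)} {g : GQ}
    (h𝔓 : 𝔓.IsMaximal) (hl : (ℓ : 𝓞 Qbar) ∈ 𝔓) (hg : ∀ x : 𝓞 Qbar, g • x - x ^ ℓ ∈ 𝔓)
    (E M : Sub) [NumberField E] (τ : GQ) (art : Ideals E → GQ) (hE : finrank ℚ E = 2)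
    (hτ : ¬ Fixes E τ) (hEM : E ≤ M) (hfin : FiniteDimensional ℚ M) (hu : UnramifiedQ M f)
    (hart : IsArtin E M (principal E f) art) :
    (Fixes E g ∧ ∃ P P' : Ideals E, P.IsPrime ∧ P'.IsPrime ∧ P ≠ P' ∧ nrm E P = ℓ ∧
        nrm E P' = ℓ ∧ (∀ x ∈ M, art P x = g x) ∧ (∀ x ∈ M, art P' x = (τ * g * τ⁻¹) x) ∧
        ∀ Q : Ideals E, Q.IsPrime → (ℓ : 𝓞 E) ∈ Q → Q = P ∨ Q = P') ∨
    (¬ Fixes E g ∧ ∃ P : Ideals E, P.IsPrime ∧ nrm E P = ℓ ^ 2 ∧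
        (∀ x ∈ M, art P x = (g * g) x) ∧
        ∀ Q : Ideals E, Q.IsPrime → (ℓ : 𝓞 E) ∈ Q → Q = P) := by
  haveI := hfin
  haveI : NumberField M := ⟨⟩
  have hp := h𝔓.isPrime
  have hE2 := quad_normal hE
  have hE0 : ∀ (σ : GQ) (x : 𝓞 Qbar), (x : Qbar) ∈ E → ((σ • x : 𝓞 Qbar) : Qbar) ∈ E := by
    intro σ x hx
    rw [coe_smul]
    exact normal_mem hE2 σ hx
  have hf𝔓 : ∀ 𝔓 : Ideal (𝓞 Qbar), 𝔓.IsPrime → (ℓ : 𝓞 Qbar) ∈ 𝔓 → (f : 𝓞 Qbar) ∉ 𝔓 := by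
    intro 𝔓 h𝔓 hl h1
    apply h𝔓.ne_top
    rw [Ideal.eq_top_iff_one]
    have h2 : IsCoprime (ℓ : ℤ) (f : ℤ) :=
      Nat.isCoprime_iff_coprime.2 ((Nat.Prime.coprime_iff_not_dvd hℓ).2 hℓf)
    obtain ⟨u, v, huv⟩ := h2
    have h3 : (u : 𝓞 Qbar) * (ℓ : 𝓞 Qbar) + (v : 𝓞 Qbar) * (f : 𝓞 Qbar) = 1 := by
      exact_mod_cast congrArg (Int.cast : ℤ → 𝓞 Qbar) huv
    rw [← h3]
    exact 𝔓.add_mem (𝔓.mul_mem_left _ hl) (𝔓.mul_mem_left _ h1)
  -- an automorphism which is trivial on `E` modulo `𝔓` is trivial on `E`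
  have htriv : ∀ σ : GQ, (∀ x : 𝓞 Qbar, (x : Qbar) ∈ E → σ • x - x ∈ 𝔓) → Fixes E σ := by
    intro σ hσ
    obtain ⟨i, hi, hi2⟩ := exists_inertia (M := E) h𝔓 hσ
    intro x hx
    rw [← hi2 x hx]
    exact hu 𝔓 hp (hf𝔓 𝔓 hp hl) i hi x (hEM hx)
  by_cases hgE : Fixes E g
  · left
    -- the conjugate prime
    set 𝔔 : Ideal (𝓞 Qbar) := 𝔓.comap (MulSemiringAction.toRingHom GQ (𝓞 Qbar) τ⁻¹) with h𝔔
    have hmem𝔔 : ∀ x : 𝓞 Qbar, x ∈ 𝔔 ↔ τ⁻¹ • x ∈ 𝔓 := fun x => Iff.rfl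
    have hp' : 𝔔.IsPrime := Ideal.comap_isPrime _ _
    have hsn : ∀ (σ : GQ) (n : ℕ), σ • (n : 𝓞 Qbar) = n := by
      intro σ n
      exact map_natCast (MulSemiringAction.toRingHom GQ (𝓞 Qbar) σ) n
    have hl' : (ℓ : 𝓞 Qbar) ∈ 𝔔 := by
      rw [hmem𝔔, hsn]
      exact hl
    have h𝔔m : 𝔔.IsMaximal := isMaximal_of hp' hℓ.ne_zero hl'
    have hg' : ∀ x : 𝓞 Qbar, (τ * g * τ⁻¹) • x - x ^ ℓ ∈ 𝔔 := by
      intro x
      rw [hmem𝔔, smul_sub, smul_pow', ← mul_smul]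
      have e : τ⁻¹ * (τ * g * τ⁻¹) = g * τ⁻¹ := by group
      rw [e, mul_smul]
      exact hg _
    have hgE' : Fixes E (τ * g * τ⁻¹) := hgE.conj hE2 τ
    have hx1 : ∀ x : 𝓞 Qbar, (x : Qbar) ∈ E → x - x ^ ℓ ∈ 𝔓 := by
      intro x hx
      have h1 := hg x
      rwa [smul_eq_of_fixes hgE hx] at h1
    have hx2 : ∀ x : 𝓞 Qbar, (x : Qbar) ∈ E → x - x ^ ℓ ∈ 𝔔 := by
      intro x hx
      have h1 := hg' x
      rwa [smul_eq_of_fixes hgE' hx] at h1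
    have hN1 := norm_eq (E := E) hℓ hp hl hx1
    have hN2 := norm_eq (E := E) hℓ hp' hl' hx2
    refine ⟨hgE, below E 𝔓, below E 𝔔, below_prime hp, below_prime hp', ?_, hN1, hN2, ?_, ?_, ?_⟩
    · intro heq
      apply hτ
      have h1 : Fixes E τ⁻¹ := by
        apply htriv
        intro x hx
        -- `x` is congruent to an integer
        obtain ⟨y, hy⟩ := exists_int hx
        obtain ⟨n, hn⟩ : ∃ n : ℕ, y - (n : 𝓞 E) ∈ below E 𝔓 := by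
          haveI := below_prime (E := E) hp
          have h0 := below_ne_bot (E := E) hℓ hl
          haveI : (below E 𝔓).IsMaximal := this.isMaximal h0
          letI := Ideal.Quotient.field (below E 𝔓)
          haveI : Finite (𝓞 E ⧸ below E 𝔓) := Ideal.finiteQuotientOfFreeOfNeBot _ h0
          haveI : Fintype (𝓞 E ⧸ below E 𝔓) := Fintype.ofFinite _
          haveI := Fact.mk hℓ
          haveI : CharP (𝓞 E ⧸ below E 𝔓) ℓ := by
            apply (CharP.charP_iff_prime_eq_zero hℓ).mpr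
            have h1 : (ℓ : 𝓞 E) ∈ below E 𝔓 := by
              rw [mem_below, map_natCast]
              exact hl
            have h2 := Ideal.Quotient.eq_zero_iff_mem.2 h1
            rwa [map_natCast] at h2
          have hcard : Fintype.card (𝓞 E ⧸ below E 𝔓) = ℓ := by
            rw [← Nat.card_eq_fintype_card]
            have h3 : Ideal.absNorm (below E 𝔓) = ℓ := hN1
            rwa [Ideal.absNorm_apply, Submodule.cardQuot_apply] at h3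
          have hbij : Function.Bijective (ZMod.castHom (dvd_refl ℓ) (𝓞 E ⧸ below E 𝔓)) := by
            rw [Fintype.bijective_iff_injective_and_card]
            exact ⟨RingHom.injective _, by rw [ZMod.card, hcard]⟩
          obtain ⟨a, ha⟩ := hbij.2 (Ideal.Quotient.mk _ y)
          refine ⟨a.val, ?_⟩
          rw [← Ideal.Quotient.eq, ← ha, map_natCast]
          conv_lhs => rw [← ZMod.natCast_zmod_val a]
          rw [map_natCast]
        have h2 : x - (n : 𝓞 Qbar) ∈ 𝔓 := by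
          have h3 := mem_below.1 hn
          rwa [map_sub, map_natCast, hy] at h3
        have h3 : x - (n : 𝓞 Qbar) ∈ 𝔔 := by
          rw [heq] at hn
          have h3 := mem_below.1 hn
          rwa [map_sub, map_natCast, hy] at h3
        rw [hmem𝔔, smul_sub, hsn] at h3
        have h4 := 𝔓.sub_mem h3 h2
        rwa [sub_sub_sub_cancel_right] at h4
      have h2 := h1.inv
      rwa [inv_inv] at h2
    · refine art_eq hart hu hℓ hℓf h𝔓 hl (a := 1) (by rw [pow_one]; exact hN1) ?_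
        (frob_stab hp hℓ hg)
      rw [pow_one]
      exact hg
    · refine art_eq hart hu hℓ hℓf h𝔔m hl' (a := 1) (by rw [pow_one]; exact hN2) ?_
        (frob_stab hp' hℓ hg')
      rw [pow_one]
      exact hg'
    · intro Q hQ hQl
      obtain ⟨ℜ, hℜ⟩ := exists_above Q hQ
      have hlR : (ℓ : 𝓞 Qbar) ∈ ℜ := by
        haveI := hℜ.2
        have h1 := (Ideal.mem_of_liesOver ℜ Q (ℓ : 𝓞 E)).1 hQl
        rwa [map_natCast] at h1
      obtain ⟨h, hh⟩ := trans_rat hℓ hp hℜ.1 hl hlR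
      have hQ' : ∀ x : 𝓞 E, x ∈ Q ↔ algebraMap (𝓞 E) (𝓞 Qbar) x ∈ ℜ := by
        intro x
        have h2 := hℜ.2.over
        conv_lhs => rw [h2]
        rfl
      by_cases hhE : Fixes E h
      · left
        ext x
        rw [mem_below, hQ', hh, smul_eq_of_fixes hhE (x := algebraMap (𝓞 E) (𝓞 Qbar) x) (x : E).2]
      · right
        have h3 : Fixes E (h * τ⁻¹) := quad hE hhE (Data.inv_F hτ)
        ext x
        rw [mem_below, hQ', hmem𝔔, hh, ← mul_smul,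
          smul_eq_of_fixes h3 (x := algebraMap (𝓞 E) (𝓞 Qbar) x) (x : E).2]
  · right
    have hgg : Fixes E (g * g) := quad hE hgE hgE
    have hgg2 := frob_sq hg
    have hx1 : ∀ x : 𝓞 Qbar, (x : Qbar) ∈ E → x - x ^ (ℓ ^ 2) ∈ 𝔓 := by
      intro x hx
      have h1 := hgg2 x
      rwa [smul_eq_of_fixes hgg hx] at h1
    have hstab := frob_stab hp hℓ hg
    have hN : nrm E (below E 𝔓) = ℓ ^ 2 := by
      obtain ⟨n, hn, hn2⟩ := norm_pow (E := E) hℓ hp hl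
      have h1 := norm_le (E := E) hp hℓ hl (Nat.one_lt_pow two_ne_zero hℓ.one_lt) hx1
      rw [hn2] at h1
      have h2 : n ≤ 2 := (Nat.pow_le_pow_iff_right hℓ.one_lt).1 h1
      have h3 : n ≠ 1 := by
        rintro rfl
        rw [pow_one] at hn2
        apply hgE
        apply htriv
        intro x hx
        have h4 : x ^ ℓ - x ∈ 𝔓 := by
          obtain ⟨y, hy⟩ := exists_int hx
          haveI := below_prime (E := E) hp
          have h0 := below_ne_bot (E := E) hℓ hl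
          haveI : (below E 𝔓).IsMaximal := this.isMaximal h0
          letI := Ideal.Quotient.field (below E 𝔓)
          haveI : Finite (𝓞 E ⧸ below E 𝔓) := Ideal.finiteQuotientOfFreeOfNeBot _ h0
          haveI : Fintype (𝓞 E ⧸ below E 𝔓) := Fintype.ofFinite _
          have hcard : Fintype.card (𝓞 E ⧸ below E 𝔓) = ℓ := by
            rw [← Nat.card_eq_fintype_card]
            have h3 : Ideal.absNorm (below E 𝔓) = ℓ := hn2
            rwa [Ideal.absNorm_apply, Submodule.cardQuot_apply] at h3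
          have h5 := FiniteField.pow_card (Ideal.Quotient.mk (below E 𝔓) y)
          rw [hcard, ← map_pow, Ideal.Quotient.eq, mem_below, map_sub, map_pow, hy] at h5
          exact h5
        have h5 := 𝔓.add_mem (hg x) h4
        rwa [sub_add_sub_cancel] at h5
      have h4 : n = 2 := by omega
      rw [hn2, h4]
    refine ⟨hgE, below E 𝔓, below_prime hp, hN, ?_, ?_⟩
    · refine art_eq hart hu hℓ hℓf h𝔓 hl hN hgg2 ?_
      intro x
      rw [mul_smul, ← hstab, ← hstab]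
    · intro Q hQ hQl
      obtain ⟨ℜ, hℜ⟩ := exists_above Q hQ
      have hlR : (ℓ : 𝓞 Qbar) ∈ ℜ := by
        haveI := hℜ.2
        have h1 := (Ideal.mem_of_liesOver ℜ Q (ℓ : 𝓞 E)).1 hQl
        rwa [map_natCast] at h1
      obtain ⟨h, hh⟩ := trans_rat hℓ hp hℜ.1 hl hlR
      have hQ' : ∀ x : 𝓞 E, x ∈ Q ↔ algebraMap (𝓞 E) (𝓞 Qbar) x ∈ ℜ := by
        intro x
        have h2 := hℜ.2.over
        conv_lhs => rw [h2]
        rfl
      by_cases hhE : Fixes E h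
      · ext x
        rw [mem_below, hQ', hh, smul_eq_of_fixes hhE (x := algebraMap (𝓞 E) (𝓞 Qbar) x) (x : E).2]
      · have h3 : Fixes E (h * g⁻¹) := quad hE hhE (Data.inv_F hgE)
        ext x
        have h4 : algebraMap (𝓞 E) (𝓞 Qbar) x ∈ 𝔓 ↔ g⁻¹ • algebraMap (𝓞 E) (𝓞 Qbar) x ∈ 𝔓 := by
          rw [hstab (g⁻¹ • algebraMap (𝓞 E) (𝓞 Qbar) x), smul_inv_smul]
        rw [mem_below, hQ', h4, hh, ← mul_smul,
          smul_eq_of_fixes h3 (x := algebraMap (𝓞 E) (𝓞 Qbar) x) (x : E).2]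

theorem s_loc : S_LOC := by
  intro f ℓ hℓ hℓf hf
  obtain ⟨𝔓, g, h𝔓, hl, hg⟩ := exists_frob_rat hℓ
  exact ⟨g, fun E M _ τ art hE hτ hEM hfin hu hart =>
    loc_main hℓ hℓf h𝔓 hl hg E M τ art hE hτ hEM hfin hu hart⟩

end Pool.Agent.L7h10.RQ
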