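import Pool.Agent.L7h10.RQ.Rec

/-!
# The odd part: comparison of the numbers of ideals of `F` and of `k`
-/

set_option autoImplicit false
set_option linter.all false

namespace Pool.Agent.L7h10.RQ
open NumberField Module IntermediateField
open Pool.Agent.K4H33.SK (Qbar GQ Fixes IsZeta IsTorsionOrder AbelianRoot LimitFormula fixes_iff
  mem_of_fixed Fixes.mul Fixes.inv Fixes.mono Fixes.conj Fixes.conj' quad_normal quad exists_lift
  exists_conj fixes_sup agree_iff conj_root exists_pow cnt_prime coprime_norm isCoprime_prime_iff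
  cnt_congr)
open Pool.Agent.K4H33.SK.Stmt (Sub Ideals nrm Cop prd principal Above IsFrob IsArtin cnt cntAll
  StarkImQuad PrimesOver)

section abs

variable {Γ : Type*} [Group Γ] {z : Γ} {c c1 c2 : Γ → ℤ} {g y σ : Γ}

lemma stepA (hz : ∀ g, g * z = z * g)
    (h : c σ = c1 (g⁻¹ * σ) + c1 (g⁻¹ * σ) - c2 (g⁻¹ * (g⁻¹ * σ)))
    (h' : c (z * σ) = c1 (g⁻¹ * (z * σ)) + c1 (g⁻¹ * (z * σ)) - c2 (g⁻¹ * (g⁻¹ * (z * σ)))) :
    c σ - c (z * σ) = 2 * (c1 (g⁻¹ * σ) - c1 (z * (g⁻¹ * σ))) -
      (c2 (g⁻¹ * (g⁻¹ * σ)) - c2 (z * (g⁻¹ * (g⁻¹ * σ)))) := by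
  have e1 : g⁻¹ * (z * σ) = z * (g⁻¹ * σ) := by rw [← mul_assoc, hz, mul_assoc]
  have e2 : g⁻¹ * (z * (g⁻¹ * σ)) = z * (g⁻¹ * (g⁻¹ * σ)) := by rw [← mul_assoc, hz, mul_assoc]
  rw [h, h', e1, e2]
  ring

lemma stepB (hz : ∀ g, g * z = z * g) (hzz : z * z = 1)
    (h : c σ = c1 (g⁻¹ * σ) + c1 ((z * g)⁻¹ * σ) - c2 (g⁻¹ * ((z * g)⁻¹ * σ)))
    (h' : c (z * σ) = c1 (g⁻¹ * (z * σ)) + c1 ((z * g)⁻¹ * (z * σ)) -
      c2 (g⁻¹ * ((z * g)⁻¹ * (z * σ)))) :
    c σ - c (z * σ) = c2 ((g * g)⁻¹ * σ) - c2 (z * ((g * g)⁻¹ * σ)) := by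
  have hzi : z⁻¹ = z := inv_eq_of_mul_eq_one_left hzz
  have e0 : (z * g)⁻¹ = z * g⁻¹ := by rw [mul_inv_rev, hzi, hz]
  have e1 : g⁻¹ * (z * σ) = z * g⁻¹ * σ := by rw [← mul_assoc, hz]
  have e2 : z * g⁻¹ * (z * σ) = g⁻¹ * σ := by
    rw [mul_assoc, ← mul_assoc g⁻¹, hz, mul_assoc z, ← mul_assoc z z, hzz, one_mul]
  have e3 : g⁻¹ * (z * g⁻¹ * σ) = z * ((g * g)⁻¹ * σ) := by
    rw [mul_inv_rev, ← mul_assoc, ← mul_assoc, hz, mul_assoc, mul_assoc, mul_assoc]
  have e4 : g⁻¹ * (g⁻¹ * σ) = (g * g)⁻¹ * σ := by rw [mul_inv_rev, mul_assoc]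
  rw [h, h', e0, e1, e2, e3, e4]
  ring

lemma stepI (hz : ∀ g, g * z = z * g)
    (h : c σ = c2 (g⁻¹ * σ)) (h' : c (z * σ) = c2 (g⁻¹ * (z * σ))) :
    c σ - c (z * σ) = c2 (g⁻¹ * σ) - c2 (z * (g⁻¹ * σ)) := by
  have e1 : g⁻¹ * (z * σ) = z * (g⁻¹ * σ) := by rw [← mul_assoc, hz, mul_assoc]
  rw [h, h', e1]

end abs

section

variable {ι : Qbar →+* ℂ} {F H k L : Sub} {ρ τ z : GQ}

lemma Data.H_normal (D : Data ι F H k L ρ τ z) {σ : GQ} (hσ : Fixes F σ) {x : Qbar}
    (hx : x ∈ H) : σ x ∈ H := by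
  apply mem_of_fixed
  intro s hs
  rw [D.abF s σ (hs.mono D.F_H) hσ x (D.H_L hx), hs x hx]

lemma Data.finH (D : Data ι F H k L ρ τ z) : FiniteDimensional ℚ H := by
  haveI := D.finL
  exact FiniteDimensional.of_injective (IntermediateField.inclusion D.H_L).toLinearMap
    (IntermediateField.inclusion_injective D.H_L)

lemma UnramifiedQ.mono {M M' : Sub} {f : ℕ} (h : UnramifiedQ M' f) (hM : M ≤ M') :
    UnramifiedQ M f := fun 𝔓 h1 h2 σ h3 => (h 𝔓 h1 h2 σ h3).mono hM

lemma agr_mul {M : Sub} {a a' b b' : GQ} (h : ∀ x ∈ M, a x = a' x) (h' : ∀ x ∈ M, b x = b' x)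
    (hb : ∀ x ∈ M, b x ∈ M) : ∀ x ∈ M, (a * b) x = (a' * b') x := by
  intro x hx
  rw [AlgEquiv.mul_apply, AlgEquiv.mul_apply, ← h' x hx, h _ (hb x hx)]

lemma agr_inv {M : Sub} {a a' : GQ} (h : ∀ x ∈ M, a x = a' x)
    (hb : ∀ x ∈ M, a'⁻¹ x ∈ M) : ∀ x ∈ M, a⁻¹ x = a'⁻¹ x := by
  intro x hx
  rw [AlgEquiv.aut_inv, AlgEquiv.symm_apply_eq, h _ (hb x hx), ← AlgEquiv.mul_apply,
    mul_inv_cancel, AlgEquiv.one_apply]

/-- the recursion for `E` and `M`, in terms of a Frobenius element `g` -/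
lemma rec_g {E M : Sub} [NumberField E] {f ℓ : ℕ} {art : Ideals E → GQ}
    (hart : IsArtin E M (principal E f) art) (hℓ : ℓ.Prime) (hℓf : ¬ ℓ ∣ f)
    (hM : ∀ σ : GQ, Fixes E σ → ∀ x ∈ M, σ x ∈ M) {g y : GQ} (hy : Fixes E g → Fixes E y)
    (hgg : Fixes E (g * g))
    (h : (Fixes E g ∧ ∃ P P' : Ideals E, P.IsPrime ∧ P'.IsPrime ∧ P ≠ P' ∧ nrm E P = ℓ ∧
        nrm E P' = ℓ ∧ (∀ x ∈ M, art P x = g x) ∧ (∀ x ∈ M, art P' x = y x) ∧
        ∀ Q : Ideals E, Q.IsPrime → (ℓ : 𝓞 E) ∈ Q → Q = P ∨ Q = P') ∨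
      (¬ Fixes E g ∧ ∃ P : Ideals E, P.IsPrime ∧ nrm E P = ℓ ^ 2 ∧
        (∀ x ∈ M, art P x = (g * g) x) ∧ ∀ Q : Ideals E, Q.IsPrime → (ℓ : 𝓞 E) ∈ Q → Q = P))
    {σ : GQ} (hσ : Fixes E σ) {n : ℕ} (hn : ℓ ∣ n) :
    (Fixes E g → (cnt E M (principal E f) art σ n : ℤ) =
      cnt E M (principal E f) art (g⁻¹ * σ) (n / ℓ) +
      cnt E M (principal E f) art (y⁻¹ * σ) (n / ℓ) -
      if ℓ ∣ n / ℓ then
        (cnt E M (principal E f) art (g⁻¹ * (y⁻¹ * σ)) (n / ℓ / ℓ) : ℤ) else 0) ∧
    (¬ Fixes E g → (cnt E M (principal E f) art σ n : ℤ) =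
      if ℓ ∣ n / ℓ then
        (cnt E M (principal E f) art ((g * g)⁻¹ * σ) (n / ℓ / ℓ) : ℤ) else 0) := by
  constructor
  · intro hg
    rcases h with ⟨-, P, P', hP, hP', hne, hN, hN', ha, ha', hall⟩ | ⟨h1, -⟩
    · have hy' := hy hg
      have e := rec_split hart hℓ hℓf hP hP' hne hN hN' hall σ hn
      have i1 : ∀ x ∈ M, (art P)⁻¹ x = g⁻¹ x := agr_inv ha (hM _ hg.inv)
      have i2 : ∀ x ∈ M, (art P')⁻¹ x = y⁻¹ x := agr_inv ha' (hM _ hy'.inv)
      have j1 : ∀ x ∈ M, ((art P)⁻¹ * σ) x = (g⁻¹ * σ) x :=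
        agr_mul i1 (fun _ _ => rfl) (hM _ hσ)
      have j2 : ∀ x ∈ M, ((art P')⁻¹ * σ) x = (y⁻¹ * σ) x :=
        agr_mul i2 (fun _ _ => rfl) (hM _ hσ)
      have j3 : ∀ x ∈ M, ((art P)⁻¹ * ((art P')⁻¹ * σ)) x = (g⁻¹ * (y⁻¹ * σ)) x := by
        refine agr_mul i1 j2 ?_
        intro x hx
        rw [j2 x hx]
        exact hM _ (hy'.inv.mul hσ) x hx
      rw [cnt_eq _ ((art P)⁻¹ * σ), cnt_congr E M _ art j1, cnt_eq _ ((art P')⁻¹ * σ),
        cnt_congr E M _ art j2, cnt_eq _ ((art P)⁻¹ * ((art P')⁻¹ * σ)),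
        cnt_congr E M _ art j3] at e
      exact e
    · exact absurd hg h1
  · intro hg
    rcases h with ⟨h1, -⟩ | ⟨-, P, hP, hN, ha, hall⟩
    · exact absurd h1 hg
    · have e := rec_inert hart hℓ hℓf hP hN hall σ hn
      have i1 : ∀ x ∈ M, (art P)⁻¹ x = (g * g)⁻¹ x := agr_inv ha (hM _ hgg.inv)
      have j1 : ∀ x ∈ M, ((art P)⁻¹ * σ) x = ((g * g)⁻¹ * σ) x :=
        agr_mul i1 (fun _ _ => rfl) (hM _ hσ)
      rw [cnt_eq _ ((art P)⁻¹ * σ), cnt_congr E M _ art j1] at e
      exact e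

theorem s_odd (hLOC : S_LOC) : S_ODD := by
  classical
  intro ι F H k L ρ τ z _ _ f artF artk D hf hur hF hk
  haveI := D.normal
  have hsurj : Function.Surjective (res L) := AlgEquiv.restrictNormalHom_surjective Qbar
  set lift : (L ≃ₐ[ℚ] L) → GQ := Function.surjInv hsurj with hlift
  have hres : ∀ γ, res L (lift γ) = γ := Function.surjInv_eq hsurj
  have hFres : ∀ (σ σ' : GQ) (n : ℕ), res L σ = res L σ' →
      cnt F H (principal F f) artF σ n = cnt F H (principal F f) artF σ' n := by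
    intro σ σ' n h
    exact cnt_congr F H _ artF (fun x hx => res_eq_iff.1 h x (D.H_L hx)) n
  have hkres : ∀ (σ σ' : GQ) (n : ℕ), res L σ = res L σ' →
      cnt k L (principal k f) artk σ n = cnt k L (principal k f) artk σ' n := by
    intro σ σ' n h
    exact cnt_congr k L _ artk (res_eq_iff.1 h) n
  set cF : ℕ → (L ≃ₐ[ℚ] L) → ℤ := fun n γ => cnt F H (principal F f) artF (lift γ) n with hcF
  set ck : ℕ → (L ≃ₐ[ℚ] L) → ℤ := fun n γ => cnt k L (principal k f) artk (lift γ) n with hck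
  have hcF' : ∀ (σ : GQ) (n : ℕ), (cnt F H (principal F f) artF σ n : ℤ) = cF n (res L σ) := by
    intro σ n
    simp only [hcF]
    rw [hFres σ (lift (res L σ)) n (hres _).symm]
  have hck' : ∀ (σ : GQ) (n : ℕ), (cnt k L (principal k f) artk σ n : ℤ) = ck n (res L σ) := by
    intro σ n
    simp only [hck]
    rw [hkres σ (lift (res L σ)) n (hres _).symm]
  set ζz : L ≃ₐ[ℚ] L := res L z with hζz
  have hz : ∀ γ : L ≃ₐ[ℚ] L, γ * ζz = ζz * γ := by
    intro γ
    obtain ⟨g, rfl⟩ := hsurj γ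
    exact D.z_comm g
  have hzz : ζz * ζz = 1 := D.zz
  -- the differences
  have key : ∀ n : ℕ, ∀ σ : GQ, Fixes k σ →
      (Fixes F σ → cF n (res L σ) - cF n (ζz * res L σ) = ck n (res L σ) - ck n (ζz * res L σ)) ∧
      (¬ Fixes F σ → ck n (res L σ) - ck n (ζz * res L σ) = 0) := by
    intro n
    induction n using Nat.strong_induction_on with
    | _ n ih =>
      intro σ hσk
      have hzσ : ζz * res L σ = res L (z * σ) := by rw [map_mul]
      rcases Nat.lt_or_ge n 2 with hn2 | hn2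
      · have hn01 : n = 0 ∨ n = 1 := by omega
        rcases hn01 with rfl | rfl
        · rw [hzσ, ← hcF', ← hcF', ← hck', ← hck', cnt_at_zero hf, cnt_at_zero hf,
            cnt_at_zero hf, cnt_at_zero hf]
          simp
        · rw [hzσ, ← hcF', ← hcF', ← hck', ← hck', cnt_at_one hF, cnt_at_one hF, cnt_at_one hk,
            cnt_at_one hk]
          have h1 : ∀ s : GQ, Fixes k s → (Fixes H s ↔ Fixes L s) := fun s hs =>
            ⟨fun h => D.A_H s hs h, fun h => h.mono D.H_L⟩
          have hzk : Fixes k (z * σ) := D.z_k.mul hσk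
          constructor
          · intro hσF
            simp only [h1 σ hσk, h1 _ hzk]
          · intro hσF
            have h2 : ¬ Fixes L σ := fun h => hσF (h.mono D.F_L)
            have h3 : ¬ Fixes L (z * σ) := by
              intro h
              apply hσF
              have h4 := D.z_F.inv.mul (h.mono D.F_L)
              rwa [inv_mul_cancel_left] at h4
            rw [if_neg h2, if_neg h3]
            simp
      · set ℓ := n.minFac with hℓdef
        have hℓ : ℓ.Prime := Nat.minFac_prime (by omega)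
        have hℓn : ℓ ∣ n := Nat.minFac_dvd n
        have hm : n / ℓ < n := Nat.div_lt_self (by omega) hℓ.one_lt
        have hm' : n / ℓ / ℓ < n := lt_of_le_of_lt (Nat.div_le_self _ _) hm
        by_cases hℓf : ℓ ∣ f
        · rw [hzσ, ← hcF', ← hcF', ← hck', ← hck', cnt_not_coprime hℓ hℓf σ hℓn,
            cnt_not_coprime hℓ hℓf _ hℓn, cnt_not_coprime hℓ hℓf σ hℓn,
            cnt_not_coprime hℓ hℓf _ hℓn]
          simp
        obtain ⟨g, hg⟩ := hLOC f ℓ hℓ hℓf hf
        have hgF := hg F H τ artF D.quadF D.τ_F D.F_H D.finH (hur.mono D.H_L) hF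
        have hgk := hg k L ρ artk D.quadk D.ρ_k D.k_L D.finL hur hk
        have hggF : Fixes F (g * g) := by
          by_cases h : Fixes F g
          · exact h.mul h
          · exact quad D.quadF h h
        have hggk : Fixes k (g * g) := by
          by_cases h : Fixes k g
          · exact h.mul h
          · exact quad D.quadk h h
        have hyF : Fixes F g → Fixes F (τ * g * τ⁻¹) := fun h => h.conj (quad_normal D.quadF) τ
        have hyk : Fixes k g → Fixes k (ρ * g * ρ⁻¹) := fun h => h.conj (quad_normal D.quadk) ρ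
        have rF : ∀ s : GQ, Fixes F s → _ := fun s hs => rec_g hF hℓ hℓf
          (fun σ hσ x hx => D.H_normal hσ hx) hyF hggF hgF hs hℓn
        have rk : ∀ s : GQ, Fixes k s → _ := fun s hs => rec_g hk hℓ hℓf
          (fun σ _ x hx => D.normL σ x hx) hyk hggk hgk hs hℓn
        -- form A and form B
        set c2F : (L ≃ₐ[ℚ] L) → ℤ := fun γ => if ℓ ∣ n / ℓ then cF (n / ℓ / ℓ) γ else 0 with hc2F
        set c2k : (L ≃ₐ[ℚ] L) → ℤ := fun γ => if ℓ ∣ n / ℓ then ck (n / ℓ / ℓ) γ else 0 with hc2k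
        have rF1 : ∀ s : GQ, Fixes F s → Fixes F g → cF n (res L s) =
            cF (n / ℓ) ((res L g)⁻¹ * res L s) +
            cF (n / ℓ) ((res L (τ * g * τ⁻¹))⁻¹ * res L s) -
            c2F ((res L g)⁻¹ * ((res L (τ * g * τ⁻¹))⁻¹ * res L s)) := by
          intro s hs hgs
          have h1 := (rF s hs).1 hgs
          rw [hcF', hcF', hcF', hcF'] at h1
          simp only [map_mul, map_inv] at h1 ⊢
          exact h1
        have rF2 : ∀ s : GQ, Fixes F s → ¬ Fixes F g → cF n (res L s) =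
            c2F ((res L (g * g))⁻¹ * res L s) := by
          intro s hs hgs
          have h1 := (rF s hs).2 hgs
          rw [hcF', hcF'] at h1
          simp only [map_mul, map_inv] at h1 ⊢
          exact h1
        have rk1 : ∀ s : GQ, Fixes k s → Fixes k g → ck n (res L s) =
            ck (n / ℓ) ((res L g)⁻¹ * res L s) +
            ck (n / ℓ) ((res L (ρ * g * ρ⁻¹))⁻¹ * res L s) -
            c2k ((res L g)⁻¹ * ((res L (ρ * g * ρ⁻¹))⁻¹ * res L s)) := by
          intro s hs hgs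
          have h1 := (rk s hs).1 hgs
          rw [hck', hck', hck', hck'] at h1
          simp only [map_mul, map_inv] at h1 ⊢
          exact h1
        have rk2 : ∀ s : GQ, Fixes k s → ¬ Fixes k g → ck n (res L s) =
            c2k ((res L (g * g))⁻¹ * res L s) := by
          intro s hs hgs
          have h1 := (rk s hs).2 hgs
          rw [hck', hck'] at h1
          simp only [map_mul, map_inv] at h1 ⊢
          exact h1
        have hzσk : Fixes k (z * σ) := D.z_k.mul hσk
        by_cases hA : Fixes F g ∧ Fixes k g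
        · -- form A
          obtain ⟨hgF1, hgk1⟩ := hA
          have e1 := rk1 σ hσk hgk1
          have e2 := rk1 (z * σ) hzσk hgk1
          rw [D.conj_ρ' hgF1] at e1 e2
          rw [map_mul] at e2
          have e3 := stepA hz e1 e2
          have i1 := ih (n / ℓ) hm (g⁻¹ * σ) (hgk1.inv.mul hσk)
          have i2 := ih (n / ℓ / ℓ) hm' (g⁻¹ * (g⁻¹ * σ)) (hgk1.inv.mul (hgk1.inv.mul hσk))
          simp only [map_mul, map_inv] at i1 i2
          constructor
          · intro hσF
            have f1 := rF1 σ hσF hgF1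
            have f2 := rF1 (z * σ) (D.z_F.mul hσF) hgF1
            rw [D.conj_τ' hgk1] at f1 f2
            rw [map_mul] at f2
            have f3 := stepA hz f1 f2
            rw [f3, e3, i1.1 (hgF1.inv.mul hσF)]
            have i3 := i2.1 (hgF1.inv.mul (hgF1.inv.mul hσF))
            simp only [hc2F, hc2k]
            split_ifs with h
            · rw [i3]
            · rfl
          · intro hσF
            have n1 : ¬ Fixes F (g⁻¹ * σ) := by
              intro h
              apply hσF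
              have h4 := hgF1.mul h
              rwa [mul_inv_cancel_left] at h4
            have n2 : ¬ Fixes F (g⁻¹ * (g⁻¹ * σ)) := by
              intro h
              apply n1
              have h4 := hgF1.mul h
              rwa [mul_inv_cancel_left] at h4
            rw [e3, i1.2 n1]
            have i3 := i2.2 n2
            simp only [hc2k]
            split_ifs with h
            · rw [i3]; ring
            · ring
        · -- form B
          have hBk : ∀ s : GQ, Fixes k s → ck n (res L s) - ck n (ζz * res L s) =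
              c2k ((res L (g * g))⁻¹ * res L s) - c2k (ζz * ((res L (g * g))⁻¹ * res L s)) := by
            intro s hs
            by_cases hgk1 : Fixes k g
            · have hgF1 : ¬ Fixes F g := fun h => hA ⟨h, hgk1⟩
              have e1 := rk1 s hs hgk1
              have e2 := rk1 (z * s) (D.z_k.mul hs) hgk1
              rw [D.conj_ρ'' hgk1 hgF1, map_mul] at e1
              rw [D.conj_ρ'' hgk1 hgF1, map_mul, map_mul] at e2
              have e3 := stepB hz hzz e1 e2
              rw [map_mul]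
              exact e3
            · have e1 := rk2 s hs hgk1
              have e2 := rk2 (z * s) (D.z_k.mul hs) hgk1
              rw [map_mul (res L) z s] at e2
              exact stepI hz e1 e2
          have hBF : ∀ s : GQ, Fixes F s → cF n (res L s) - cF n (ζz * res L s) =
              c2F ((res L (g * g))⁻¹ * res L s) - c2F (ζz * ((res L (g * g))⁻¹ * res L s)) := by
            intro s hs
            by_cases hgF1 : Fixes F g
            · have hgk1 : ¬ Fixes k g := fun h => hA ⟨hgF1, h⟩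
              have e1 := rF1 s hs hgF1
              have e2 := rF1 (z * s) (D.z_F.mul hs) hgF1
              rw [D.conj_τ hgF1 hgk1, map_mul] at e1
              rw [D.conj_τ hgF1 hgk1, map_mul, map_mul] at e2
              have e3 := stepB hz hzz e1 e2
              rw [map_mul]
              exact e3
            · have e1 := rF2 s hs hgF1
              have e2 := rF2 (z * s) (D.z_F.mul hs) hgF1
              rw [map_mul (res L) z s] at e2
              exact stepI hz e1 e2
          have i2 := ih (n / ℓ / ℓ) hm' ((g * g)⁻¹ * σ) (hggk.inv.mul hσk)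
          rw [map_mul (res L) (g * g)⁻¹ σ, map_inv] at i2
          constructor
          · intro hσF
            rw [hBF σ hσF, hBk σ hσk]
            have i3 := i2.1 (hggF.inv.mul hσF)
            simp only [hc2F, hc2k]
            split_ifs with h
            · exact i3
            · rfl
          · intro hσF
            have n1 : ¬ Fixes F ((g * g)⁻¹ * σ) := by
              intro h
              apply hσF
              have h4 := hggF.mul h
              rwa [mul_inv_cancel_left] at h4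
            rw [hBk σ hσk]
            have i3 := i2.2 n1
            simp only [hc2k]
            split_ifs with h
            · exact i3
            · ring
  constructor
  · intro σ hσF hσk n
    rw [hcF', hcF', hck', hck', map_mul]
    exact (key n σ hσk).1 hσF
  · intro σ hσF hσk n
    have h1 := (key n σ hσk).2 hσF
    have h2 : (cnt k L (principal k f) artk σ n : ℤ) =
        cnt k L (principal k f) artk (z * σ) n := by
      rw [hck', hck', map_mul]
      exact sub_eq_zero.1 h1
    exact_mod_cast h2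

end

end Pool.Agent.L7h10.RQ
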