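import Pool.Agent.L7h10.RQ.Grp

/-!
# The unit
-/

set_option autoImplicit false
set_option linter.all false

namespace Pool.Agent.L7h10.RQ
open NumberField Module IntermediateField
open Pool.Agent.K4H33.SK (Qbar GQ Fixes IsZeta IsTorsionOrder AbelianRoot LimitFormula fixes_iff
  mem_of_fixed Fixes.mul Fixes.inv Fixes.mono Fixes.conj Fixes.conj' quad_normal quad exists_lift
  exists_conj fixes_sup agree_iff conj_root exists_pow)
open Pool.Agent.K4H33.SK.Stmt (Sub Ideals nrm Cop prd principal Above IsFrob IsArtin cnt cntAll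
  StarkImQuad PrimesOver)

lemma Data.z_root {ι : Qbar →+* ℂ} {F H k L : Sub} {ρ τ z : GQ} (D : Data ι F H k L ρ τ z)
    {ξ : Qbar} {n : ℕ} (hn : n ≠ 0) (hξ : ξ ^ n = 1) : z ξ = ξ := by
  have h1 : (τ⁻¹ * ρ * τ) ξ = ξ⁻¹ := by
    rw [AlgEquiv.mul_apply, AlgEquiv.mul_apply,
      conj_root D.conj hn (ξ := τ ξ) (by rw [← map_pow, hξ, map_one]), AlgEquiv.aut_inv,
      AlgEquiv.symm_apply_eq, map_inv₀]
  rw [D.z_def, AlgEquiv.mul_apply, h1, map_inv₀, conj_root D.conj hn hξ, inv_inv]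

theorem s_unit : S_UNIT := by
  intro ι F H k L ρ τ z W C Z ε D hW hε hε0 hlim hint hab hodd hL
  haveI := D.normal
  obtain ⟨lam, hlam⟩ := IsAlgClosed.exists_pow_nat_eq ε hW
  have hlam0 : lam ≠ 0 := by
    rintro rfl
    rw [zero_pow hW.ne'] at hlam
    exact hε0 hlam.symm
  have hak : Fixes k z := D.z_k
  have haik : Fixes k z⁻¹ := hak.inv
  set κ : Qbar := lam / z⁻¹ lam with hκ
  have hal0 : z⁻¹ lam ≠ 0 := by simpa using hlam0
  have hκ0 : κ ≠ 0 := div_ne_zero hlam0 hal0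
  have hκW : κ ^ W = ε / z⁻¹ ε := by rw [hκ, div_pow, ← map_pow, hlam]
  have hroot : ∀ ξ : Qbar, ξ ^ W = 1 → z⁻¹ ξ = ξ := by
    intro ξ hξ
    rw [AlgEquiv.aut_inv, AlgEquiv.symm_apply_eq]
    exact (D.z_root hW.ne' hξ).symm
  -- membership
  have hκL : κ ∈ L := by
    apply mem_of_fixed
    intro σ hσ
    have hσk : Fixes k σ := hσ.mono D.k_L
    set ξ : Qbar := σ lam / lam with hξ
    have hξW : ξ ^ W = 1 := by
      rw [hξ, div_pow, ← map_pow, hlam, hσ ε hε, div_self hε0]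
    have h1 : σ lam = ξ * lam := by rw [hξ, div_mul_cancel₀ _ hlam0]
    have h2 : σ (z⁻¹ lam) = ξ * z⁻¹ lam := by
      rw [hab lam hlam σ z⁻¹ hσk haik, h1, map_mul, hroot ξ hξW]
    have hξ0 : ξ ≠ 0 := by
      rintro h
      rw [h, zero_pow hW.ne'] at hξW
      exact zero_ne_one hξW
    rw [hκ, map_div₀, h1, h2, mul_div_mul_left _ _ hξ0]
  -- integrality
  have haε0 : z⁻¹ ε ≠ 0 := by simpa using hε0
  have hκi : IsIntegral ℤ κ := by
    refine IsIntegral.of_pow hW ?_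
    rw [hκW]
    have h1 : ε / z⁻¹ ε = z⁻¹ (z ε / ε) := by
      rw [map_div₀]
      congr 1
      rw [← AlgEquiv.mul_apply, inv_mul_cancel, AlgEquiv.one_apply]
    rw [h1]
    exact (hint z hak).map ((z⁻¹ : GQ) : Qbar →+* Qbar).toIntAlgHom
  have hκi' : IsIntegral ℤ κ⁻¹ := by
    refine IsIntegral.of_pow hW ?_
    rw [inv_pow, hκW, inv_div]
    exact hint z⁻¹ haik
  -- `z² = 1` on `L`
  have hzz : ∀ x ∈ L, z (z x) = x := by
    have h1 : res L (z * z) = res L 1 := by rw [map_mul, D.zz, map_one]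
    exact fun x hx => res_eq_iff.1 h1 x hx
  have hzi : ∀ g : GQ, res L (g * z⁻¹) = res L (z * g) := by
    intro g
    have h1 : res L z⁻¹ = res L z := by
      rw [map_inv, inv_eq_iff_mul_eq_one, D.zz]
    rw [map_mul, map_mul, h1, D.z_comm]
  -- the logarithms
  have hlog : ∀ g : GQ, Fixes k g → (Real.log (‖ι (g κ)‖ ^ 2) : ℂ) =
        -(deriv (Z g) 0 - deriv (Z (z * g)) 0) := by
    intro g hg
    have h1 := (hlim g hg).2.2
    have h2 := (hlim (g * z⁻¹) (hg.mul haik)).2.2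
    rw [hL (g * z⁻¹) (z * g) (hg.mul haik) (hak.mul hg) (res_eq_iff.1 (hzi g))] at h2
    have hn1 : ‖ι (g ε)‖ ^ 2 ≠ 0 := by
      apply pow_ne_zero
      rw [norm_ne_zero_iff, Ne, map_eq_zero]
      simpa using hε0
    have hn2 : ‖ι ((g * z⁻¹) ε)‖ ^ 2 ≠ 0 := by
      apply pow_ne_zero
      rw [norm_ne_zero_iff, Ne, map_eq_zero]
      simpa using hε0
    have h3 : (W : ℝ) * Real.log (‖ι (g κ)‖ ^ 2) =
        Real.log (‖ι (g ε)‖ ^ 2) - Real.log (‖ι ((g * z⁻¹) ε)‖ ^ 2) := by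
      rw [← Real.log_pow, ← Real.log_div hn1 hn2, ← pow_mul, mul_comm 2 W, pow_mul, ← norm_pow,
        ← map_pow, ← map_pow, hκW, map_div₀, map_div₀, norm_div, div_pow]
      rfl
    have h4 : (W : ℂ) * (Real.log (‖ι (g κ)‖ ^ 2) : ℂ) =
        -(W : ℂ) * deriv (Z g) 0 - -(W : ℂ) * deriv (Z (z * g)) 0 := by
      rw [← h1, ← h2]
      exact_mod_cast h3
    have hW' : (W : ℂ) ≠ 0 := Nat.cast_ne_zero.2 hW.ne'
    apply mul_left_cancel₀ hW'
    rw [h4]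
    ring
  have hρτ : ∀ x, ρ (τ x) = τ ((τ⁻¹ * ρ * τ) x) := by
    intro x
    rw [← AlgEquiv.mul_apply, ← AlgEquiv.mul_apply]
    congr 1
    group
  have hnorm : ∀ x : Qbar, x ≠ 0 → ι x ≠ 0 := fun x hx => by rwa [Ne, map_eq_zero]
  set c₂ : GQ := τ⁻¹ * ρ * τ with hc₂
  have hc₂F : Fixes F c₂ := D.c_F
  -- complex conjugation at the second place
  have hc₂κ : c₂ κ = κ⁻¹ := by
    have h1 := hlog τ D.τ_k
    rw [hodd τ D.τ_F D.τ_k, sub_self, neg_zero] at h1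
    have h2 : Real.log (‖ι (τ κ)‖ ^ 2) = 0 := by exact_mod_cast h1
    have h3 : 0 < ‖ι (τ κ)‖ ^ 2 := by
      have : ι (τ κ) ≠ 0 := hnorm _ (by simpa using hκ0)
      positivity
    have h4 : ‖ι (τ κ)‖ ^ 2 = 1 := by
      rcases Real.log_eq_zero.1 h2 with h | h | h
      · exact absurd h h3.ne'
      · exact h
      · linarith
    have h5 : τ (κ * c₂ κ) = 1 := by
      apply ι.injective
      rw [map_mul, map_mul, ← hρτ, D.conj, Complex.mul_conj, Complex.normSq_eq_norm_sq, h4,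
        map_one]
      norm_num
    have h6 : κ * c₂ κ = 1 := by
      apply τ.injective
      rw [h5, map_one]
    exact eq_inv_of_mul_eq_one_right h6
  have hρκL : ρ κ ∈ L := D.normL ρ κ hκL
  have hρκ0 : ρ κ ≠ 0 := by simpa using hκ0
  have hρρ : ∀ x, ρ (ρ x) = x := fun x => by
    rw [← AlgEquiv.mul_apply, D.rr, AlgEquiv.one_apply]
  -- the root of unity
  set ξ' : Qbar := κ * z κ with hξ'
  have hξ'W : ξ' ^ W = 1 := by
    have h1 : z κ ^ W = z ε / ε := by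
      rw [← map_pow, hκW, map_div₀]
      congr 1
      rw [← AlgEquiv.mul_apply, mul_inv_cancel, AlgEquiv.one_apply]
    have h2 : z⁻¹ ε = z ε := by
      rw [AlgEquiv.aut_inv, AlgEquiv.symm_apply_eq]
      exact (hzz ε hε).symm
    have h3 : z ε ≠ 0 := by simpa using hε0
    rw [hξ', mul_pow, h1, hκW, h2]
    field_simp
  have hzκ : z κ = (ρ κ)⁻¹ := by
    rw [D.z_def, AlgEquiv.mul_apply]
    have : (τ⁻¹ * ρ * τ) κ = κ⁻¹ := hc₂κ
    rw [this, map_inv₀]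
  have hξ'0 : ξ' ≠ 0 := by
    rw [hξ', hzκ]
    exact mul_ne_zero hκ0 (inv_ne_zero hρκ0)
  have hρκ : ρ κ = κ * ξ'⁻¹ := by
    rw [hξ', hzκ]
    field_simp
  have hη0 : κ * ρ κ ≠ 0 := mul_ne_zero hκ0 hρκ0
  have hηL : κ * ρ κ ∈ L := L.mul_mem hκL hρκL
  refine ⟨κ * ρ κ, ?_, hη0, ?_, ?_, ?_, ?_, ?_⟩
  · -- membership in `H`
    apply mem_of_fixed
    intro σ hσ
    by_cases hk : Fixes k σ
    · exact D.A_H σ hk hσ _ hηL
    · have h1 : Fixes k (σ * ρ) := quad D.quadk hk D.ρ_k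
      have h2 := D.A_H _ h1 (hσ.mul D.ρ_H)
      have h3 : σ (κ * ρ κ) = (σ * ρ) (κ * ρ κ) := by
        rw [AlgEquiv.mul_apply, map_mul ρ, hρρ, mul_comm (ρ κ) κ]
      rw [h3]
      exact h2 _ hηL
  · exact hκi.mul (hκi.map (ρ : Qbar →+* Qbar).toIntAlgHom)
  · rw [mul_inv, ← map_inv₀]
    exact hκi'.mul (hκi'.map (ρ : Qbar →+* Qbar).toIntAlgHom)
  · intro σ hσF hσk
    have h1 := hlog σ hσk
    have h2 : (deriv (Z σ) 0 - deriv (Z (z * σ)) 0) = ((-Real.log (‖ι (σ κ)‖ ^ 2) : ℝ) : ℂ) := by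
      rw [Complex.ofReal_neg, h1, neg_neg]
    refine ⟨by rw [h2, Complex.ofReal_im], ?_⟩
    have h3 : 0 < ‖ι (σ κ)‖ ^ 2 := by
      have : ι (σ κ) ≠ 0 := hnorm _ (by simpa using hκ0)
      positivity
    rw [h2, ← Complex.ofReal_neg, neg_neg, ← Complex.ofReal_exp, Real.exp_log h3, map_mul, map_mul,
      D.abF σ ρ hσF D.ρ_F κ hκL, D.conj, Complex.mul_conj, Complex.normSq_eq_norm_sq]
  · intro w hw
    obtain ⟨h, hh⟩ := exists_lift ι w
    have hhF : ¬ Fixes F h := by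
      intro h1
      obtain ⟨x, hx, hx2⟩ := hw
      apply hx2
      rw [hh, h1 x hx]
    have hσ' : Fixes F (τ⁻¹ * h) := quad D.quadF (Data.inv_F D.τ_F) hhF
    set σ' : GQ := τ⁻¹ * h with hσ'def
    have hc₂η : c₂ (κ * ρ κ) = (κ * ρ κ)⁻¹ := by
      rw [map_mul, D.abF c₂ ρ hc₂F D.ρ_F κ hκL, hc₂κ, map_inv₀, mul_inv]
    have h1 : ρ (h (κ * ρ κ)) = (h (κ * ρ κ))⁻¹ := by
      have e1 : h (κ * ρ κ) = τ (σ' (κ * ρ κ)) := by
        rw [hσ'def, ← AlgEquiv.mul_apply, mul_inv_cancel_left]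
      rw [e1, hρτ, D.abF c₂ σ' hc₂F hσ' _ hηL, hc₂η, map_inv₀, map_inv₀]
    have h5 : ι (h (κ * ρ κ)) ≠ 0 := hnorm _ (by simpa using hη0)
    have h6 := D.conj (h (κ * ρ κ))
    rw [h1, map_inv₀] at h6
    have h7 : ι (h (κ * ρ κ)) * (starRingEnd ℂ) (ι (h (κ * ρ κ))) = 1 := by
      rw [← h6, mul_inv_cancel₀ h5]
    rw [Complex.mul_conj, Complex.normSq_eq_norm_sq] at h7
    rw [hh]
    have h8 : ‖ι (h (κ * ρ κ))‖ ^ 2 = 1 := by exact_mod_cast h7
    exact (pow_eq_one_iff_of_nonneg (norm_nonneg _) two_ne_zero).1 h8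
  · intro mu hmu σ σ' hσ hσ'
    set nu : Qbar := mu / κ with hnu
    have hnu2 : nu ^ 2 = ξ'⁻¹ := by
      rw [hnu, div_pow, hmu, hρκ]
      field_simp
    have hnuW : nu ^ (2 * W) = 1 := by
      rw [pow_mul, hnu2, inv_pow, hξ'W, inv_one]
    have hmu2 : mu = nu * κ := by rw [hnu, div_mul_cancel₀ _ hκ0]
    obtain ⟨n, -, hn⟩ := exists_pow (show 0 < 2 * W by positivity) σ
    obtain ⟨m, -, hm⟩ := exists_pow (show 0 < 2 * W by positivity) σ'
    have h1 : σ (σ' nu) = σ' (σ nu) := by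
      rw [hn nu hnuW, hm nu hnuW, map_pow, map_pow, hn nu hnuW, hm nu hnuW, ← pow_mul, ← pow_mul,
        mul_comm]
    rw [hmu2, map_mul, map_mul, map_mul, map_mul, h1, D.abF σ σ' hσ hσ' κ hκL]

end Pool.Agent.L7h10.RQ
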