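import Pool.Agent.L7h10.RQ.Even
import Pool.Agent.L7h10.RQ.Art
import Pool.Agent.L7h10.RQ.DataB
import Pool.Agent.L7h10.RQ.Odd
import Pool.Agent.L7h10.RQ.Unit
import Pool.Agent.L7h10.RQ.Add
import Pool.Agent.L7h10.RQ.Loc

/-!
# Assembly: preparations
-/

set_option autoImplicit false
set_option linter.all false

namespace Pool.Agent.L7h10.RQ
open NumberField Module IntermediateField
open Pool.Agent.K4H33.SK (Qbar GQ Fixes IsZeta IsTorsionOrder AbelianRoot LimitFormula fixes_iff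
  mem_of_fixed Fixes.mul Fixes.inv Fixes.mono Fixes.conj Fixes.conj' quad_normal quad exists_lift
  exists_conj fixes_sup agree_iff agree_sup comm_adjoin normal_mem cnt_prime cnt_modulus
  hasSum_shift comm_of_root abelianRoot_div isCoprime_prime_iff isZeta_deriv cnt_congr)
open Pool.Agent.K4H33.SK.Stmt (Sub Ideals nrm Cop prd principal Above IsFrob IsArtin cnt cntAll
  StarkImQuad PrimesOver)

/-- the compositum with a cyclotomic field -/
lemma isAbelian_sup {F H : Sub} {f : ℕ} {ζ : Qbar} (hf : 2 ≤ f) (hζ : IsPrimitiveRoot ζ f)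
    (hab : IsAbelian F H) : IsAbelian F (H ⊔ ℚ⟮ζ⟯) := by
  haveI : NeZero f := ⟨by omega⟩
  have hcomm : ∀ σ τ : GQ, Fixes F σ → Fixes F τ → ∀ x ∈ H ⊔ ℚ⟮ζ⟯, σ (τ x) = τ (σ x) := by
    intro σ τ h h'
    have h1 : ∀ x ∈ H ⊔ ℚ⟮ζ⟯, (σ * τ) x = (τ * σ) x := by
      refine agree_sup (fun x hx => hab.comm σ τ h h' x hx) (fun x hx => ?_)
      exact comm_adjoin hζ σ τ x hx
    exact h1
  refine ⟨hab.le.trans le_sup_left, ?_, ?_, hcomm⟩
  · haveI := hab.fin
    haveI : FiniteDimensional ℚ ℚ⟮ζ⟯ :=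
      IntermediateField.adjoin.finiteDimensional ((hζ.isIntegral (by omega)).tower_top)
    exact IntermediateField.finiteDimensional_sup _ _
  · intro σ hσ x hx
    apply mem_of_fixed
    intro s hs
    rw [hcomm s σ (hs.mono (hab.le.trans le_sup_left)) hσ x hx, hs x hx]

lemma principal_ne_top (F : Sub) [NumberField F] {f : ℕ} (hf : 2 ≤ f) : principal F f ≠ ⊤ := by
  intro h
  have h1 : Ideal.absNorm (principal F f) = f ^ finrank ℚ F := by
    have := Ideal.absNorm_span_natCast (S := 𝓞 F) f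
    rw [this, RingOfIntegers.rank]
  rw [h, Ideal.absNorm_top] at h1
  have h2 : finrank ℚ F ≠ 0 := Module.finrank_pos.ne'
  exact absurd h1.symm (Nat.one_lt_pow h2 (by omega)).ne'

lemma principal_ne_bot (F : Sub) [NumberField F] {f : ℕ} (hf : 2 ≤ f) : principal F f ≠ ⊥ := by
  intro h
  rw [Ideal.span_singleton_eq_bot, Nat.cast_eq_zero] at h
  omega

/-- unramified over `ℚ` implies unramified over `E` -/
lemma unramified_of {E M : Sub} [NumberField E] {f : ℕ} (h : UnramifiedQ M f) :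
    Unramified E M (principal E f) := by
  intro 𝔓 h𝔓 hc σ _ hσ
  refine h 𝔓 h𝔓 (fun hf => ?_) σ hσ
  have h1 := hc (𝔓.under (𝓞 E)) ⟨h𝔓, ⟨rfl⟩⟩
  have hp : (𝔓.under (𝓞 E)).IsPrime := inferInstance
  apply hp.ne_top
  rw [Ideal.eq_top_iff_one]
  obtain ⟨i, hi, j, hj, hij⟩ := Ideal.isCoprime_iff_exists.1 h1
  rw [← hij]
  refine (𝔓.under (𝓞 E)).add_mem hi ?_
  refine (Ideal.span_le (I := 𝔓.under (𝓞 E))).2 ?_ hj
  rw [Set.singleton_subset_iff, SetLike.mem_coe, Ideal.mem_comap, map_natCast]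
  exact hf

/-- the number of roots of unity -/
lemma exists_torsionOrder (L : Sub) [NumberField L] : ∃ W : ℕ, IsTorsionOrder L W := by
  refine ⟨NumberField.Units.torsionOrder L, NumberField.Units.torsionOrder_pos L, ?_⟩
  obtain ⟨g, hg⟩ := IsCyclic.exists_generator (α := NumberField.Units.torsion L)
  have hord : orderOf g = NumberField.Units.torsionOrder L := by
    rw [NumberField.Units.torsionOrder]
    exact orderOf_eq_card_of_forall_mem_zpowers hg
  -- the homomorphism into `Qbar`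
  let φ : (𝓞 L) →* Qbar :=
    ((algebraMap L Qbar).comp (algebraMap (𝓞 L) L) : 𝓞 L →+* Qbar)
  have hφ : Function.Injective φ :=
    (algebraMap L Qbar).injective.comp RingOfIntegers.coe_injective
  have hφL : ∀ x : 𝓞 L, φ x ∈ L := fun x => (algebraMap (𝓞 L) L x).2
  let ψ : NumberField.Units.torsion L →* 𝓞 L :=
    (Units.coeHom (𝓞 L)).comp (NumberField.Units.torsion L).subtype
  have hψ : Function.Injective ψ := Units.val_injective.comp Subtype.val_injective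
  have hprim : IsPrimitiveRoot (φ (ψ g)) (NumberField.Units.torsionOrder L) := by
    rw [← hord]
    exact ((IsPrimitiveRoot.orderOf g).map_of_injective hψ).map_of_injective hφ
  intro ξ
  constructor
  · rintro ⟨hξ, n, hn, hn2⟩
    have hint : IsIntegral ℤ (⟨ξ, hξ⟩ : L) := by
      refine IsIntegral.of_pow hn ?_
      have h1 : (⟨ξ, hξ⟩ : L) ^ n = 1 := Subtype.ext (by simpa using hn2)
      rw [h1]
      exact isIntegral_one
    let x : 𝓞 L := ⟨⟨ξ, hξ⟩, hint⟩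
    have hx : x ^ n = 1 := by
      apply hφ
      rw [map_pow, map_one]
      exact hn2
    let u : (𝓞 L)ˣ := Units.ofPowEqOne x n hx hn.ne'
    have hu : u ∈ NumberField.Units.torsion L := by
      refine (CommGroup.mem_torsion u).2 (isOfFinOrder_iff_pow_eq_one.2 ⟨n, hn, ?_⟩)
      ext
      rw [Units.val_pow_eq_pow_val, Units.val_ofPowEqOne, hx, Units.val_one]
    have h2 : (⟨u, hu⟩ : NumberField.Units.torsion L) ^ (NumberField.Units.torsionOrder L) = 1 :=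
      pow_card_eq_one'
    have h3 := congrArg (fun t => φ (ψ t)) h2
    simp only [map_pow, map_one] at h3
    exact h3
  · intro h
    refine ⟨?_, _, NumberField.Units.torsionOrder_pos L, h⟩
    obtain ⟨i, -, rfl⟩ := hprim.eq_pow_of_pow_eq_one h
    exact pow_mem (hφL _) i

/-- two functions on counting functions -/
lemma cnt_split {F H : Sub} [NumberField F] {𝔪 : Ideals F} {art : Ideals F → GQ} {Hp : Sub}
    {σ σ' : GQ} (hfix : ∀ 𝔟, Cop F 𝔟 𝔪 → ((∀ x ∈ Hp, art 𝔟 x = σ x) ↔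
      (∀ x ∈ H, art 𝔟 x = σ x) ∨ (∀ x ∈ H, art 𝔟 x = σ' x)))
    (hne : ∃ x ∈ H, σ x ≠ σ' x) (n : ℕ) :
    cnt F Hp 𝔪 art σ n = cnt F H 𝔪 art σ n + cnt F H 𝔪 art σ' n := by
  classical
  have hfin : Set.Finite {𝔟 : Ideals F | nrm F 𝔟 = n} := Ideal.finite_setOf_absNorm_eq n
  set A : Set (Ideals F) := {𝔟 | nrm F 𝔟 = n ∧ Cop F 𝔟 𝔪 ∧ ∀ x ∈ H, art 𝔟 x = σ x} with hA
  set B : Set (Ideals F) := {𝔟 | nrm F 𝔟 = n ∧ Cop F 𝔟 𝔪 ∧ ∀ x ∈ H, art 𝔟 x = σ' x} with hB
  set C : Set (Ideals F) := {𝔟 | nrm F 𝔟 = n ∧ Cop F 𝔟 𝔪 ∧ ∀ x ∈ Hp, art 𝔟 x = σ x} with hC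
  have h1 : C = A ∪ B := by
    ext 𝔟
    simp only [hA, hB, hC, Set.mem_setOf_eq, Set.mem_union]
    constructor
    · rintro ⟨h1, h2, h3⟩
      rcases (hfix 𝔟 h2).1 h3 with h | h
      · exact Or.inl ⟨h1, h2, h⟩
      · exact Or.inr ⟨h1, h2, h⟩
    · rintro (⟨h1, h2, h3⟩ | ⟨h1, h2, h3⟩)
      · exact ⟨h1, h2, (hfix 𝔟 h2).2 (Or.inl h3)⟩
      · exact ⟨h1, h2, (hfix 𝔟 h2).2 (Or.inr h3)⟩
  have h2 : Disjoint A B := by
    rw [Set.disjoint_left]
    rintro 𝔟 ⟨-, -, h3⟩ ⟨-, -, h4⟩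
    obtain ⟨x, hx, hx2⟩ := hne
    exact hx2 ((h3 x hx).symm.trans (h4 x hx))
  have e1 : cnt F Hp 𝔪 art σ n = C.ncard := Nat.card_coe_set_eq C
  have e2 : cnt F H 𝔪 art σ n = A.ncard := Nat.card_coe_set_eq A
  have e3 : cnt F H 𝔪 art σ' n = B.ncard := Nat.card_coe_set_eq B
  rw [e1, e2, e3, h1]
  exact Set.ncard_union_eq h2 (hfin.subset fun x hx => hx.1) (hfin.subset fun x hx => hx.1)

end Pool.Agent.L7h10.RQ
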