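import Pool.Agent.L7h10.RQ.MainA

/-!
# Assembly: the main theorem
-/

set_option autoImplicit false
set_option linter.all false

namespace Pool.Agent.L7h10.RQ
open NumberField Module IntermediateField
open Pool.Agent.K4H33.SK (Qbar GQ Fixes IsZeta IsTorsionOrder AbelianRoot LimitFormula fixes_iff
  mem_of_fixed Fixes.mul Fixes.inv Fixes.mono Fixes.conj Fixes.conj' quad_normal quad exists_lift
  exists_conj fixes_sup agree_iff agree_sup comm_adjoin normal_mem cnt_prime cnt_modulus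
  hasSum_shift comm_of_root abelianRoot_div isCoprime_prime_iff isZeta_deriv cnt_congr)
open Pool.Agent.K4H33.SK.Stmt (Sub Ideals nrm Cop prd principal Above IsFrob IsArtin cnt cntAll
  StarkImQuad PrimesOver)

/-- the totally real case -/
lemma case_real (ι : Qbar →+* ℂ) (F H : Sub) [NumberField F] {𝔣 : Ideals F}
    {art : Ideals F → GQ}
    (h : ∀ σ : GQ, Fixes F σ → ∃ Z : ℂ → ℂ, IsZeta (cnt F H 𝔣 art σ) Z ∧ Z 0 = 0 ∧ deriv Z 0 = 0) :
    StarkReal0 ι F H 𝔣 art := by
  classical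
  refine ⟨fun σ => if hσ : Fixes F σ then (h σ hσ).choose else 0, 1, H.one_mem, isIntegral_one,
    by rw [inv_one]; exact isIntegral_one, ?_, ?_, ?_⟩
  · intro σ hσ
    simp only [dif_pos hσ]
    obtain ⟨h1, h2, h3⟩ := (h σ hσ).choose_spec
    refine ⟨h1, h2, ?_, ?_⟩
    · rw [h3, Complex.zero_im]
    · rw [h3, mul_zero, Complex.exp_zero, map_one, map_one]
  · intro w _
    rw [map_one, norm_one]
  · intro lam hlam σ τ _ _
    have h1 : lam = 1 ∨ lam = -1 := by
      have h0 : (lam - 1) * (lam + 1) = 0 := by linear_combination hlam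
      rcases mul_eq_zero.1 h0 with h | h
      · exact Or.inl (sub_eq_zero.1 h)
      · exact Or.inr (eq_neg_of_add_eq_zero_left h)
    rcases h1 with rfl | rfl
    · simp
    · simp

/-- the fixed field of `z` in `H` -/
def HP (H : Sub) (z : GQ) : Sub where
  carrier := {x | x ∈ H ∧ z x = x}
  mul_mem' := fun {a b} ha hb => ⟨H.mul_mem ha.1 hb.1, by rw [map_mul, ha.2, hb.2]⟩
  one_mem' := ⟨H.one_mem, map_one _⟩
  add_mem' := fun {a b} ha hb => ⟨H.add_mem ha.1 hb.1, by rw [map_add, ha.2, hb.2]⟩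
  zero_mem' := ⟨H.zero_mem, map_zero _⟩
  algebraMap_mem' := fun r => ⟨H.algebraMap_mem r, z.commutes r⟩
  inv_mem' := fun a ha => ⟨H.inv_mem ha.1, by rw [map_inv₀, ha.2]⟩

lemma mem_HP {H : Sub} {z : GQ} {x : Qbar} : x ∈ HP H z ↔ x ∈ H ∧ z x = x := Iff.rfl

lemma case_cx (ι : Qbar →+* ℂ) (F H k L : Sub) (ρ τ z : GQ) [NumberField F] [NumberField k]
    (D : Data ι F H k L ρ τ z) (hab : IsAbelian F H) (hreal : ∀ x ∈ H, (ι x).im = 0)
    {f : ℕ} (hf : 2 ≤ f) {ζ : Qbar} (hζ : IsPrimitiveRoot ζ f)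
    (hplus : ∀ x ∈ H, (∀ w : Qbar →+* ℂ, (w x).im = 0) → x ∈ ℚ⟮ζ⟯) (hurL : UnramifiedQ L f)
    (art : Ideals F → GQ) (hart : IsArtin F (H ⊔ ℚ⟮ζ⟯) (principal F f) art)
    (artk : Ideals k → GQ) (hartk : IsArtin k L (principal k f) artk) (W : ℕ) (hW : 0 < W)
    (hS : StarkImQuad ι k L (principal k f) artk W) :
    StarkReal0 ι F H (principal F f) art := by
  classical
  obtain ⟨Zk, εk, hεL, hε0, hLF, hint, hroot⟩ := hS
  have hartH : IsArtin F H (principal F f) art := artin_restrict hart le_sup_left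
  obtain ⟨odd1, odd2⟩ := s_odd s_loc ι F H k L ρ τ z f art artk D hf hurL hartH hartk
  obtain ⟨η, hηH, hη0, hη1, hη2, hη3, hη4, hη5⟩ := s_unit ι F H k L ρ τ z W
    (cnt k L (principal k f) artk) Zk εk D hW hεL hε0 hLF hint hroot
    (fun σ hσF hσk => (isZeta_deriv (hLF σ hσk).1 (hLF (z * σ) (D.z_k.mul hσk)).1
      (fun n _ => odd2 σ hσF hσk n)).1)
    (fun σ σ' hσ hσ' hL => (isZeta_deriv (hLF σ hσ).1 (hLF σ' hσ').1
      (fun n _ => cnt_congr k L (principal k f) artk hL n)).1)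
  -- the totally real subfield
  have P : Pre ι F H ρ τ := ⟨D.conj, D.quadF, hab, hreal, D.τ_F⟩
  set c : GQ := τ⁻¹ * ρ * τ with hc
  have hcF : Fixes F c := P.c_F
  have hcH : ∀ x ∈ H, c x ∈ H := hab.normal c hcF
  have hzc : ∀ x ∈ H, z x = c x := by
    intro x hx
    rw [D.z_def, AlgEquiv.mul_apply]
    exact P.ρ_H _ (hcH x hx)
  have hrealp : ∀ x ∈ HP H z, ∀ w : Qbar →+* ℂ, (w x).im = 0 := by
    intro x hx w
    refine P.real_of hx.1 ?_ w
    rw [← hc, ← hzc x hx.1]
    exact hx.2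
  have hHpζ : HP H z ≤ ℚ⟮ζ⟯ := fun x hx => hplus x hx.1 (hrealp x hx)
  have hFHp : F ≤ HP H z := fun x hx => ⟨hab.le hx, D.z_F x hx⟩
  have hartζ : IsArtin F ℚ⟮ζ⟯ (principal F f) art := artin_restrict hart le_sup_right
  have hev := s_even F (HP H z) f ζ art hf hζ D.quadF hFHp hHpζ hrealp hartζ
  -- splitting
  have hsplit : ∀ σ : GQ, Fixes F σ → ∀ n : ℕ, cnt F (HP H z) (principal F f) art σ n =
      cnt F H (principal F f) art σ n + cnt F H (principal F f) art (z * σ) n := by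
    intro σ hσ n
    refine cnt_split ?_ ?_ n
    · intro 𝔟 h𝔟
      constructor
      · intro h
        have h1 : ∀ x ∈ H, c x = x → (σ⁻¹ * art 𝔟) x = x := by
          intro x hx hcx
          rw [AlgEquiv.mul_apply, h x ⟨hx, by rw [hzc x hx, hcx]⟩, ← AlgEquiv.mul_apply,
            inv_mul_cancel, AlgEquiv.one_apply]
        rcases P.one_or_c h1 with h2 | h2
        · left
          intro x hx
          have h3 := congrArg σ (h2 x hx)
          rwa [← AlgEquiv.mul_apply, mul_inv_cancel_left] at h3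
        · right
          intro x hx
          have h3 := congrArg σ (h2 x hx)
          rw [← AlgEquiv.mul_apply, mul_inv_cancel_left] at h3
          rw [h3]
          refine (hab.comm σ c hσ hcF x hx).trans ?_
          exact (hzc _ (hab.normal σ hσ x hx)).symm
      · rintro (h | h)
        · intro x hx
          exact h x hx.1
        · intro x hx
          rw [h x hx.1, AlgEquiv.mul_apply, hab.comm z σ D.z_F hσ x hx.1, hx.2]
    · by_contra hcon
      push Not at hcon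
      apply D.z_H
      intro x hx
      have h1 : σ⁻¹ x ∈ H := hab.normal _ hσ.inv x hx
      have h2 := hcon _ h1
      rw [AlgEquiv.mul_apply, ← AlgEquiv.mul_apply σ, mul_inv_cancel, AlgEquiv.one_apply] at h2
      exact h2.symm
  -- the automorphism `a σ`
  set a : GQ → GQ := fun σ => if Fixes k σ then σ else σ * ρ with ha
  have ha_k : ∀ σ, Fixes k (a σ) := by
    intro σ
    by_cases h : Fixes k σ
    · simp only [ha, if_pos h]
      exact h
    · simp only [ha, if_neg h]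
      exact quad D.quadk h D.ρ_k
  have ha_F : ∀ σ, Fixes F σ → Fixes F (a σ) := by
    intro σ hσ
    by_cases h : Fixes k σ
    · simp only [ha, if_pos h]
      exact hσ
    · simp only [ha, if_neg h]
      exact hσ.mul D.ρ_F
  have ha_H : ∀ σ, ∀ x ∈ H, a σ x = σ x := by
    intro σ x hx
    by_cases h : Fixes k σ
    · simp only [ha, if_pos h]
    · simp only [ha, if_neg h]
      rw [AlgEquiv.mul_apply, P.ρ_H x hx]
  choose! Zp hZp using hev
  refine ⟨fun σ s => (1 / 2 : ℂ) * (Zp σ s + (Zk (a σ) s - Zk (z * a σ) s)), η, hηH, hη1, hη2,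
    ?_, hη4, hη5⟩
  intro σ hσ
  obtain ⟨p1, p2, p3⟩ := hZp σ hσ
  obtain ⟨q1, q2, -⟩ := hLF (a σ) (ha_k σ)
  obtain ⟨r1, r2, -⟩ := hLF (z * a σ) (D.z_k.mul (ha_k σ))
  obtain ⟨u1, u2⟩ := hη3 (a σ) (ha_F σ hσ) (ha_k σ)
  have hn : ({1}ᶜ : Set ℂ) ∈ nhds (0 : ℂ) := isOpen_compl_singleton.mem_nhds (by simp)
  have d1 := (p1.1.differentiableAt hn).hasDerivAt
  have d2 := (q1.1.differentiableAt hn).hasDerivAt
  have d3 := (r1.1.differentiableAt hn).hasDerivAt
  have hd : deriv (fun s => (1 / 2 : ℂ) * (Zp σ s + (Zk (a σ) s - Zk (z * a σ) s))) 0 =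
      (1 / 2 : ℂ) * (deriv (Zk (a σ)) 0 - deriv (Zk (z * a σ)) 0) := by
    refine Eq.trans ((d1.add (d2.sub d3)).const_mul (1 / 2 : ℂ)).deriv ?_
    rw [p3, zero_add]
  refine ⟨⟨?_, ?_⟩, ?_, ?_, ?_⟩
  · exact (p1.1.add (q1.1.sub r1.1)).const_mul _
  · intro s hs
    have e1 := ((p1.2 s hs).add ((q1.2 s hs).sub (r1.2 s hs))).smul (1 / 2 : ℂ)
    refine (LSeriesHasSum_congr s _ (fun {n} _ => ?_)).1 e1
    have e2 := hsplit σ hσ n
    have e3 := odd1 (a σ) (ha_F σ hσ) (ha_k σ) n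
    have e4 : cnt F H (principal F f) art (a σ) n = cnt F H (principal F f) art σ n :=
      cnt_congr F H (principal F f) art (ha_H σ) n
    have e5 : cnt F H (principal F f) art (z * a σ) n =
        cnt F H (principal F f) art (z * σ) n := by
      refine cnt_congr F H (principal F f) art (fun x hx => ?_) n
      rw [AlgEquiv.mul_apply, AlgEquiv.mul_apply, ha_H σ x hx]
    rw [e4, e5] at e3
    have e6 : ((cnt F H (principal F f) art σ n : ℤ) : ℂ) -
        ((cnt F H (principal F f) art (z * σ) n : ℤ) : ℂ) =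
        ((cnt k L (principal k f) artk (a σ) n : ℤ) : ℂ) -
        ((cnt k L (principal k f) artk (z * a σ) n : ℤ) : ℂ) := by
      exact_mod_cast congrArg (fun t : ℤ => (t : ℂ)) e3
    have e7 : ((cnt F (HP H z) (principal F f) art σ n : ℕ) : ℂ) =
        (cnt F H (principal F f) art σ n : ℂ) +
        (cnt F H (principal F f) art (z * σ) n : ℂ) := by
      exact_mod_cast congrArg (fun t : ℕ => (t : ℂ)) e2
    simp only [Pi.smul_apply, Pi.add_apply, Pi.sub_apply, smul_eq_mul, Int.cast_natCast] at e6 ⊢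
    linear_combination (1 / 2 : ℂ) * e7 - (1 / 2 : ℂ) * e6
  · simp only
    rw [p2, q2, r2]
    ring
  · rw [hd, Complex.mul_im, u1, mul_zero, zero_add]
    have : (1 / 2 : ℂ).im = 0 := by
      rw [show (1 / 2 : ℂ) = ((1 / 2 : ℝ) : ℂ) by push_cast; rfl, Complex.ofReal_im]
    rw [this, zero_mul]
  · rw [← ha_H σ η hηH, u2, hd]
    congr 1
    ring

/-- **The main theorem.** -/
theorem main (ι : Qbar →+* ℂ) (hStark : StarkTheorem ι) (F H : Sub) [NumberField F]
    (hF : finrank ℚ F = 2) (hab : IsAbelian F H) (hreal : ∀ x ∈ H, (ι x).im = 0)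
    (f : ℕ) (hf : 2 ≤ f) (ζ : Qbar) (hζ : IsPrimitiveRoot ζ f)
    (hplus : ∀ x ∈ H, (∀ w : Qbar →+* ℂ, (w x).im = 0) → x ∈ ℚ⟮ζ⟯) (hur : UnramifiedQ H f)
    (𝔣 : Ideals F) (h𝔣 : PrimesOver F f 𝔣) (art : Ideals F → GQ) (hart : IsArtin F H 𝔣 art) :
    StarkReal ι F H 𝔣 art := by
  classical
  obtain ⟨art0, hart0⟩ := s_art F (H ⊔ ℚ⟮ζ⟯) (principal F f) (isAbelian_sup hf hζ hab)
    (principal_ne_top F hf)
  have hart0H : IsArtin F H (principal F f) art0 := artin_restrict hart0 le_sup_left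
  -- the theorem for the ideal `(f)`
  have h0 : StarkReal0 ι F H (principal F f) art0 := by
    by_cases hcx : ∃ x ∈ H, ∃ w : Qbar →+* ℂ, (w x).im ≠ 0
    · obtain ⟨k, L, ρ, τ, z, D, hurL⟩ := s_data ι F H hF hab hreal hcx f ζ hf hζ hplus hur
      haveI : FiniteDimensional ℚ k := FiniteDimensional.of_finrank_pos (by rw [D.quadk]; norm_num)
      haveI : NumberField k := ⟨⟩
      haveI := D.finL
      haveI : NumberField L := ⟨⟩
      have habk : IsAbelian k L := ⟨D.k_L, D.finL, fun σ _ => D.normL σ, D.abk⟩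
      obtain ⟨artk, hartk⟩ := s_art k L (principal k f) habk (principal_ne_top k hf)
      obtain ⟨W, hW⟩ := exists_torsionOrder L
      have him : ∃ x ∈ k, (ι x).im ≠ 0 := by
        by_contra hcon
        push Not at hcon
        apply D.ρ_k
        intro x hx
        apply ι.injective
        rw [D.conj]
        exact Complex.conj_eq_iff_im.2 (hcon x hx)
      have hS := hStark k L (principal k f) artk W D.quadk him habk (unramified_of hurL)
        (principal_ne_bot k hf) (principal_ne_top k hf) hartk hW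
      exact case_cx ι F H k L ρ τ z D hab hreal hf hζ hplus hurL art0 hart0 artk hartk W hW.1 hS
    · push Not at hcx
      have hHζ : H ≤ ℚ⟮ζ⟯ := fun x hx => hplus x hx (hcx x hx)
      exact case_real ι F H (s_even F H f ζ art0 hf hζ hF hab.le hHζ hcx
        (artin_restrict hart0 le_sup_right))
  -- enlarging the ideal
  have h𝔣P : ∀ P : Ideals F, P.IsPrime → principal F f ≤ P → 𝔣 ≤ P := by
    intro P hP hle
    exact h𝔣.2 P hP (hle (Ideal.subset_span (Set.mem_singleton _)))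
  have h1 := s_add ι F H (principal F f) 𝔣 art0 hab.le hart0H h0 h𝔣.1 h𝔣P
  -- changing the Artin symbols
  have hcop : ∀ 𝔟 : Ideals F, Cop F 𝔟 𝔣 → Cop F 𝔟 (principal F f) := by
    intro 𝔟 h
    refine Ideal.isCoprime_iff_sup_eq.2 ?_
    by_contra hne
    obtain ⟨P, hP, hle⟩ := Ideal.exists_le_maximal _ hne
    apply hP.ne_top
    rw [Ideal.eq_top_iff_one]
    obtain ⟨i, hi, j, hj, hij⟩ := Ideal.isCoprime_iff_exists.1 h
    rw [← hij]
    exact P.add_mem (hle ((le_sup_left : 𝔟 ≤ 𝔟 ⊔ _) hi))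
      (h𝔣P P hP.isPrime ((le_sup_right : principal F f ≤ 𝔟 ⊔ principal F f).trans hle) hj)
  have h𝔣top : 𝔣 ≠ ⊤ := by
    intro h
    obtain ⟨P, hP, hle⟩ := Ideal.exists_le_maximal _ (principal_ne_top F hf)
    have := h𝔣P P hP.isPrime hle
    rw [h, top_le_iff] at this
    exact hP.ne_top this
  have huni := s_uni' F H (principal F f) 𝔣 hab (unramified_of hur) (principal_ne_top F hf)
    h𝔣top hcop art0 art hart0H hart
  obtain ⟨Z, ε, e1, e2, e3, e4, e5, e6⟩ := h1
  refine ⟨Z, ε, e1, e2, e3, ?_, e5, e6⟩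
  intro σ hσ
  obtain ⟨z1, z2, z3, z4⟩ := e4 σ hσ
  refine ⟨?_, z3, z4⟩
  have hc : cnt F H 𝔣 art σ = cnt F H 𝔣 art0 σ := by
    funext n
    refine Nat.card_congr (Equiv.subtypeEquivRight fun 𝔟 => ?_)
    refine and_congr_right fun _ => and_congr_right fun hb => forall₂_congr fun x hx => ?_
    rw [huni 𝔟 hb x hx]
  rw [hc]
  exact z1

end Pool.Agent.L7h10.RQ
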