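import Pool.Agent.L7h10.RQ.Grp

/-!
# Recursions for the numbers of ideals
-/

set_option autoImplicit false
set_option linter.all false

namespace Pool.Agent.L7h10.RQ
open NumberField Module IntermediateField
open Pool.Agent.K4H33.SK (Qbar GQ Fixes IsZeta IsTorsionOrder AbelianRoot LimitFormula fixes_iff
  mem_of_fixed Fixes.mul Fixes.inv Fixes.mono Fixes.conj Fixes.conj' quad_normal quad exists_lift
  exists_conj fixes_sup agree_iff conj_root exists_pow cnt_prime coprime_norm isCoprime_prime_iff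
  cnt_congr)
open Pool.Agent.K4H33.SK.Stmt (Sub Ideals nrm Cop prd principal Above IsFrob IsArtin cnt cntAll
  StarkImQuad PrimesOver)

section

variable {E M : Sub} [NumberField E] {f ℓ : ℕ} {art : Ideals E → GQ}

lemma cnt_eq (𝔪 : Ideals E) (σ : GQ) (n : ℕ) :
    cnt E M 𝔪 art σ n = Pool.Agent.K4H33.SK.cnt E M 𝔪 art σ n := rfl

lemma cop_of_norm {P : Ideals E} {a : ℕ} (hℓ : ℓ.Prime) (hℓf : ¬ ℓ ∣ f) (hN : nrm E P = ℓ ^ a) :
    IsCoprime P (principal E f) := by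
  rw [coprime_norm]
  have h1 : Ideal.absNorm P = ℓ ^ a := hN
  rw [h1]
  exact Nat.Coprime.pow_left _ ((Nat.Prime.coprime_iff_not_dvd hℓ).2 hℓf)

lemma ne_bot_of_norm {P : Ideals E} {a : ℕ} (hℓ : ℓ.Prime) (hN : nrm E P = ℓ ^ a) : P ≠ ⊥ := by
  rintro rfl
  have h1 : Ideal.absNorm (⊥ : Ideal (𝓞 E)) = ℓ ^ a := hN
  rw [Ideal.absNorm_bot] at h1
  exact (pow_ne_zero a hℓ.ne_zero) h1.symm

/-- there is a prime above `ℓ` dividing an ideal whose norm is divisible by `ℓ` -/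
lemma exists_prime_dvd (hℓ : ℓ.Prime) {𝔟 : Ideals E} (h : ℓ ∣ nrm E 𝔟) :
    ∃ Q : Ideals E, Q.IsPrime ∧ (ℓ : 𝓞 E) ∈ Q ∧ 𝔟 ≤ Q := by
  have hp' : Prime (ℓ : ℤ) := Nat.prime_iff_prime_int.1 hℓ
  obtain ⟨P, hP, hP2, hP3⟩ := Ideal.exists_isMaximal_dvd_of_dvd_absNorm hp' 𝔟
    (by exact_mod_cast h)
  refine ⟨P, hP.isPrime, ?_, Ideal.le_of_dvd hP3⟩
  have h5 : (ℓ : ℤ) ∈ Ideal.under ℤ P := by rw [hP2]; exact Ideal.mem_span_singleton_self _
  have h6 := Ideal.mem_comap.1 h5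
  simpa using h6

lemma cnt_zero_of {𝔤 : Ideals E} (hℓ : ℓ.Prime)
    (h : ∀ Q : Ideals E, Q.IsPrime → (ℓ : 𝓞 E) ∈ Q → 𝔤 ≤ Q) (σ : GQ) {n : ℕ} (hn : ℓ ∣ n) :
    cnt E M 𝔤 art σ n = 0 := by
  unfold cnt
  rw [Nat.card_eq_zero]
  left
  rw [isEmpty_subtype]
  rintro 𝔟 ⟨h1, h2, -⟩
  obtain ⟨Q, hQ, hQℓ, hQb⟩ := exists_prime_dvd (𝔟 := 𝔟) hℓ (by rw [h1]; exact hn)
  have h3 := h Q hQ hQℓ
  apply hQ.ne_top
  rw [Ideal.eq_top_iff_one]
  obtain ⟨i, hi, j, hj, hij⟩ := Ideal.isCoprime_iff_exists.1 h2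
  rw [← hij]
  exact Q.add_mem (hQb hi) (h3 hj)

theorem rec_split (hart : IsArtin E M (principal E f) art) (hℓ : ℓ.Prime) (hℓf : ¬ ℓ ∣ f)
    {P P' : Ideals E} (hP : P.IsPrime) (hP' : P'.IsPrime) (hne : P ≠ P') (hN : nrm E P = ℓ)
    (hN' : nrm E P' = ℓ) (hall : ∀ Q : Ideals E, Q.IsPrime → (ℓ : 𝓞 E) ∈ Q → Q = P ∨ Q = P')
    (σ : GQ) {n : ℕ} (hn : ℓ ∣ n) :
    (cnt E M (principal E f) art σ n : ℤ) =
      cnt E M (principal E f) art ((art P)⁻¹ * σ) (n / ℓ) +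
      cnt E M (principal E f) art ((art P')⁻¹ * σ) (n / ℓ) -
      if ℓ ∣ n / ℓ then
        (cnt E M (principal E f) art ((art P)⁻¹ * ((art P')⁻¹ * σ)) (n / ℓ / ℓ) : ℤ) else 0 := by
  have hart' := hart.down
  have hP0 : P ≠ ⊥ := ne_bot_of_norm (a := 1) hℓ (by rw [hN, pow_one])
  have hP0' : P' ≠ ⊥ := ne_bot_of_norm (a := 1) hℓ (by rw [hN', pow_one])
  have hc : IsCoprime P (principal E f) := cop_of_norm (a := 1) hℓ hℓf (by rw [hN, pow_one])
  have hc' : IsCoprime P' (principal E f) := cop_of_norm (a := 1) hℓ hℓf (by rw [hN', pow_one])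
  have hcc : IsCoprime P' P := by
    rw [isCoprime_prime_iff hP hP0]
    intro hle
    have h1 := (hP'.isMaximal hP0').eq_of_le hP.ne_top hle
    exact hne h1.symm
  have e1 := cnt_prime (L := M) hart' le_rfl (𝔤 := principal E f) (fun _ h => h) hP hP0 hc
  have e2 := cnt_prime (L := M) hart' le_rfl (𝔤 := principal E f * P)
    (fun _ h => (IsCoprime.mul_right_iff.1 h).1) hP' hP0' (IsCoprime.mul_right_iff.2 ⟨hc', hcc⟩)
  have hz : ∀ σ : GQ, ∀ n : ℕ, ℓ ∣ n → cnt E M (principal E f * P * P') art σ n = 0 := by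
    intro σ n hn
    refine cnt_zero_of hℓ (fun Q hQ hQℓ => ?_) σ hn
    rcases hall Q hQ hQℓ with h | h
    · rw [h]
      exact (Ideal.mul_le_left (I := principal E f * P) (J := P')).trans
        (Ideal.mul_le_right (I := principal E f) (J := P))
    · rw [h]
      exact Ideal.mul_le_right (I := principal E f * P) (J := P')
  have hN1 : Ideal.absNorm P = ℓ := hN
  have hN1' : Ideal.absNorm P' = ℓ := hN'
  rw [hN1] at e1
  rw [hN1'] at e2
  have f1 := e1 σ n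
  have f2 := e2 σ n
  rw [if_pos hn] at f1 f2
  have f3 := e1 ((art P')⁻¹ * σ) (n / ℓ)
  have f4 := hz σ n hn
  rw [cnt_eq] at f4
  simp only [cnt_eq]
  rw [f4] at f2
  split_ifs at f3 ⊢ with h
  · omega
  · omega

theorem rec_inert (hart : IsArtin E M (principal E f) art) (hℓ : ℓ.Prime) (hℓf : ¬ ℓ ∣ f)
    {P : Ideals E} (hP : P.IsPrime) (hN : nrm E P = ℓ ^ 2)
    (hall : ∀ Q : Ideals E, Q.IsPrime → (ℓ : 𝓞 E) ∈ Q → Q = P)
    (σ : GQ) {n : ℕ} (hn : ℓ ∣ n) :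
    (cnt E M (principal E f) art σ n : ℤ) =
      if ℓ ∣ n / ℓ then
        (cnt E M (principal E f) art ((art P)⁻¹ * σ) (n / ℓ / ℓ) : ℤ) else 0 := by
  have hart' := hart.down
  have hP0 : P ≠ ⊥ := ne_bot_of_norm hℓ hN
  have hc : IsCoprime P (principal E f) := cop_of_norm hℓ hℓf hN
  have e1 := cnt_prime (L := M) hart' le_rfl (𝔤 := principal E f) (fun _ h => h) hP hP0 hc σ n
  have hN1 : Ideal.absNorm P = ℓ ^ 2 := hN
  rw [hN1] at e1
  have hz : cnt E M (principal E f * P) art σ n = 0 := by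
    refine cnt_zero_of hℓ (fun Q hQ hQℓ => ?_) σ hn
    rw [hall Q hQ hQℓ]
    exact Ideal.mul_le_right (I := principal E f) (J := P)
  rw [cnt_eq] at hz
  simp only [cnt_eq]
  rw [hz, zero_add] at e1
  rw [e1]
  obtain ⟨m, rfl⟩ := hn
  rw [Nat.mul_div_cancel_left _ hℓ.pos]
  have h1 : ℓ ^ 2 ∣ ℓ * m ↔ ℓ ∣ m := by
    rw [pow_two]
    exact Nat.mul_dvd_mul_iff_left hℓ.pos
  by_cases h : ℓ ∣ m
  · rw [if_pos h, if_pos (h1.2 h)]
    obtain ⟨r, rfl⟩ := h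
    have h2 : ℓ * (ℓ * r) / ℓ ^ 2 = r := by
      rw [← mul_assoc, ← pow_two, Nat.mul_div_cancel_left _ (pow_pos hℓ.pos 2)]
    rw [h2, Nat.mul_div_cancel_left _ hℓ.pos]
  · rw [if_neg h, if_neg (fun h' => h (h1.1 h'))]
    rfl

/-- the value at `0` -/
lemma cnt_at_zero (hf : 2 ≤ f) (σ : GQ) : cnt E M (principal E f) art σ 0 = 0 := by
  unfold cnt
  rw [Nat.card_eq_zero]
  left
  rw [isEmpty_subtype]
  rintro 𝔟 ⟨h1, h2, -⟩
  have h3 : (Ideal.absNorm 𝔟).Coprime f := (coprime_norm 𝔟).1 h2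
  have h4 : Ideal.absNorm 𝔟 = 0 := h1
  rw [h4, Nat.coprime_zero_left] at h3
  omega

/-- the value at `n` not prime to `f` -/
lemma cnt_not_coprime (hℓ : ℓ.Prime) (hℓf : ℓ ∣ f) (σ : GQ) {n : ℕ} (hn : ℓ ∣ n) :
    cnt E M (principal E f) art σ n = 0 := by
  refine cnt_zero_of hℓ (fun Q hQ hQℓ => ?_) σ hn
  rw [Ideal.span_singleton_le_iff_mem]
  obtain ⟨r, rfl⟩ := hℓf
  rw [Nat.cast_mul]
  exact Q.mul_mem_right _ hQℓ

/-- the value at `1` -/
lemma cnt_at_one (hart : IsArtin E M (principal E f) art) (σ : GQ) [Decidable (Fixes M σ)] :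
    cnt E M (principal E f) art σ 1 = if Fixes M σ then 1 else 0 := by
  have hc : IsCoprime (⊤ : Ideals E) (principal E f) := by
    rw [← Ideal.one_eq_top]
    exact isCoprime_one_left
  have h1 : ∀ x ∈ M, art ⊤ x = x := by
    intro x hx
    have h2 := hart.mul ⊤ ⊤ hc hc x hx
    have h3 : prd E ⊤ ⊤ = ⊤ := by
      show (⊤ : Ideals E) * ⊤ = ⊤
      rw [← Ideal.one_eq_top, one_mul]
    rw [h3] at h2
    exact ((art ⊤).injective h2).symm
  split_ifs with h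
  · unfold cnt
    rw [Nat.card_eq_one_iff_unique]
    constructor
    · constructor
      rintro ⟨a, ha, -⟩ ⟨b, hb, -⟩
      have ha' : Ideal.absNorm a = 1 := ha
      have hb' : Ideal.absNorm b = 1 := hb
      rw [Ideal.absNorm_eq_one_iff] at ha' hb'
      exact Subtype.ext (ha'.trans hb'.symm)
    · exact ⟨⟨⊤, Ideal.absNorm_top, hc, fun x hx => by rw [h1 x hx, h x hx]⟩⟩
  · unfold cnt
    rw [Nat.card_eq_zero]
    left
    rw [isEmpty_subtype]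
    rintro 𝔟 ⟨h2, -, h3⟩
    apply h
    have h2' : Ideal.absNorm 𝔟 = 1 := h2
    rw [Ideal.absNorm_eq_one_iff] at h2'
    subst h2'
    intro x hx
    rw [← h3 x hx, h1 x hx]

end

end Pool.Agent.L7h10.RQ
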